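import Pool.Agent.FF57.CDef

set_option autoImplicit false

/-!
# FX65/Dsp: displacement of the centre when a facet in a belt of a varying facet is crossed

`Dsp P C b W`: a point reflection `z ↦ cb - z` of the facet `b` satisfies `cb - C = W`, and a translation `z ↦ z + t` of
the facet `b` to the facet `-b` satisfies `-t = W`.
`zeta C τ`: the centre of the tile `τ` (twice the centre of the polytope is replaced by `C`).
-/

open Set Metric
open scoped RealInnerProductSpace

namespace Pool.FX65

open Pool.FF24 Pool.FF56 Pool.FF57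

variable {E : Type*} [NormedAddCommGroup E] [InnerProductSpace ℝ E]

/-- displacement of the facet `b` -/
def Dsp (P : HPoly E) (C b W : E) : Prop :=
  (∀ cb : E, (∀ z ∈ P.fc b, cb - z ∈ P.fc b) → cb - C = W) ∧
    ∀ t : E, (∀ z : E, z ∈ P.fc b ↔ z + t ∈ P.fc (-b)) → -t = W

/-- the centre of the tile -/
noncomputable def zeta (C : E) (τ : ℝ × E) : E := τ.2 + (τ.1 / 2) • C

/-- `C / 2` is the centre of the union of the facets `a` and `-a` -/
def IsC (P : HPoly E) (a C : E) : Prop :=
  a ∈ P.N ∧ -a ∈ P.N ∧ (∀ z ∈ P.fc a, C - z ∈ P.fc (-a)) ∧ ∀ z ∈ P.fc (-a), C - z ∈ P.fc a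

end Pool.FX65
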