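import Pool.Agent.FX65.TileCov
import Pool.Agent.FF24.Gal
import Pool.Agent.FF65.Gen

set_option autoImplicit false

/-!
# FX65/Gal: good points in facets, galleries (state gluing; port of FF24/Gal, helper85)
-/

open Set Metric
open scoped RealInnerProductSpace

namespace Pool.FX65

open Pool.FF24 (HPoly)

variable {E : Type*} [NormedAddCommGroup E] [InnerProductSpace ℝ E] {S : Type*} {P : HPoly E}
  (g : SGlue P S)

/-- a facet contains the image of a good point -/
theorem exists_good_in_fc [FiniteDimensional ℝ E] (τ : g.Lab) {u : E} (hu : u ∈ P.N) :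
    ∃ p, p ∉ g.Bad ∧ crd τ.1 p ∈ P.fc u := by
  obtain ⟨AA, hAc, hAd, hAB⟩ := bad_cover g
  obtain ⟨z, hz, hz'⟩ := P.real u hu
  obtain ⟨W, hWo, hzW, hW⟩ := FF24.fc_near hu hz hz'
  have hzu : ⟪u, z⟫ = P.h u := (hz' u hu).2 rfl
  let f : E →ᵃ[ℝ] E := (τ.1.1 • (LinearMap.id - (innerₗ E u).smulRight u)).toAffineMap +
    AffineMap.const ℝ E (τ.1.1 • (P.h u • u) + τ.1.2.1)
  have hf : ∀ y, f y = X τ.1 (y - (⟪u, y⟫ - P.h u) • u) := by
    intro y
    have h1 : f y = τ.1.1 • (y - ⟪u, y⟫ • u) + (τ.1.1 • (P.h u • u) + τ.1.2.1) := rfl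
    rw [h1]
    unfold X
    rw [sub_smul, ← add_assoc, ← smul_add]
    congr 2
    abel
  have : Countable AA := hAc.to_subtype
  have hproper : ∀ A : AA, (A : AffineSubspace ℝ E).comap f ≠ ⊤ := by
    rintro ⟨A, hA⟩ htop
    have h1 : ∀ y, f y ∈ A := by
      intro y
      have : y ∈ A.comap f := by
        rw [htop]
        exact AffineSubspace.mem_top ℝ E y
      exact this
    have h2 : (Submodule.span ℝ {u})ᗮ ≤ A.direction := by
      intro v hv
      have hv' : ⟪u, v⟫ = 0 := Submodule.mem_orthogonal_singleton_iff_inner_right.1 hv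
      have h3 : f (z + v) -ᵥ f z ∈ A.direction := AffineSubspace.vsub_mem_direction (h1 _) (h1 _)
      have h4 : f (z + v) -ᵥ f z = τ.1.1 • v := by
        rw [hf, hf, inner_add_right, hzu, hv', vsub_eq_sub]
        unfold X
        rw [add_zero, sub_self, zero_smul, sub_zero, sub_zero, smul_add]
        abel
      rw [h4] at h3
      have h5 := A.direction.smul_mem τ.1.1 h3
      rwa [smul_smul, sign_sq g τ, one_smul] at h5
    have hu0 : u ≠ 0 := by
      intro h
      have := P.unit u hu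
      rw [h, norm_zero] at this
      exact zero_ne_one this
    have h6 := Submodule.finrank_mono h2
    have h7 := Submodule.finrank_add_finrank_orthogonal (Submodule.span ℝ {u})
    have h8 : Module.finrank ℝ (Submodule.span ℝ {u}) = 1 := finrank_span_singleton hu0
    have h9 := hAd A hA
    omega
  obtain ⟨y, hyW, hy⟩ := FF65.exists_off_countable (fun A : AA => (A : AffineSubspace ℝ E).comap f)
    hproper hWo ⟨z, hzW⟩
  refine ⟨f y, ?_, ?_⟩
  · intro hB
    obtain ⟨A, hA, hyA⟩ := hAB _ hB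
    exact hy ⟨A, hA⟩ hyA
  · rw [hf, crd_X (sign g τ)]
    exact hW y hyW

theorem exists_cross [FiniteDimensional ℝ E] (τ : g.Lab) {u : E} (hu : u ∈ P.N) :
    ∃ p, p ∉ g.Bad ∧ g.R p τ (nbL g hu τ) := by
  obtain ⟨p, hp, hpu⟩ := exists_good_in_fc g τ hu
  exact ⟨p, hp, hpu.1, Relation.ReflTransGen.single ⟨u, hu, hpu, rfl⟩⟩

theorem gallery_base [FiniteDimensional ℝ E] {τ : ℝ × E × S} (h : g.Orb τ) :
    Relation.ReflTransGen (fun a b : g.Lab => ∃ p, p ∉ g.Bad ∧ g.R p a b)
      ⟨(1, 0, g.s0), SGlue.Orb.base⟩ ⟨τ, h⟩ := by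
  induction h with
  | base => exact Relation.ReflTransGen.refl
  | step h hu ih => exact ih.tail (exists_cross g ⟨_, h⟩ hu)

theorem gallery [FiniteDimensional ℝ E] (τ τ' : g.Lab) :
    Relation.ReflTransGen (fun a b => ∃ p, p ∉ g.Bad ∧ g.R p a b) τ τ' := by
  have hs : ∀ a b : g.Lab, Relation.ReflTransGen (fun a b => ∃ p, p ∉ g.Bad ∧ g.R p a b) a b →
      Relation.ReflTransGen (fun a b => ∃ p, p ∉ g.Bad ∧ g.R p a b) b a := by
    intro a b h
    induction h with
    | refl => exact Relation.ReflTransGen.refl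
    | tail _ h2 ih =>
      obtain ⟨p, hp, hR⟩ := h2
      exact Relation.ReflTransGen.head ⟨p, hp, R_symm g hR⟩ ih
  exact (hs _ _ (gallery_base g τ.2)).trans (gallery_base g τ'.2)

end Pool.FX65
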