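import Pool.Agent.FX65.Stars
import Pool.Agent.FX65.Gal
import Pool.Agent.FF65.Over
import Pool.Agent.FF65.Gen
import Pool.Agent.FF56.Auto

set_option autoImplicit false

/-!
# FX65/Suff: SUFFICIENCY: a gluing with states which satisfies the ridge condition gives a facet-to-facet tiling
-/

open Set Filter Topology Metric
open scoped RealInnerProductSpace

namespace Pool.FX65

open Pool.FF24 (HPoly)

variable {E : Type*} [NormedAddCommGroup E] [InnerProductSpace ℝ E] {S : Type*} {P : HPoly E}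
  (g : SGlue P S)

/-- residual points are generic -/
theorem gen [FiniteDimensional ℝ E] : FF65.Gen g.Bad (residual E) := by
  obtain ⟨AA, h1, h2, h3⟩ := bad_cover g
  exact ⟨FF65.generic_off AA h1 h2 h3, fun w hw => FF65.generic_segment AA h1 h2 h3 hw,
    fun w w' hseg => FF65.generic_triangle AA h1 h2 h3 hseg,
    fun U hU hne => FF65.generic_frequently hU hne⟩

theorem reach [FiniteDimensional ℝ E] (τ σ : g.Lab) : FF65.Reach g.Bad g.R τ σ := gallery g τ σ

/-- the tile as an image -/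
theorem image_eq_K (τ : g.Lab) : X τ.1 '' P.body = g.K τ := by
  ext p
  constructor
  · rintro ⟨z, hz, rfl⟩
    show crd τ.1 (X τ.1 z) ∈ P.body
    rw [crd_X (sign g τ)]
    exact hz
  · intro hp
    exact ⟨crd τ.1 p, hp, X_crd (sign g τ) p⟩

/-- the neighbour has the same facet -/
theorem orb_facet {τ : ℝ × E × S} (hτ : g.Orb τ) {u : E} (hu : u ∈ P.N) :
    ¬ ((g.nb u τ).1 = τ.1 ∧ (g.nb u τ).2.1 = τ.2.1) ∧
      X (g.nb u τ) '' P.fc (g.star τ.2.2 u) = X τ '' P.fc u := by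
  have hs : τ.1 * τ.1 = 1 := sign_sq g ⟨τ, hτ⟩
  have hs0 : τ.1 ≠ 0 := by
    intro h
    rw [h, zero_mul] at hs
    exact zero_ne_one hs
  -- `X (nb u τ) (j u z) = X τ z`
  have key : ∀ z, X (g.nb u τ) (g.j τ.2.2 u z) = X τ z := by
    intro z
    unfold X SGlue.nb SGlue.j
    split_ifs with hI
    · simp only [smul_sub, neg_smul]
      abel
    · simp only [smul_add]
      abel
  refine ⟨?_, ?_⟩
  · rintro ⟨h1, h2⟩
    by_cases hI : u ∈ g.I τ.2.2
    · unfold SGlue.nb at h1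
      rw [if_pos hI] at h1
      have h3 : τ.1 = 0 := by
        have : -τ.1 = τ.1 := h1
        linarith
      exact hs0 h3
    · -- the translation vector is not zero
      unfold SGlue.nb at h2
      rw [if_neg hI] at h2
      have h3 : τ.1 • g.c τ.2.2 u = 0 := by
        have : τ.2.1 - τ.1 • g.c τ.2.2 u = τ.2.1 := h2
        simpa using this
      have hc : g.c τ.2.2 u = 0 := (smul_eq_zero.1 h3).resolve_left hs0
      obtain ⟨z, hz⟩ := fc_nonempty hu
      have h4 := g.tr τ.2.2 u hu hI z hz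
      rw [hc, add_zero] at h4
      obtain ⟨z₀, hz₀⟩ := P.int
      have h5 := hz₀ u hu
      have h6 := hz₀ (-u) (g.negN τ.2.2 u hu hI)
      rw [inner_neg_left] at h6
      have h7 : ⟪u, z⟫ = P.h u := hz.2
      have h8 : ⟪-u, z⟫ = P.h (-u) := h4.2
      rw [inner_neg_left] at h8
      linarith
  · ext p
    constructor
    · rintro ⟨z, hz, rfl⟩
      refine ⟨g.j (g.nx τ.2.2 u) (g.star τ.2.2 u) z, ?_, ?_⟩
      · have h1 := j_mem (s := g.nx τ.2.2 u) g (star_mem (s := τ.2.2) g hu) hz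
        rwa [star_star g hu] at h1
      · rw [← key]
        have h2 : g.j τ.2.2 u (g.j (g.nx τ.2.2 u) (g.star τ.2.2 u) z) = z := by
          have h3 := j_j (s := g.nx τ.2.2 u) g (star_mem (s := τ.2.2) g hu) z
          rwa [star_star g hu, nx_nx g hu] at h3
        rw [h2]
    · rintro ⟨z, hz, rfl⟩
      exact ⟨g.j τ.2.2 u z, j_mem g hu hz, key z⟩

variable [Finite S] [FiniteDimensional ℝ E]

theorem no_overlap (hC : g.Cyc) {τ σ : g.Lab} (h : τ ≠ σ) :
    Disjoint (interior (g.K τ)) (interior (g.K σ)) := by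
  rw [Set.disjoint_iff_inter_eq_empty]
  by_contra hne
  exact h (FF65.no_overlap (stars g hC) (gen g) (fun τ => (K_closure g τ).1)
    (fun p τ σ _ hp hR => R_interior g hp hR) (reach g τ σ) (Set.nonempty_iff_ne_empty.2 hne))

theorem cover (hC : g.Cyc) (x : E) : ∃ τ : g.Lab, x ∈ g.K τ := by
  have h1 := FF65.cover_dense (stars g hC) (gen g) (τ := ⟨(1, 0, g.s0), SGlue.Orb.base⟩)
    (K_closure g _).1
  have h2 : Dense (⋃ τ : g.Lab, g.K τ) :=
    h1.mono (iUnion₂_subset fun σ _ => subset_iUnion g.K σ)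
  have h3 := lab_cover g (fun τ σ h => no_overlap g hC h) h2
  have h4 : x ∈ ⋃ τ : g.Lab, g.K τ := h3 ▸ mem_univ x
  exact mem_iUnion.1 h4

/-- the tiles of the orbit -/
def tiles {P : HPoly E} (g : SGlue P S) : Set (ℝ × E) := {τ | ∃ s, g.Orb (τ.1, τ.2, s)}

/-- the tiles of the orbit are a facet-to-facet tiling -/
theorem suf_tiles (hC : g.Cyc) : FF56.IsFF P (tiles g) where
  sign := by
    rintro τ ⟨s, h⟩
    exact orb_sign g h
  cover := by
    intro x
    obtain ⟨τ, hτ⟩ := cover g hC x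
    refine ⟨(τ.1.1, τ.1.2.1), ⟨τ.1.2.2, τ.2⟩, crd τ.1 x, hτ, X_crd (sign g τ) x⟩
  disj := by
    rintro τ ⟨s, h⟩ σ ⟨s', h'⟩ hne
    have h1 := no_overlap g hC (τ := ⟨_, h⟩) (σ := ⟨_, h'⟩) (by
      intro h2
      have h3 : ((τ.1, τ.2, s) : ℝ × E × S) = (σ.1, σ.2, s') := congrArg Subtype.val h2
      apply hne
      have h4 : τ.1 = σ.1 := (Prod.mk.inj h3).1
      have h5 : τ.2 = σ.2 := (Prod.mk.inj (Prod.mk.inj h3).2).1
      exact Prod.ext h4 h5)
    rw [← image_eq_K, ← image_eq_K] at h1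
    exact h1
  facet := by
    rintro τ ⟨s, h⟩ u hu
    obtain ⟨h1, h2⟩ := orb_facet g h hu
    refine ⟨((g.nb u (τ.1, τ.2, s)).1, (g.nb u (τ.1, τ.2, s)).2.1),
      ⟨(g.nb u (τ.1, τ.2, s)).2.2, h.step hu⟩, ?_, g.star s u, star_mem g hu, h2⟩
    intro h3
    have h4 : (g.nb u (τ.1, τ.2, s)).1 = τ.1 := congrArg Prod.fst h3
    have h5 : (g.nb u (τ.1, τ.2, s)).2.1 = τ.2 := congrArg Prod.snd h3
    exact h1 ⟨h4, h5⟩

/-- SUFFICIENCY -/
theorem suf (hC : g.Cyc) : ∃ T : Set (ℝ × E), FF56.IsFF P T := ⟨_, suf_tiles g hC⟩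

end Pool.FX65
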