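import Pool.Agent.FX65.Basic
import Pool.Agent.FF38.ActTwo

set_option autoImplicit false

/-!
# FX65/ActTwo: one step around a ridge (state gluing; copy of FF38/ActTwo)
-/

open Set Filter Topology
open scoped RealInnerProductSpace

namespace Pool.FX65

open Pool.FF24 (HPoly)

variable {E : Type*} [NormedAddCommGroup E] [InnerProductSpace ℝ E] {S : Type*} {P : HPoly E}
  (g : SGlue P S)

theorem act_two {σ : S} {u v y : E} (hy : y ∈ P.body) (huv : u ≠ v) (h : P.act y = {u, v}) :
    ∃ (w : E) (a b : ℝ), P.act (g.j σ v y) = {g.star σ v, w} ∧ g.star σ v ≠ w ∧ 0 < a ∧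
      ((v ∈ g.I σ ∧ w = -(a • u + b • v)) ∨ (v ∉ g.I σ ∧ w = a • u + b • v)) := by
  classical
  have huA : u ∈ P.act y := by rw [h]; simp
  have hvA : v ∈ P.act y := by rw [h]; simp
  have hvN : v ∈ P.N := hvA.1
  have hli := FF24.act_pair hy huA hvA huv
  rw [LinearIndependent.pair_iff] at hli
  have hv1 : ‖v‖ = 1 := P.unit v hvN
  have hvv : ⟪v, v⟫ = 1 := by rw [real_inner_self_eq_norm_sq, hv1]; norm_num
  set u1 : E := u - ⟪u, v⟫ • v with hu1
  have hu10 : u1 ≠ 0 := by
    intro h0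
    have h1 := hli 1 (-⟪u, v⟫) (by rw [one_smul, neg_smul, ← sub_eq_add_neg]; exact h0)
    exact one_ne_zero h1.1
  have hD : 0 < ⟪u1, u1⟫ := real_inner_self_pos.2 hu10
  have hvu1 : ⟪v, u1⟫ = 0 := by
    rw [hu1, inner_sub_right, inner_smul_right, hvv, real_inner_comm]
    ring
  have huu1 : ⟪u, u1⟫ = ⟪u1, u1⟫ := by
    have h1 : u = u1 + ⟪u, v⟫ • v := by rw [hu1]; abel
    conv_lhs => rw [h1]
    rw [inner_add_left, inner_smul_left, hvu1]
    simp
  -- the sign
  obtain ⟨e, he, hj, hst⟩ : ∃ e : ℝ, ((v ∈ g.I σ ∧ e = -1) ∨ (v ∉ g.I σ ∧ e = 1)) ∧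
      (∀ z, g.j σ v z = e • z + g.c σ v) ∧ g.star σ v = -(e • v) := by
    by_cases hI : v ∈ g.I σ
    · refine ⟨-1, Or.inl ⟨hI, rfl⟩, fun z => ?_, ?_⟩
      · simp only [SGlue.j, if_pos hI]
        rw [neg_one_smul]
        abel
      · simp only [SGlue.star, if_pos hI]
        rw [neg_one_smul, neg_neg]
    · refine ⟨1, Or.inr ⟨hI, rfl⟩, fun z => ?_, ?_⟩
      · simp only [SGlue.j, if_neg hI]
        rw [one_smul]
      · simp only [SGlue.star, if_neg hI]
        rw [one_smul]
  have hee : e * e = 1 := by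
    rcases he with ⟨_, rfl⟩ | ⟨_, rfl⟩ <;> norm_num
  have he0 : e ≠ 0 := by
    intro h0
    rw [h0] at hee
    norm_num at hee
  have hyf : y ∈ P.fc v := ⟨hy, hvA.2⟩
  have hy' : g.j σ v y ∈ P.fc (g.star σ v) := j_mem g (s := σ) hvN hyf
  have hshift : ∀ (s : ℝ) (x : E), g.j σ v (y + s • x) = g.j σ v y + (s * e) • x := by
    intro s x
    rw [hj, hj, smul_add, smul_smul, mul_comm e s]
    abel
  have hA : ∀ w ∈ P.act (g.j σ v y), ∀ x, ⟪v, x⟫ = 0 → ⟪u, x⟫ ≤ 0 → e * ⟪w, x⟫ ≤ 0 := by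
    intro w hw x hvx hux
    obtain ⟨s, hs, hsb⟩ := FF38.tangent (x := x) hy (by
      intro w' hw'
      rw [h] at hw'
      rcases hw' with rfl | hw'
      · exact hux
      · rw [mem_singleton_iff.1 hw']
        exact hvx.le)
    have h1 : y + s • x ∈ P.fc v := ⟨hsb, by
      rw [inner_add_right, inner_smul_right, hvx, hvA.2]; ring⟩
    have h2 := (j_mem g (s := σ) hvN h1).1 w hw.1
    rw [hshift, inner_add_right, inner_smul_right, hw.2] at h2
    have h3 : s * (e * ⟪w, x⟫) ≤ 0 := by linarith [mul_assoc s e ⟪w, x⟫]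
    by_contra hcon
    push Not at hcon
    have := mul_pos hs hcon
    linarith
  have hB : ∀ x, ⟪v, x⟫ = 0 → (∀ w ∈ P.act (g.j σ v y), e * ⟪w, x⟫ ≤ 0) → ⟪u, x⟫ ≤ 0 := by
    intro x hvx hx
    obtain ⟨s, hs, hsb⟩ := FF38.tangent (x := e • x) hy'.1 (by
      intro w hw
      rw [inner_smul_right]
      exact hx w hw)
    rw [smul_smul, ← hshift] at hsb
    have h1 : g.j σ v (y + s • x) ∈ P.fc (g.star σ v) := by
      refine ⟨hsb, ?_⟩
      rw [hshift, inner_add_right, inner_smul_right, hy'.2, hst, inner_neg_left, inner_smul_left,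
        hvx]
      simp
    have h2 := j_mem g (s := g.nx σ v) (star_mem g (s := σ) hvN) h1
    rw [j_j g hvN] at h2
    have h3 := h2.1 u huA.1
    rw [inner_add_right, inner_smul_right, huA.2] at h3
    by_contra hcon
    push Not at hcon
    have := mul_pos hs hcon
    linarith
  have hspan : ∀ w ∈ P.act (g.j σ v y), ∃ a b : ℝ, w = a • u + b • v ∧ 0 ≤ e * a := by
    intro w hw
    obtain ⟨a, b, hab⟩ := FF38.in_span (w := w) hv1 hD (by
      intro x hux hvx
      have h1 := hA w hw x hvx hux.le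
      have h2 := hA w hw (-x) (by rw [inner_neg_right, hvx, neg_zero])
        (by rw [inner_neg_right, hux, neg_zero])
      rw [inner_neg_right] at h2
      have h3 : e * ⟪w, x⟫ = 0 := by linarith [mul_neg e ⟪w, x⟫]
      exact (mul_eq_zero.1 h3).resolve_left he0)
    refine ⟨a, b, hab, ?_⟩
    have h1 := hA w hw (-u1) (by rw [inner_neg_right, hvu1, neg_zero])
      (by rw [inner_neg_right, huu1]; linarith)
    rw [inner_neg_right, hab, inner_add_left, inner_smul_left, inner_smul_left, hvu1, huu1] at h1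
    simp only [conj_trivial, mul_zero, add_zero] at h1
    have h2 : 0 ≤ e * a * ⟪u1, u1⟫ := by
      have : e * -(a * ⟪u1, u1⟫) = -(e * a * ⟪u1, u1⟫) := by ring
      linarith
    by_contra hcon
    push Not at hcon
    have := mul_neg_of_neg_of_pos hcon hD
    linarith
  obtain ⟨w, hw, a, b, hab, ha⟩ : ∃ w ∈ P.act (g.j σ v y), ∃ a b : ℝ,
      w = a • u + b • v ∧ 0 < e * a := by
    by_contra hcon
    push Not at hcon
    have h1 := hB u1 hvu1 (by
      intro w hw
      obtain ⟨a, b, hab, ha⟩ := hspan w hw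
      have h2 := hcon w hw a b hab
      have h3 : e * a = 0 := le_antisymm h2 ha
      rw [hab, inner_add_left, inner_smul_left, inner_smul_left, hvu1, huu1]
      simp only [conj_trivial, mul_zero, add_zero]
      rw [← mul_assoc, h3, zero_mul])
    rw [huu1] at h1
    linarith
  have ha0 : a ≠ 0 := by
    intro h0
    rw [h0, mul_zero] at ha
    exact lt_irrefl _ ha
  have hne : g.star σ v ≠ w := by
    intro h0
    rw [hst, hab] at h0
    have h1 : a • u + (b + e) • v = 0 := by
      rw [add_smul, ← add_assoc, ← h0]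
      abel
    exact ha0 (hli _ _ h1).1
  have hsA : g.star σ v ∈ P.act (g.j σ v y) := ⟨star_mem g (s := σ) hvN, hy'.2⟩
  refine ⟨w, e * a, e * b, ?_, hne, ha, ?_⟩
  · refine Set.Subset.antisymm ?_ ?_
    · intro t ht
      by_contra hcon
      rw [mem_insert_iff, mem_singleton_iff, not_or] at hcon
      have h3 := FF24.act_three hy'.1 hsA hw ht hne (Ne.symm hcon.1) (Ne.symm hcon.2)
      obtain ⟨a', b', hab', -⟩ := hspan t ht
      rw [Fintype.linearIndependent_iff] at h3
      have h4 := h3 ![a * b' - a' * b, a' * (-e), -(a * (-e))] (by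
        rw [Fin.sum_univ_three]
        simp only [Matrix.cons_val_zero, Matrix.cons_val_one, Matrix.cons_val_two,
          Matrix.head_cons, Matrix.tail_cons]
        rw [hst, hab, hab']
        module) 2
      simp only [Matrix.cons_val_two, Matrix.head_cons, Matrix.tail_cons] at h4
      have h5 : a * e = 0 := by linarith
      rcases mul_eq_zero.1 h5 with h6 | h6
      · exact ha0 h6
      · exact he0 h6
    · intro t ht
      rcases ht with rfl | ht
      · exact hsA
      · rw [mem_singleton_iff.1 ht]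
        exact hw
  · rcases he with ⟨hI, rfl⟩ | ⟨hI, rfl⟩
    · refine Or.inl ⟨hI, ?_⟩
      rw [hab]
      module
    · refine Or.inr ⟨hI, ?_⟩
      rw [hab]
      module

variable {g}

/-- the next active set depends only on the active set -/
theorem act_j_congr {σ : S} {y y' v : E} (hy : y ∈ P.body) (hy' : y' ∈ P.body)
    (h : P.act y = P.act y') (hv : v ∈ P.act y) : P.act (g.j σ v y) = P.act (g.j σ v y') := by
  have key : ∀ z z' : E, z ∈ P.body → z' ∈ P.body → P.act z = P.act z' → v ∈ P.act z →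
      P.act (g.j σ v z) ⊆ P.act (g.j σ v z') := by
    intro z z' hz hz' hzz hvz w hw
    have hvz' : v ∈ P.act z' := hzz ▸ hvz
    obtain ⟨s, hs, hsb⟩ := FF38.tangent (x := z - z') hz (by
      intro w' hw'
      have h1 : w' ∈ P.act z' := hzz ▸ hw'
      rw [inner_sub_right, hw'.2, h1.2, sub_self])
    have h1 : z + s • (z - z') ∈ P.fc v := ⟨hsb, by
      rw [inner_add_right, inner_smul_right, inner_sub_right, hvz.2, hvz'.2]; ring⟩
    have h2 := (j_mem g (s := σ) hvz.1 h1).1 w hw.1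
    have h3 : g.j σ v (z + s • (z - z')) = g.j σ v z + s • (g.j σ v z - g.j σ v z') := by
      unfold SGlue.j
      split_ifs
      · module
      · module
    rw [h3, inner_add_right, inner_smul_right, inner_sub_right, hw.2] at h2
    have h4 := (j_mem g (s := σ) hvz.1 (⟨hz', hvz'.2⟩ : z' ∈ P.fc v)).1 w hw.1
    refine ⟨hw.1, le_antisymm h4 ?_⟩
    by_contra hcon
    push Not at hcon
    have := mul_pos hs (sub_pos.2 hcon)
    linarith
  exact Set.Subset.antisymm (key y y' hy hy' h hv) (key y' y hy' hy h.symm (h ▸ hv))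

/-- the next flag is determined by the flag -/
theorem Cross_unique {σ : S} {a b b' : E × E} (h : g.Cross σ a b) (h' : g.Cross σ a b') :
    b = b' := by
  obtain ⟨-, h2, h3, y, hy, h4, h5⟩ := h
  obtain ⟨-, h2', h3', y', hy', h4', h5'⟩ := h'
  have hv : a.2 ∈ P.act y := by
    rw [h4]
    exact Set.mem_insert_of_mem _ (Set.mem_singleton _)
  have e := act_j_congr (g := g) (σ := σ) hy hy' (h4.trans h4'.symm) hv
  rw [h5, h5'] at e
  have e1 : b.1 = b'.1 := h3.trans h3'.symm
  have h6 : b.2 ∈ ({b'.1, b'.2} : Set E) := by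
    rw [← e]
    exact Set.mem_insert_of_mem _ (Set.mem_singleton _)
  rcases h6 with h6 | h6
  · exact absurd (e1.trans h6.symm) h2
  · exact Prod.ext e1 h6

/-- the next flag as a combination of the flag -/
theorem Cross_comb {σ : S} {a b : E × E} (h : g.Cross σ a b) : ∃ x y : ℝ, 0 < x ∧
    ((a.2 ∈ g.I σ ∧ b.2 = -(x • a.1 + y • a.2)) ∨ (a.2 ∉ g.I σ ∧ b.2 = x • a.1 + y • a.2)) := by
  obtain ⟨h1, h2, h3, y, hy, h4, h5⟩ := h
  obtain ⟨w, p, q, hw, hne, hp, hc⟩ := act_two g (σ := σ) hy h1 h4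
  have e : w = b.2 := by
    rw [hw, ← h3] at h5
    have h6 : w ∈ ({b.1, b.2} : Set E) := by
      rw [← h5]
      exact Set.mem_insert_of_mem _ (Set.mem_singleton _)
    rcases h6 with h6 | h6
    · exact absurd (h3.symm.trans h6.symm) hne
    · exact h6
  subst e
  exact ⟨p, q, hp, hc⟩

/-- every flag has a next flag -/
theorem exists_Cross {σ : S} {u v y : E} (hy : y ∈ P.body) (huv : u ≠ v)
    (h : P.act y = {u, v}) : ∃ w : E, g.Cross σ (u, v) (g.star σ v, w) ∧
      P.act (g.j σ v y) = {g.star σ v, w} := by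
  obtain ⟨w, p, q, hw, hne, hp, hc⟩ := act_two g (σ := σ) hy huv h
  exact ⟨w, ⟨huv, hne, rfl, y, hy, h, hw⟩, hw⟩

/-- crossing back -/
theorem Cross_back {σ : S} {a b : E × E} (h : g.Cross σ a b) :
    g.Cross (g.nx σ a.2) (b.2, b.1) (a.2, a.1) := by
  obtain ⟨h1, h2, h3, y, hy, h4, h5⟩ := h
  have hv : a.2 ∈ P.act y := by
    rw [h4]
    exact Set.mem_insert_of_mem _ (Set.mem_singleton _)
  refine ⟨h2.symm, h1.symm, ?_, g.j σ a.2 y, (j_mem g (s := σ) hv.1 ⟨hy, hv.2⟩).1, ?_, ?_⟩
  · change a.2 = g.star (g.nx σ a.2) b.1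
    rw [h3, star_star g hv.1]
  · rw [h5]
    exact Set.pair_comm _ _
  · change P.act (g.j (g.nx σ a.2) b.1 (g.j σ a.2 y)) = {a.2, a.1}
    rw [h3, j_j g hv.1, h4]
    exact Set.pair_comm _ _

end Pool.FX65
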