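import Pool.Agent.FX65.Defs

set_option autoImplicit false

/-!
# FX65/Basic: elementary facts on labels, neighbours, gluing maps (state gluing; copy of FF24/Basic)
-/

open Set Metric
open scoped RealInnerProductSpace

namespace Pool.FX65

open Pool.FF24 (HPoly)

variable {E : Type*} [NormedAddCommGroup E] [InnerProductSpace ℝ E] {S : Type*} {P : HPoly E}
  (g : SGlue P S)

theorem Orb.sign {τ : ℝ × E × S} (h : g.Orb τ) : τ.1 = 1 ∨ τ.1 = -1 := by
  induction h with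
  | base => exact Or.inl rfl
  | @step τ u _ _ ih =>
    unfold SGlue.nb
    split_ifs
    · rcases ih with ih | ih
      · exact Or.inr (by simp [ih])
      · exact Or.inl (by simp [ih])
    · exact ih

theorem sign (τ : g.Lab) : τ.1.1 = 1 ∨ τ.1.1 = -1 := Orb.sign g τ.2

theorem X_crd {τ : ℝ × E × S} (h : τ.1 = 1 ∨ τ.1 = -1) (p : E) : X τ (crd τ p) = p := by
  unfold X crd
  rcases h with h | h <;> rw [h] <;> simp

theorem crd_X {τ : ℝ × E × S} (h : τ.1 = 1 ∨ τ.1 = -1) (z : E) : crd τ (X τ z) = z := by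
  unfold X crd
  rcases h with h | h <;> rw [h] <;> simp

theorem fc_nonempty {u : E} (hu : u ∈ P.N) : (P.fc u).Nonempty := by
  obtain ⟨z, hz1, hz2⟩ := P.real u hu
  exact ⟨z, hz1, (hz2 u hu).2 rfl⟩

/-- a translation which maps a nonempty bounded set into itself is trivial -/
theorem trans_zero {A : Set E} (hA : A.Nonempty) {r : ℝ} (hr : ∀ z ∈ A, ‖z‖ ≤ r) {w : E}
    (step : ∀ y ∈ A, y + w ∈ A) : w = 0 := by
  obtain ⟨z, hz⟩ := hA
  have hn : ∀ n : ℕ, z + (n : ℝ) • w ∈ A := by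
    intro n
    induction n with
    | zero => simpa using hz
    | succ n ih =>
      have h1 := step _ ih
      rw [add_assoc] at h1
      have e : ((n + 1 : ℕ) : ℝ) • w = (n : ℝ) • w + w := by
        push_cast
        rw [add_smul, one_smul]
      rw [e]
      exact h1
  have hb : ∀ n : ℕ, (n : ℝ) * ‖w‖ ≤ r + ‖z‖ := by
    intro n
    have h1 := hr _ (hn n)
    have h2 : (n : ℝ) • w = (z + (n : ℝ) • w) - z := by abel
    calc (n : ℝ) * ‖w‖ = ‖(n : ℝ) • w‖ := by rw [norm_smul, Real.norm_natCast]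
      _ = ‖(z + (n : ℝ) • w) - z‖ := by rw [← h2]
      _ ≤ ‖z + (n : ℝ) • w‖ + ‖z‖ := norm_sub_le _ _
      _ ≤ r + ‖z‖ := by linarith
  by_contra hne
  have hpos : 0 < ‖w‖ := norm_pos_iff.2 hne
  obtain ⟨n, hn'⟩ := exists_nat_gt ((r + ‖z‖) / ‖w‖)
  rw [div_lt_iff₀ hpos] at hn'
  exact absurd (hb n) (not_le.2 hn')

theorem c_neg {s : S} {u : E} (hu : u ∈ P.N) (hI : u ∉ g.I s) :
    g.c (g.nx s u) (-u) = -g.c s u := by
  have hu' := g.negN s u hu hI
  have hI' := (g.backT s u hu hI).1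
  obtain ⟨r, hr⟩ := P.bdd
  have hw0 : g.c s u + g.c (g.nx s u) (-u) = 0 := by
    refine trans_zero (fc_nonempty hu) (r := r) (fun z hz => hr z hz.1) ?_
    intro y hy
    have h1 := g.tr _ (-u) hu' hI' _ (g.tr s u hu hI y hy)
    rw [neg_neg, add_assoc] at h1
    exact h1
  exact (neg_eq_of_add_eq_zero_right hw0).symm

theorem c_inv {s : S} {u : E} (hu : u ∈ P.N) (hI : u ∈ g.I s) :
    g.c (g.nx s u) u = g.c s u := by
  have hI' := (g.backI s u hu hI).1
  obtain ⟨r, hr⟩ := P.bdd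
  have hw0 : g.c (g.nx s u) u - g.c s u = 0 := by
    refine trans_zero (fc_nonempty hu) (r := r) (fun z hz => hr z hz.1) ?_
    intro y hy
    have h1 := g.inv _ u hu hI' _ (g.inv s u hu hI y hy)
    have e : g.c (g.nx s u) u - (g.c s u - y) = y + (g.c (g.nx s u) u - g.c s u) := by abel
    rw [e] at h1
    exact h1
  exact sub_eq_zero.1 hw0

theorem star_mem {s : S} {u : E} (hu : u ∈ P.N) : g.star s u ∈ P.N := by
  unfold SGlue.star
  split_ifs with h
  · exact hu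
  · exact g.negN s u hu h

theorem nx_nx {s : S} {u : E} (hu : u ∈ P.N) : g.nx (g.nx s u) (g.star s u) = s := by
  by_cases h : u ∈ g.I s
  · have e : g.star s u = u := if_pos h
    rw [e]
    exact (g.backI s u hu h).2
  · have e : g.star s u = -u := if_neg h
    rw [e]
    exact (g.backT s u hu h).2

theorem star_star {s : S} {u : E} (hu : u ∈ P.N) : g.star (g.nx s u) (g.star s u) = u := by
  by_cases h : u ∈ g.I s
  · have e : g.star s u = u := if_pos h
    have e' : g.star (g.nx s u) u = u := if_pos (g.backI s u hu h).1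
    rw [e, e']
  · have e : g.star s u = -u := if_neg h
    have e' : g.star (g.nx s u) (-u) = -(-u) := if_neg (g.backT s u hu h).1
    rw [e, e', neg_neg]

theorem star_I {s : S} {u : E} (hu : u ∈ P.N) :
    g.star s u ∈ g.I (g.nx s u) ↔ u ∈ g.I s := by
  by_cases h : u ∈ g.I s
  · have e : g.star s u = u := if_pos h
    rw [e]
    exact ⟨fun _ => h, fun _ => (g.backI s u hu h).1⟩
  · have e : g.star s u = -u := if_neg h
    rw [e]
    exact ⟨fun h' => absurd h' (g.backT s u hu h).1, fun h' => absurd h' h⟩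

theorem j_mem {s : S} {u z : E} (hu : u ∈ P.N) (hz : z ∈ P.fc u) :
    g.j s u z ∈ P.fc (g.star s u) := by
  by_cases h : u ∈ g.I s
  · have e : g.star s u = u := if_pos h
    have e' : g.j s u z = g.c s u - z := if_pos h
    rw [e, e']
    exact g.inv s u hu h z hz
  · have e : g.star s u = -u := if_neg h
    have e' : g.j s u z = z + g.c s u := if_neg h
    rw [e, e']
    exact g.tr s u hu h z hz

theorem j_j {s : S} {u : E} (hu : u ∈ P.N) (z : E) :
    g.j (g.nx s u) (g.star s u) (g.j s u z) = z := by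
  by_cases h : u ∈ g.I s
  · have e : g.star s u = u := if_pos h
    have e' : ∀ y, g.j s u y = g.c s u - y := fun y => if_pos h
    have e'' : ∀ y, g.j (g.nx s u) u y = g.c (g.nx s u) u - y :=
      fun y => if_pos (g.backI s u hu h).1
    rw [e, e', e'', c_inv g hu h, sub_sub_cancel]
  · have e : g.star s u = -u := if_neg h
    have e' : ∀ y, g.j s u y = y + g.c s u := fun y => if_neg h
    have e'' : ∀ y, g.j (g.nx s u) (-u) y = y + g.c (g.nx s u) (-u) :=
      fun y => if_neg (g.backT s u hu h).1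
    rw [e, e', e'', c_neg g hu h, add_neg_cancel_right]

theorem nb_state (u : E) (τ : ℝ × E × S) : (g.nb u τ).2.2 = g.nx τ.2.2 u := by
  unfold SGlue.nb
  split_ifs <;> rfl

theorem nb_nb {u : E} (hu : u ∈ P.N) (τ : ℝ × E × S) :
    g.nb (g.star τ.2.2 u) (g.nb u τ) = τ := by
  by_cases h : u ∈ g.I τ.2.2
  · have e : g.star τ.2.2 u = u := if_pos h
    have e' : g.nb u τ = (-τ.1, τ.2.1 + τ.1 • g.c τ.2.2 u, g.nx τ.2.2 u) := if_pos h
    have hb := g.backI _ u hu h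
    have e'' : g.nb u (-τ.1, τ.2.1 + τ.1 • g.c τ.2.2 u, g.nx τ.2.2 u) =
        (- -τ.1, (τ.2.1 + τ.1 • g.c τ.2.2 u) + (-τ.1) • g.c (g.nx τ.2.2 u) u,
          g.nx (g.nx τ.2.2 u) u) := if_pos hb.1
    rw [e, e', e'', hb.2, c_inv g hu h, neg_smul, add_neg_cancel_right, neg_neg]
  · have e : g.star τ.2.2 u = -u := if_neg h
    have e' : g.nb u τ = (τ.1, τ.2.1 - τ.1 • g.c τ.2.2 u, g.nx τ.2.2 u) := if_neg h
    have hb := g.backT _ u hu h
    have e'' : g.nb (-u) (τ.1, τ.2.1 - τ.1 • g.c τ.2.2 u, g.nx τ.2.2 u) =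
        (τ.1, (τ.2.1 - τ.1 • g.c τ.2.2 u) - τ.1 • g.c (g.nx τ.2.2 u) (-u),
          g.nx (g.nx τ.2.2 u) (-u)) := if_neg hb.1
    rw [e, e', e'', hb.2, c_neg g hu h, smul_neg, sub_neg_eq_add, sub_add_cancel]

theorem crd_nb {τ : ℝ × E × S} (h : τ.1 = 1 ∨ τ.1 = -1) (u p : E) :
    crd (g.nb u τ) p = g.j τ.2.2 u (crd τ p) := by
  have hsq : τ.1 • (τ.1 • g.c τ.2.2 u) = g.c τ.2.2 u := by
    rcases h with h | h <;> rw [h] <;> simp
  by_cases hI : u ∈ g.I τ.2.2
  · have e : g.nb u τ = (-τ.1, τ.2.1 + τ.1 • g.c τ.2.2 u, g.nx τ.2.2 u) := if_pos hI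
    have e' : ∀ y, g.j τ.2.2 u y = g.c τ.2.2 u - y := fun y => if_pos hI
    rw [e, e']
    change (-τ.1) • (p - (τ.2.1 + τ.1 • g.c τ.2.2 u)) = g.c τ.2.2 u - τ.1 • (p - τ.2.1)
    rw [neg_smul, ← sub_sub, smul_sub τ.1 (p - τ.2.1), hsq]
    abel
  · have e : g.nb u τ = (τ.1, τ.2.1 - τ.1 • g.c τ.2.2 u, g.nx τ.2.2 u) := if_neg hI
    have e' : ∀ y, g.j τ.2.2 u y = y + g.c τ.2.2 u := fun y => if_neg hI
    rw [e, e']
    change τ.1 • (p - (τ.2.1 - τ.1 • g.c τ.2.2 u)) = τ.1 • (p - τ.2.1) + g.c τ.2.2 u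
    have e2 : p - (τ.2.1 - τ.1 • g.c τ.2.2 u) = (p - τ.2.1) + τ.1 • g.c τ.2.2 u := by abel
    rw [e2, smul_add, hsq]

/-- the neighbour as a label -/
noncomputable def nbL {u : E} (hu : u ∈ P.N) (τ : g.Lab) : g.Lab := ⟨g.nb u τ.1, τ.2.step hu⟩

theorem St_fc {p : E} {τ σ : g.Lab} {u : E} (hu : u ∈ P.N) (h : crd τ.1 p ∈ P.fc u)
    (hσ : σ.1 = g.nb u τ.1) : crd σ.1 p ∈ P.fc (g.star τ.1.2.2 u) := by
  rw [hσ, crd_nb g (sign g τ)]
  exact j_mem g hu h

theorem St_symm {p : E} {τ σ : g.Lab} (h : g.St p τ σ) : g.St p σ τ := by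
  obtain ⟨u, hu, hc, hσ⟩ := h
  refine ⟨g.star τ.1.2.2 u, star_mem g hu, St_fc g hu hc hσ, ?_⟩
  rw [hσ, nb_nb g hu]

theorem St_mem {p : E} {τ σ : g.Lab} (h : g.St p τ σ) : p ∈ g.K σ := by
  obtain ⟨u, hu, hc, hσ⟩ := h
  exact (St_fc g hu hc hσ).1

theorem R_refl {p : E} {τ : g.Lab} (h : p ∈ g.K τ) : g.R p τ τ := ⟨h, Relation.ReflTransGen.refl⟩

theorem R_mem {p : E} {τ σ : g.Lab} (h : g.R p τ σ) : p ∈ g.K σ := by
  rcases h.2.cases_tail with h' | ⟨υ, -, h'⟩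
  · rw [h']
    exact h.1
  · exact St_mem g h'

theorem R_symm {p : E} {τ σ : g.Lab} (h : g.R p τ σ) : g.R p σ τ := by
  refine ⟨R_mem g h, ?_⟩
  have h2 := h.2
  induction h2 with
  | refl => exact Relation.ReflTransGen.refl
  | tail h1 h2 ih => exact (Relation.ReflTransGen.single (St_symm g h2)).trans (ih ⟨h.1, h1⟩)

theorem R_trans {p : E} {τ σ υ : g.Lab} (h : g.R p τ σ) (h' : g.R p σ υ) : g.R p τ υ :=
  ⟨h.1, h.2.trans h'.2⟩

theorem R_step {p : E} {τ σ υ : g.Lab} (h : g.R p τ σ) (h' : g.St p σ υ) : g.R p τ υ :=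
  ⟨h.1, h.2.tail h'⟩

theorem lab_countable : Countable g.Lab := by
  have hf : ∀ τ : ℝ × E × S, g.Orb τ → ∃ l : List {u : E // u ∈ P.N},
      l.foldr (fun u σ => g.nb u.1 σ) ((1, 0, g.s0) : ℝ × E × S) = τ := by
    intro τ h
    induction h with
    | base => exact ⟨[], rfl⟩
    | @step τ u _ hu ih =>
      obtain ⟨l, hl⟩ := ih
      exact ⟨⟨u, hu⟩ :: l, by rw [List.foldr_cons, hl]⟩
  have : Finite {u : E // u ∈ P.N} := P.N.finite_toSet
  have hc : (Set.range fun l : List {u : E // u ∈ P.N} =>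
      l.foldr (fun u σ => g.nb u.1 σ) ((1, 0, g.s0) : ℝ × E × S)).Countable :=
    Set.countable_range _
  have hs : {τ : ℝ × E × S | g.Orb τ} ⊆ Set.range fun l : List {u : E // u ∈ P.N} =>
      l.foldr (fun u σ => g.nb u.1 σ) ((1, 0, g.s0) : ℝ × E × S) := by
    intro τ hτ
    exact hf τ hτ
  exact (hc.mono hs).to_subtype

end Pool.FX65
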