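import Mathlib

set_option autoImplicit false

/-!
# FX65/Bound: small moduli for systems of short linear relations

`reduce_pow`: phases `x u` modulo `2 q` can be replaced by phases modulo `2 ^ (m + 1)`, `2 ^ m ≤ 3 ^ N`, which satisfy the
same short relations. Lift the phases to rational numbers `Y`; take a rational solution of the same system (with the same
right sides) with minimal support `J`. The rows, restricted to `J`, span `ℚ^J` (otherwise one coordinate can be removed).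
Cramer's rule for `J` independent rows: the denominators divide `2 D`, `|D| ≤ 3 ^ |J|` (product of the `ℓ¹`-norms of the
rows). At last the phases are reduced modulo the `2`-part of `2 D`.
-/

namespace Pool.FX65

open Finset

/-- the determinant is at most the product of the `ℓ¹`-norms of the rows -/
theorem det_le_prod {n : Type*} [Fintype n] [DecidableEq n] (A : Matrix n n ℤ) :
    |A.det| ≤ ∏ i, ∑ j, |A i j| := by
  classical
  have h0 : ∏ i, ∑ j, |A i j| = ∑ f : n → n, ∏ i, |A i (f i)| := by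
    rw [Finset.prod_univ_sum]
    simp
  rw [h0, ← Matrix.det_transpose, Matrix.det_apply]
  calc |∑ σ : Equiv.Perm n, Equiv.Perm.sign σ • ∏ i, A.transpose (σ i) i|
      ≤ ∑ σ : Equiv.Perm n, |Equiv.Perm.sign σ • ∏ i, A.transpose (σ i) i| :=
        Finset.abs_sum_le_sum_abs _ _
    _ = ∑ σ : Equiv.Perm n, ∏ i, |A i (σ i)| := by
        refine Finset.sum_congr rfl fun σ _ => ?_
        rw [Units.smul_def, smul_eq_mul, abs_mul, ← Finset.abs_prod]
        have : |((Equiv.Perm.sign σ : ℤˣ) : ℤ)| = 1 := by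
          rcases Int.units_eq_one_or (Equiv.Perm.sign σ) with h | h <;> rw [h] <;> simp
        rw [this, one_mul]
        rfl
    _ ≤ ∑ f : n → n, ∏ i, |A i (f i)| := by
        rw [← Finset.sum_image (s := (Finset.univ : Finset (Equiv.Perm n)))
          (g := fun σ => (σ : n → n)) (f := fun f : n → n => ∏ i, |A i (f i)|)
          (fun σ _ τ _ h => Equiv.coe_fn_injective h)]
        exact Finset.sum_le_sum_of_subset_of_nonneg (Finset.subset_univ _)
          fun f _ _ => Finset.prod_nonneg fun i _ => abs_nonneg _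

/-- a solution with minimal support: the rows restricted to the support span -/
theorem min_sol {ι : Type*} [Fintype ι] [DecidableEq ι] (R : Set ((ι → ℤ) × ℤ)) (Y : ι → ℚ)
    (hY : ∀ r ∈ R, ∑ i, (r.1 i : ℚ) * Y i = (r.2 : ℚ) / 2) :
    ∃ Y' : ι → ℚ, (∀ r ∈ R, ∑ i, (r.1 i : ℚ) * Y' i = (r.2 : ℚ) / 2) ∧
      Submodule.span ℚ (Set.range fun r : R => fun j : {j // Y' j ≠ 0} => ((r.1.1 j.1 : ℤ) : ℚ)) = ⊤ := by
  classical
  have hex : ∃ n, ∃ Y' : ι → ℚ, (∀ r ∈ R, ∑ i, (r.1 i : ℚ) * Y' i = (r.2 : ℚ) / 2) ∧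
      (univ.filter fun i => Y' i ≠ 0).card = n := ⟨_, Y, hY, rfl⟩
  obtain ⟨Y', h1, h2⟩ := Nat.find_spec hex
  refine ⟨Y', h1, ?_⟩
  by_contra hne
  obtain ⟨f, hf, hle⟩ := Submodule.exists_le_ker_of_lt_top _ (lt_top_iff_ne_top.2 hne)
  let z : ι → ℚ := fun i => if h : Y' i ≠ 0 then f (Pi.single ⟨i, h⟩ 1) else 0
  have hz0 : ∃ j : {j // Y' j ≠ 0}, f (Pi.single j 1) ≠ 0 := by
    by_contra hc
    push Not at hc
    exact hf (LinearMap.pi_ext' fun j => LinearMap.ext_ring (hc j))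
  have hsum : ∀ w : ι → ℚ, ∑ i, w i * z i = f (fun j => w j.1) := by
    intro w
    have e1 : f (fun j : {j // Y' j ≠ 0} => w j.1) = ∑ j : {j // Y' j ≠ 0}, w j.1 * f (Pi.single j 1) := by
      have e2 : (fun j : {j // Y' j ≠ 0} => w j.1) =
          ∑ j : {j // Y' j ≠ 0}, (w j.1) • (Pi.single j (1 : ℚ) : {j // Y' j ≠ 0} → ℚ) := by
        funext k
        rw [Finset.sum_apply, Finset.sum_eq_single k]
        · simp
        · intro b _ hb
          simp [Pi.single_eq_of_ne (Ne.symm hb)]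
        · intro h
          exact absurd (mem_univ k) h
      conv_lhs => rw [e2]
      rw [map_sum]
      refine Finset.sum_congr rfl fun j _ => ?_
      rw [map_smul, smul_eq_mul]
    rw [e1]
    have e3 : ∑ i, w i * z i = ∑ i ∈ univ.filter (fun i => Y' i ≠ 0), w i * z i := by
      symm
      refine Finset.sum_subset (filter_subset _ _) ?_
      intro i _ hi
      have h3 : ¬ Y' i ≠ 0 := fun h4 => hi (mem_filter.2 ⟨mem_univ _, h4⟩)
      have h5 : z i = 0 := dif_neg h3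
      rw [h5, mul_zero]
    rw [e3, ← Finset.sum_subtype_of_mem (p := fun i => Y' i ≠ 0) (f := fun i => w i * z i)
      (s := univ.filter (fun i => Y' i ≠ 0)) (fun i hi => (mem_filter.1 hi).2)]
    have e4 : (univ.filter (fun i => Y' i ≠ 0)).subtype (fun i => Y' i ≠ 0) = univ := by
      ext j
      simp [j.2]
    rw [e4]
    refine Finset.sum_congr rfl fun j _ => ?_
    have h5 : z j.1 = f (Pi.single ⟨j.1, j.2⟩ 1) := dif_pos j.2
    rw [h5]
  have hzR : ∀ r ∈ R, ∑ i, (r.1 i : ℚ) * z i = 0 := by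
    intro r hr
    rw [hsum]
    exact hle (Submodule.subset_span ⟨⟨r, hr⟩, rfl⟩)
  obtain ⟨j, hj⟩ := hz0
  have hzj : z j.1 ≠ 0 := by
    have h5 : z j.1 = f (Pi.single ⟨j.1, j.2⟩ 1) := dif_pos j.2
    rw [h5]
    exact hj
  let Y'' : ι → ℚ := fun i => Y' i - Y' j.1 / z j.1 * z i
  have h3 : ∀ r ∈ R, ∑ i, (r.1 i : ℚ) * Y'' i = (r.2 : ℚ) / 2 := by
    intro r hr
    have e : ∑ i, (r.1 i : ℚ) * Y'' i = ∑ i, (r.1 i : ℚ) * Y' i -
        Y' j.1 / z j.1 * ∑ i, (r.1 i : ℚ) * z i := by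
      rw [Finset.mul_sum, ← Finset.sum_sub_distrib]
      refine Finset.sum_congr rfl fun i _ => ?_
      change (r.1 i : ℚ) * (Y' i - Y' j.1 / z j.1 * z i) = _
      ring
    rw [e, hzR r hr, h1 r hr, mul_zero, sub_zero]
  have h4 : (univ.filter fun i => Y'' i ≠ 0).card < (univ.filter fun i => Y' i ≠ 0).card := by
    refine Finset.card_lt_card ⟨?_, ?_⟩
    · intro i hi
      rw [mem_filter] at hi ⊢
      refine ⟨mem_univ _, fun h5 => hi.2 ?_⟩
      have h6 : z i = 0 := dif_neg (not_not.2 h5)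
      change Y' i - Y' j.1 / z j.1 * z i = 0
      rw [h5, h6, mul_zero, sub_zero]
    · intro h5
      have h6 : j.1 ∈ univ.filter fun i => Y' i ≠ 0 := mem_filter.2 ⟨mem_univ _, j.2⟩
      refine (mem_filter.1 (h5 h6)).2 ?_
      change Y' j.1 - Y' j.1 / z j.1 * z j.1 = 0
      rw [div_mul_cancel₀ _ hzj, sub_self]
  rw [h2] at h4
  exact Nat.find_min hex h4 ⟨Y'', h3, rfl⟩

/-- a solution of a system of linear equations over `ℚ` with a small denominator -/
theorem small_sol {ι : Type*} [Fintype ι] [DecidableEq ι] (R : Set ((ι → ℤ) × ℤ))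
    (hR : ∀ r ∈ R, ∑ i, |r.1 i| ≤ 3) (Y : ι → ℚ)
    (hY : ∀ r ∈ R, ∑ i, (r.1 i : ℚ) * Y i = (r.2 : ℚ) / 2) :
    ∃ D : ℕ, 0 < D ∧ D ≤ 3 ^ Fintype.card ι ∧ ∃ Z : ι → ℤ,
      ∀ r ∈ R, ∑ i, r.1 i * Z i = D * r.2 := by
  classical
  obtain ⟨Y', h1, h2⟩ := min_sol R Y hY
  obtain ⟨κ, a, -, ha2, ha3⟩ := exists_linearIndependent' ℚ
    (fun r : R => fun j : {j // Y' j ≠ 0} => ((r.1.1 j.1 : ℤ) : ℚ))
  rw [h2] at ha2
  let B := Module.Basis.mk ha3 ha2.ge
  have hκ : Fintype κ := FiniteDimensional.fintypeBasisIndex B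
  have hcard : Fintype.card {j // Y' j ≠ 0} = Fintype.card κ := by
    rw [← Module.finrank_eq_card_basis B, Module.finrank_fintype_fun_eq_card]
  let e : {j // Y' j ≠ 0} ≃ κ := Fintype.equivOfCardEq hcard
  let A : Matrix {j // Y' j ≠ 0} {j // Y' j ≠ 0} ℤ := fun i j => (a (e i)).1.1 j.1
  let b : {j // Y' j ≠ 0} → ℤ := fun i => (a (e i)).1.2
  let AQ : Matrix {j // Y' j ≠ 0} {j // Y' j ≠ 0} ℚ := A.map (Int.castRingHom ℚ)
  have hli : LinearIndependent ℚ (fun i => AQ i) := by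
    have h3 := ha3.comp e e.injective
    exact h3
  have hunit : IsUnit AQ := Matrix.linearIndependent_rows_iff_isUnit.1 hli
  have hdetQ : AQ.det ≠ 0 := ((Matrix.isUnit_iff_isUnit_det _).1 hunit).ne_zero
  have hdetc : AQ.det = (A.det : ℚ) := (RingHom.map_det (Int.castRingHom ℚ) A).symm
  have hdet : A.det ≠ 0 := by
    intro h
    apply hdetQ
    rw [hdetc, h]
    simp
  -- the equations of the chosen rows
  have hrow : ∀ w : ι → ℚ, ∑ i, w i * Y' i = ∑ j : {j // Y' j ≠ 0}, w j.1 * Y' j.1 := by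
    intro w
    have e3 : ∑ i, w i * Y' i = ∑ i ∈ univ.filter (fun i => Y' i ≠ 0), w i * Y' i := by
      symm
      refine Finset.sum_subset (filter_subset _ _) ?_
      intro i _ hi
      have h5 : Y' i = 0 := by
        by_contra h4
        exact hi (mem_filter.2 ⟨mem_univ _, h4⟩)
      rw [h5, mul_zero]
    rw [e3, ← Finset.sum_subtype_of_mem (p := fun i => Y' i ≠ 0) (f := fun i => w i * Y' i)
      (s := univ.filter (fun i => Y' i ≠ 0)) (fun i hi => (mem_filter.1 hi).2)]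
    have e4 : (univ.filter (fun i => Y' i ≠ 0)).subtype (fun i => Y' i ≠ 0) = univ := by
      ext j
      simp [j.2]
    rw [e4]
  let yv : {j // Y' j ≠ 0} → ℚ := fun j => Y' j.1
  let c : {j // Y' j ≠ 0} → ℤ := A.adjugate.mulVec b
  -- Cramer
  have hcr : ∀ j : {j // Y' j ≠ 0}, 2 * (A.det : ℚ) * Y' j.1 = (c j : ℚ) := by
    have h3 : AQ.mulVec yv = fun i => (b i : ℚ) / 2 := by
      funext i
      have h4 := h1 _ (a (e i)).2
      rw [hrow] at h4
      exact h4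
    have h5 : AQ.adjugate.mulVec (AQ.mulVec yv) = AQ.det • yv := by
      rw [Matrix.mulVec_mulVec, Matrix.adjugate_mul, Matrix.smul_mulVec, Matrix.one_mulVec]
    have h6 : AQ.adjugate = A.adjugate.map (Int.castRingHom ℚ) :=
      ((Int.castRingHom ℚ).map_adjugate A).symm
    intro j
    have h7 := congrFun h5 j
    rw [h3, h6] at h7
    have h8 : (A.adjugate.map (Int.castRingHom ℚ)).mulVec (fun i => (b i : ℚ) / 2) j =
        (c j : ℚ) / 2 := by
      change ∑ i, ((A.adjugate j i : ℤ) : ℚ) * ((b i : ℚ) / 2) = ((∑ i, A.adjugate j i * b i : ℤ) : ℚ) / 2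
      rw [Int.cast_sum, Finset.sum_div]
      refine Finset.sum_congr rfl fun i _ => ?_
      rw [Int.cast_mul]
      ring
    rw [h8, hdetc] at h7
    have h9 : (c j : ℚ) / 2 = (A.det : ℚ) * Y' j.1 := h7
    linarith
  have hbd : (A.det.natAbs : ℤ) ≤ 3 ^ Fintype.card ι := by
    rw [Int.natCast_natAbs]
    refine (det_le_prod A).trans ?_
    have h3 : ∀ i, ∑ j, |A i j| ≤ 3 := by
      intro i
      have h4 := hR _ (a (e i)).2
      refine le_trans ?_ h4
      have e3 : ∑ k ∈ univ.filter (fun k => Y' k ≠ 0), |(a (e i)).1.1 k| ≤ ∑ k, |(a (e i)).1.1 k| :=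
        Finset.sum_le_sum_of_subset_of_nonneg (filter_subset _ _) fun _ _ _ => abs_nonneg _
      rw [← Finset.sum_subtype_of_mem (p := fun i => Y' i ≠ 0) (f := fun k => |(a (e i)).1.1 k|)
        (s := univ.filter (fun i => Y' i ≠ 0)) (fun i hi => (mem_filter.1 hi).2)] at e3
      have e4 : (univ.filter (fun i => Y' i ≠ 0)).subtype (fun i => Y' i ≠ 0) = univ := by
        ext j
        simp [j.2]
      rw [e4] at e3
      exact e3
    calc ∏ i, ∑ j, |A i j| ≤ ∏ _i : {j // Y' j ≠ 0}, (3 : ℤ) :=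
          Finset.prod_le_prod (fun i _ => Finset.sum_nonneg fun _ _ => abs_nonneg _) fun i _ => h3 i
      _ = 3 ^ Fintype.card {j // Y' j ≠ 0} := by rw [Finset.prod_const]; rfl
      _ ≤ 3 ^ Fintype.card ι := pow_le_pow_right₀ (by norm_num) (Fintype.card_subtype_le _)
  refine ⟨A.det.natAbs, Int.natAbs_pos.2 hdet, by exact_mod_cast hbd,
    fun i => if h : Y' i ≠ 0 then A.det.sign * c ⟨i, h⟩ else 0, ?_⟩
  intro r hr
  have hZ : ∀ i, ((if h : Y' i ≠ 0 then A.det.sign * c ⟨i, h⟩ else 0 : ℤ) : ℚ) =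
      2 * (A.det.natAbs : ℚ) * Y' i := by
    intro i
    have habs : ((A.det.natAbs : ℕ) : ℚ) = (A.det.sign : ℚ) * (A.det : ℚ) := by
      have h3 : ((A.det.natAbs : ℕ) : ℤ) = A.det.sign * A.det := by
        rw [Int.natCast_natAbs, Int.sign_mul_self_eq_abs]
      rw [← Int.cast_natCast, h3, Int.cast_mul]
    by_cases h : Y' i ≠ 0
    · rw [dif_pos h, Int.cast_mul, ← hcr ⟨i, h⟩, habs]
      ring
    · rw [dif_neg h, not_not.1 h, mul_zero, Int.cast_zero]
  have h3 : ((∑ i, r.1 i * (if h : Y' i ≠ 0 then A.det.sign * c ⟨i, h⟩ else 0) : ℤ) : ℚ) =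
      (((A.det.natAbs : ℤ) * r.2 : ℤ) : ℚ) := by
    rw [Int.cast_sum]
    calc ∑ i, ((r.1 i * (if h : Y' i ≠ 0 then A.det.sign * c ⟨i, h⟩ else 0) : ℤ) : ℚ)
        = ∑ i, 2 * (A.det.natAbs : ℚ) * ((r.1 i : ℚ) * Y' i) := by
          refine Finset.sum_congr rfl fun i _ => ?_
          rw [Int.cast_mul, hZ]
          ring
      _ = 2 * (A.det.natAbs : ℚ) * ((r.2 : ℚ) / 2) := by rw [← Finset.mul_sum, h1 r hr]
      _ = _ := by
          rw [Int.cast_mul, Int.cast_natCast]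
          ring
  exact Int.cast_injective h3

/-- phases modulo `2 q` can be replaced by phases modulo a small power of two with the same short relations -/
theorem reduce_pow {E : Type*} (N : Finset E) (q : ℕ) (hq : 0 < q) (x : E → ZMod (2 * q)) :
    ∃ m : ℕ, 2 ^ m ≤ 3 ^ N.card ∧ ∃ x' : E → ZMod (2 * 2 ^ m),
      ∀ u ∈ N, ∀ v ∈ N, ∀ w ∈ N, ∀ a b c d : ℤ, |a| + |b| + |c| ≤ 3 →
        (a : ZMod (2 * q)) * x u + (b : ZMod (2 * q)) * x v + (c : ZMod (2 * q)) * x w =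
          (d : ZMod (2 * q)) * (q : ZMod (2 * q)) →
        (a : ZMod (2 * 2 ^ m)) * x' u + (b : ZMod (2 * 2 ^ m)) * x' v + (c : ZMod (2 * 2 ^ m)) * x' w =
          (d : ZMod (2 * 2 ^ m)) * ((2 ^ m : ℕ) : ZMod (2 * 2 ^ m)) := by
  classical
  have hne : NeZero (2 * q) := ⟨by omega⟩
  have hq0 : (q : ℚ) ≠ 0 := by exact_mod_cast hq.ne'
  let Y : N → ℚ := fun i => ((x i.1).val : ℚ) / (2 * q)
  let R : Set ((N → ℤ) × ℤ) := {r | ∑ i, |r.1 i| ≤ 3 ∧ ∑ i, (r.1 i : ℚ) * Y i = (r.2 : ℚ) / 2}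
  obtain ⟨D, hD, hDb, Z, hZ⟩ := small_sol R (fun r hr => hr.1) Y (fun r hr => hr.2)
  obtain ⟨m, o, ho, hDo⟩ := Nat.exists_eq_two_pow_mul_odd hD.ne'
  rw [Fintype.card_coe] at hDb
  have hm : 2 ^ m ≤ D := by
    rw [hDo]
    exact Nat.le_mul_of_pos_right _ ho.pos
  refine ⟨m, hm.trans hDb, fun u => if h : u ∈ N then ((Z ⟨u, h⟩ : ℤ) : ZMod (2 * 2 ^ m)) else 0, ?_⟩
  intro u hu v hv w hw a b c d habc he
  change (a : ZMod (2 * 2 ^ m)) * (if h : u ∈ N then ((Z ⟨u, h⟩ : ℤ) : ZMod (2 * 2 ^ m)) else 0) +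
    (b : ZMod (2 * 2 ^ m)) * (if h : v ∈ N then ((Z ⟨v, h⟩ : ℤ) : ZMod (2 * 2 ^ m)) else 0) +
    (c : ZMod (2 * 2 ^ m)) * (if h : w ∈ N then ((Z ⟨w, h⟩ : ℤ) : ZMod (2 * 2 ^ m)) else 0) = _
  rw [dif_pos hu, dif_pos hv, dif_pos hw]
  -- lift the relation to the integers
  have e1 : ((a * ((x u).val : ℤ) + b * ((x v).val : ℤ) + c * ((x w).val : ℤ) - d * (q : ℤ) : ℤ) :
      ZMod (2 * q)) = 0 := by
    push_cast
    rw [ZMod.natCast_zmod_val, ZMod.natCast_zmod_val, ZMod.natCast_zmod_val, he, sub_self]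
  obtain ⟨k, hk⟩ := (ZMod.intCast_zmod_eq_zero_iff_dvd _ _).1 e1
  let r : N → ℤ := fun i => a * (if i = ⟨u, hu⟩ then 1 else 0) + b * (if i = ⟨v, hv⟩ then 1 else 0) +
    c * (if i = ⟨w, hw⟩ then 1 else 0)
  have hsum : ∀ (f : N → ℚ), ∑ i, (r i : ℚ) * f i = a * f ⟨u, hu⟩ + b * f ⟨v, hv⟩ + c * f ⟨w, hw⟩ := by
    intro f
    have : ∀ i, (r i : ℚ) * f i = (if i = ⟨u, hu⟩ then (a : ℚ) * f i else 0) +
        (if i = ⟨v, hv⟩ then (b : ℚ) * f i else 0) + (if i = ⟨w, hw⟩ then (c : ℚ) * f i else 0) := by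
      intro i
      change ((a * (if i = ⟨u, hu⟩ then 1 else 0) + b * (if i = ⟨v, hv⟩ then 1 else 0) +
        c * (if i = ⟨w, hw⟩ then 1 else 0) : ℤ) : ℚ) * f i = _
      split_ifs <;> push_cast <;> ring
    rw [Finset.sum_congr rfl fun i _ => this i, Finset.sum_add_distrib, Finset.sum_add_distrib,
      Finset.sum_ite_eq' univ, Finset.sum_ite_eq' univ, Finset.sum_ite_eq' univ, if_pos (mem_univ _),
      if_pos (mem_univ _), if_pos (mem_univ _)]
  have hsumZ : ∑ i, r i * Z i = a * Z ⟨u, hu⟩ + b * Z ⟨v, hv⟩ + c * Z ⟨w, hw⟩ := by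
    have h1 := hsum fun i => (Z i : ℚ)
    exact_mod_cast h1
  have hrR : (r, d + 2 * k) ∈ R := by
    refine ⟨?_, ?_⟩
    · refine le_trans ?_ habc
      have h01 : ∀ (p : Prop) [Decidable p], |if p then (1 : ℤ) else 0| = if p then 1 else 0 := by
        intro p _
        split_ifs <;> rfl
      have h1 : ∀ i, |r i| ≤ |a| * (if i = ⟨u, hu⟩ then 1 else 0) + |b| * (if i = ⟨v, hv⟩ then 1 else 0) +
          |c| * (if i = ⟨w, hw⟩ then 1 else 0) := by
        intro i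
        refine (abs_add_three _ _ _).trans (le_of_eq ?_)
        rw [abs_mul, abs_mul, abs_mul, h01 (i = ⟨u, hu⟩), h01 (i = ⟨v, hv⟩), h01 (i = ⟨w, hw⟩)]
      refine (Finset.sum_le_sum fun i _ => h1 i).trans (le_of_eq ?_)
      rw [Finset.sum_add_distrib, Finset.sum_add_distrib, ← Finset.mul_sum, ← Finset.mul_sum,
        ← Finset.mul_sum, Finset.sum_ite_eq' univ, Finset.sum_ite_eq' univ, Finset.sum_ite_eq' univ,
        if_pos (mem_univ _), if_pos (mem_univ _), if_pos (mem_univ _), mul_one, mul_one, mul_one]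
    · change ∑ i, (r i : ℚ) * Y i = ((d + 2 * k : ℤ) : ℚ) / 2
      rw [hsum]
      have hk' : (a : ℚ) * ((x u).val : ℚ) + b * ((x v).val : ℚ) + c * ((x w).val : ℚ) - d * (q : ℚ) =
          2 * q * k := by exact_mod_cast hk
      change (a : ℚ) * (((x u).val : ℚ) / (2 * q)) + b * (((x v).val : ℚ) / (2 * q)) +
        c * (((x w).val : ℚ) / (2 * q)) = _
      push_cast
      field_simp
      linarith
  have h2 := hZ _ hrR
  change ∑ i, r i * Z i = D * (d + 2 * k) at h2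
  rw [hsumZ] at h2
  obtain ⟨j, hj⟩ := ho
  have h3 : ((a * Z ⟨u, hu⟩ + b * Z ⟨v, hv⟩ + c * Z ⟨w, hw⟩ : ℤ) : ZMod (2 * 2 ^ m)) =
      ((D * (d + 2 * k) : ℤ) : ZMod (2 * 2 ^ m)) := by rw [h2]
  have h4 : (2 : ZMod (2 * 2 ^ m)) * 2 ^ m = 0 := by
    have h5 := ZMod.natCast_self (2 * 2 ^ m)
    push_cast at h5
    exact h5
  push_cast at h3 ⊢
  rw [h3, hDo, hj]
  push_cast
  linear_combination ((j : ZMod (2 * 2 ^ m)) * d + (2 * (j : ZMod (2 * 2 ^ m)) + 1) * k) * h4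

end Pool.FX65
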