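import Pool.Agent.FX65.Basic
import Pool.Agent.FF25.Step

set_option autoImplicit false

/-!
# FX65/Two25: one crossing of a state gluing as `FF25.Mv`, `act_two`, `lab_eq` (state version)
-/

open Set Metric
open scoped RealInnerProductSpace

namespace Pool.FX65

open Pool.FF24 (HPoly)

variable {E : Type*} [NormedAddCommGroup E] [InnerProductSpace ℝ E] {S : Type*} {P : HPoly E}
  (g : SGlue P S)

open Classical in
/-- the sign of the crossing -/
noncomputable def ee (s : S) (v : E) : ℝ := if v ∈ g.I s then -1 else 1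

theorem ee_in {s : S} {v : E} (h : v ∈ g.I s) : ee g s v = -1 := if_pos h

theorem ee_notin {s : S} {v : E} (h : v ∉ g.I s) : ee g s v = 1 := if_neg h

theorem j_eq (s : S) (v z : E) : g.j s v z = ee g s v • z + g.c s v := by
  unfold SGlue.j ee
  split_ifs
  · rw [neg_one_smul]
    abel
  · rw [one_smul]

theorem mv {s : S} {v : E} (hv : v ∈ P.N) : FF25.Mv P (ee g s v) (g.c s v) v (g.star s v) where
  sgn := by
    unfold ee
    split_ifs
    · exact Or.inr rfl
    · exact Or.inl rfl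
  mem := hv
  mem' := star_mem g hv
  nrm := by
    unfold SGlue.star ee
    split_ifs
    · rw [neg_one_smul, neg_neg]
    · rw [one_smul]
  iff := by
    intro z
    rw [← j_eq]
    constructor
    · exact fun hz => j_mem g hv hz
    · intro hz
      have h1 := j_mem g (s := g.nx s v) (star_mem g hv) hz
      rwa [j_j g hv, star_star g hv] at h1

theorem act_two25 {s : S} {u v y : E} (hy : y ∈ P.body) (huv : u ≠ v) (h : P.act y = {u, v}) :
    ∃ (w : E) (a b : ℝ), P.act (g.j s v y) = {g.star s v, w} ∧ g.star s v ≠ w ∧ 0 < a ∧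
      w = ee g s v • (a • u + b • v) := by
  have hvA : v ∈ P.act y := by rw [h]; simp
  obtain ⟨w, a, b, h1, h2, h3, h4⟩ := FF25.act_step (mv g (s := s) hvA.1) hy huv h
  exact ⟨w, a, b, by rw [j_eq]; exact h1, h2, h3, h4⟩

theorem j_mf25 {s : S} {v y : E} (hv : v ∈ P.N) (hy : y ∈ P.fc v) :
    g.j s v '' P.mf y = P.mf (g.j s v y) := by
  have h1 := FF25.mf_step (mv g (s := s) hv) hy
  rw [j_eq, ← h1]
  exact Set.image_congr fun z _ => j_eq g s v z

theorem X_nb25 {τ : ℝ × E × S} (h : τ.1 = 1 ∨ τ.1 = -1) {u : E}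
    (h' : (g.nb u τ).1 = 1 ∨ (g.nb u τ).1 = -1)
    (z : E) : X (g.nb u τ) (g.j τ.2.2 u z) = X τ z := by
  have e := crd_nb g h u (X τ z)
  rw [crd_X h] at e
  rw [← e, X_crd h']

theorem X_mf25 {p : E} {τ σ : g.Lab} (h : g.R p τ σ) :
    X σ.1 '' P.mf (crd σ.1 p) = X τ.1 '' P.mf (crd τ.1 p) := by
  obtain ⟨hp, h⟩ := h
  induction h with
  | refl => rfl
  | @tail υ σ _ hst ih =>
    rw [← ih]
    obtain ⟨u, hu, hc, hσ⟩ := hst
    have hs' : (g.nb u υ.1).1 = 1 ∨ (g.nb u υ.1).1 = -1 := by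
      rw [← hσ]
      exact sign g σ
    rw [hσ, crd_nb g (sign g υ), ← j_mf25 g hu hc, Set.image_image]
    exact Set.image_congr fun z _ => X_nb25 g (sign g υ) hs' z

/-- in a star a label is determined by its sign, its state and the active set -/
theorem lab_eq25 {p : E} {τ σ σ' : g.Lab} (h : g.R p τ σ) (h' : g.R p τ σ')
    (hs : σ.1.1 = σ'.1.1) (hst : σ.1.2.2 = σ'.1.2.2)
    (ha : P.act (crd σ.1 p) = P.act (crd σ'.1 p)) : σ = σ' := by
  have hb : crd σ.1 p ∈ P.body := R_mem g h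
  have hb' : crd σ'.1 p ∈ P.body := R_mem g h'
  have hG : P.mf (crd σ.1 p) = P.mf (crd σ'.1 p) := by
    rw [FF24.mf_eq hb, FF24.mf_eq hb', ha]
  have hF : X σ.1 '' P.mf (crd σ.1 p) = X σ'.1 '' P.mf (crd σ.1 p) := by
    rw [X_mf25 g h, hG, X_mf25 g h']
  have hsq : σ.1.1 * σ.1.1 = 1 := by
    rcases sign g σ with h1 | h1 <;> rw [h1] <;> norm_num
  have key : σ.1.1 • (σ'.1.2.1 - σ.1.2.1) = 0 := by
    refine FF24.tr_zero (F := P.mf (crd σ.1 p)) ⟨_, FF24.mf_self hb⟩ (FF24.mf_bdd _) fun z hz => ?_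
    have h1 : X σ'.1 z ∈ X σ.1 '' P.mf (crd σ.1 p) := by
      rw [hF]
      exact ⟨z, hz, rfl⟩
    obtain ⟨z', hz', he⟩ := h1
    have e : z + σ.1.1 • (σ'.1.2.1 - σ.1.2.1) = z' := by
      unfold X at he
      rw [← hs] at he
      have h2 : σ.1.1 • z' = σ.1.1 • z + (σ'.1.2.1 - σ.1.2.1) := by
        rw [eq_sub_of_add_eq he]
        abel
      have h3 := congrArg (fun x => σ.1.1 • x) h2
      simp only [smul_add, smul_smul, hsq, one_smul] at h3
      exact h3.symm
    rw [e]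
    exact hz'
  have key2 : σ'.1.2.1 - σ.1.2.1 = 0 := by
    have h3 := congrArg (fun x => σ.1.1 • x) key
    simp only [smul_smul, hsq, one_smul, smul_zero] at h3
    exact h3
  exact Subtype.ext (Prod.ext hs (Prod.ext (sub_eq_zero.1 key2).symm hst))

end Pool.FX65
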