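import Pool.Agent.FX65.LocDef
import Pool.Agent.FX65.Two25
import Pool.Agent.FF56.Wedge

set_option autoImplicit false

/-!
# FX65/Cone2: the star at a point of a ridge (state version of FF56/Cone2)
-/

open Set Metric
open scoped RealInnerProductSpace

namespace Pool.FX65.C25

open Pool.FX65
open Pool.FF24 (HPoly)

variable {E : Type*} [NormedAddCommGroup E] [InnerProductSpace ℝ E] {S : Type*} {P : HPoly E}
  (g : SGlue P S)

theorem act_mem_fc {y u : E} (hy : y ∈ P.body) (hu : u ∈ P.act y) : y ∈ P.fc u := ⟨hy, hu.2⟩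

theorem act_of_mf {y y' : E} (hy : y ∈ P.body) (hy' : y' ∈ P.body) (h : P.mf y = P.mf y') :
    P.act y = P.act y' := by
  have h1 : y' ∈ P.mf y := by rw [h]; exact FF24.mf_self hy'
  have h2 : y ∈ P.mf y' := by rw [← h]; exact FF24.mf_self hy
  rw [FF24.mf_eq hy] at h1
  rw [FF24.mf_eq hy'] at h2
  exact Subset.antisymm h1.2 h2.2

/-- the next active set depends only on the active set and the state -/
theorem act_j_congr {s : S} {y y' v : E} (hy : y ∈ P.body) (hy' : y' ∈ P.body)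
    (h : P.act y = P.act y') (hv : v ∈ P.act y) : P.act (g.j s v y) = P.act (g.j s v y') := by
  have hv' : v ∈ P.act y' := h ▸ hv
  have e : P.mf y = P.mf y' := by rw [FF24.mf_eq hy, FF24.mf_eq hy', h]
  have h1 := j_mf25 g (s := s) hv.1 (act_mem_fc hy hv)
  have h2 := j_mf25 g (s := s) hv.1 (act_mem_fc hy' hv')
  rw [e, h2] at h1
  exact (act_of_mf (j_mem g hv.1 (act_mem_fc hy' hv')).1
    (j_mem g hv.1 (act_mem_fc hy hv)).1 h1).symm

/-- a tile at the ridge together with its flag -/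
structure Tl (g : SGlue P S) (p : E) where
  τ : g.Lab
  u : E
  v : E
  mem : p ∈ g.K τ
  ne : u ≠ v
  act : P.act (crd τ.1 p) = {u, v}

variable {g} {p : E}

/-- the state of the tile -/
def Tl.st (s : Tl g p) : S := s.τ.1.2.2

theorem Tl.ext' {s s' : Tl g p} (h1 : s.τ = s'.τ) (h2 : s.u = s'.u) (h3 : s.v = s'.v) : s = s' := by
  cases s
  cases s'
  simp only at h1 h2 h3
  subst h1 h2 h3
  rfl

theorem Tl.hu (s : Tl g p) : s.u ∈ P.act (crd s.τ.1 p) := by
  rw [s.act]
  exact Set.mem_insert _ _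

theorem Tl.hv (s : Tl g p) : s.v ∈ P.act (crd s.τ.1 p) := by
  rw [s.act]
  exact Set.mem_insert_of_mem _ (Set.mem_singleton _)

/-- the next tile -/
def Nx (s s' : Tl g p) : Prop :=
  s'.τ.1 = g.nb s.v s.τ.1 ∧ s'.u = g.star s.st s.v ∧ ∃ a b : ℝ, 0 < a ∧
    s'.v = ee g s.st s.v • (a • s.u + b • s.v)

theorem exists_nx (s : Tl g p) : ∃ s' : Tl g p, Nx s s' := by
  obtain ⟨w, a, b, h1, h2, ha, h3⟩ := act_two25 g (s := s.st) s.mem s.ne s.act
  have hst : g.St p s.τ (nbL g s.hv.1 s.τ) := ⟨s.v, s.hv.1, act_mem_fc s.mem s.hv, rfl⟩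
  have hc : crd (nbL g s.hv.1 s.τ).1 p = g.j s.st s.v (crd s.τ.1 p) :=
    crd_nb g (sign g s.τ) s.v p
  refine ⟨⟨nbL g s.hv.1 s.τ, g.star s.st s.v, w, St_mem g hst, h2, ?_⟩, rfl, rfl, a, b, ha, h3⟩
  rw [hc, h1]

theorem ee_sq (s : S) (v : E) : ee g s v * ee g s v = 1 := by
  unfold ee
  split_ifs <;> norm_num

theorem sgn_nb (v : E) (τ : ℝ × E × S) : (g.nb v τ).1 = ee g τ.2.2 v * τ.1 := by
  unfold SGlue.nb ee
  split_ifs
  · rw [neg_one_mul]
  · rw [one_mul]

theorem star_ee (s : S) (v : E) : g.star s v = -(ee g s v • v) := by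
  unfold SGlue.star ee
  split_ifs
  · rw [neg_one_smul, neg_neg]
  · rw [one_smul]

/-- real entry normal -/
def Tl.A (s : Tl g p) : E := s.τ.1.1 • s.u

theorem Nx.sgn {s s' : Tl g p} (h : Nx s s') : s'.τ.1.1 = ee g s.st s.v * s.τ.1.1 := by
  rw [h.1, sgn_nb]
  rfl

theorem Nx.state {s s' : Tl g p} (h : Nx s s') : s'.st = g.nx s.st s.v := by
  unfold Tl.st
  rw [h.1, nb_state]

theorem Nx.A_eq {s s' : Tl g p} (h : Nx s s') : s'.A = -(s.τ.1.1 • s.v) := by
  unfold Tl.A
  rw [h.2.1, h.sgn, star_ee, smul_neg, smul_smul]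
  have e : ee g s.st s.v * s.τ.1.1 * ee g s.st s.v = s.τ.1.1 := by
    linear_combination s.τ.1.1 * ee_sq (g := g) s.st s.v
  rw [e]

theorem Nx.orr {s s' s'' : Tl g p} (h : Nx s s') (h' : Nx s' s'') :
    ∃ l m : ℝ, 0 < l ∧ s''.A = -l • s.A + m • s'.A := by
  obtain ⟨a, b, ha, h3⟩ := h.2.2
  refine ⟨a, b, ha, ?_⟩
  rw [h'.A_eq, h.A_eq, h.sgn, h3, smul_smul]
  have e : ee g s.st s.v * s.τ.1.1 * ee g s.st s.v = s.τ.1.1 := by
    linear_combination s.τ.1.1 * ee_sq (g := g) s.st s.v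
  rw [e]
  unfold Tl.A
  module

theorem Nx.crd_eq {s s' : Tl g p} (h : Nx s s') :
    crd s'.τ.1 p = g.j s.st s.v (crd s.τ.1 p) := by
  rw [h.1]
  exact crd_nb g (sign g s.τ) s.v p

theorem Nx.cross {s s' : Tl g p} (h : Nx s s') : g.Cross s.st (s.u, s.v) (s'.u, s'.v) := by
  refine ⟨s.ne, s'.ne, h.2.1, crd s.τ.1 p, s.mem, s.act, ?_⟩
  rw [← h.crd_eq]
  exact s'.act

theorem Nx.stp {s s' : Tl g p} (h : Nx s s') : g.St p s.τ s'.τ :=
  ⟨s.v, s.hv.1, act_mem_fc s.mem s.hv, h.1⟩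

theorem Nx.back {s s' : Tl g p} (h : Nx s s') : s.τ.1 = g.nb s'.u s'.τ.1 := by
  rw [h.2.1, h.1]
  exact (nb_nb g s.hv.1 s.τ.1).symm

theorem chain_R {s : ℕ → Tl g p} (hs : ∀ i, Nx (s i) (s (i + 1))) (i : ℕ) :
    g.R p (s 0).τ (s i).τ := by
  induction i with
  | zero => exact R_refl g (s 0).mem
  | succ i ih => exact R_step g ih (hs i).stp

theorem chain_eq {s : ℕ → Tl g p} (hs : ∀ i, Nx (s i) (s (i + 1))) {i n : ℕ}
    (hu : (s n).u = (s i).u) (hv : (s n).v = (s i).v) (he : (s n).τ.1.1 = (s i).τ.1.1)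
    (hst : (s n).st = (s i).st) : s n = s i := by
  refine Tl.ext' ?_ hu hv
  refine lab_eq25 g (chain_R hs n) (chain_R hs i) he hst ?_
  rw [(s n).act, (s i).act, hu, hv]

theorem chain_sgn {s : ℕ → Tl g p} (hs : ∀ i, Nx (s i) (s (i + 1))) (i n : ℕ) :
    (s (i + n)).τ.1.1 = (-1) ^ (g.nI (fun j => (s (i + j)).st) (fun j => ((s (i + j)).u,
      (s (i + j)).v)) n) * (s i).τ.1.1 := by
  classical
  unfold SGlue.nI
  induction n with
  | zero => simp
  | succ n ih =>
    rw [← Nat.add_assoc, (hs (i + n)).sgn, Finset.range_add_one, Finset.filter_insert]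
    by_cases hI : (s (i + n)).v ∈ g.I (s (i + n)).st
    · rw [ee_in g hI, if_pos hI, Finset.card_insert_of_notMem (by simp), ih, pow_succ]
      ring
    · rw [ee_notin g hI, if_neg hI, ih, one_mul]

theorem ring_of_chain (hC : g.Cyc) {s : ℕ → Tl g p} (hs : ∀ i, Nx (s i) (s (i + 1)))
    (f : Tl g p → Tl g p) (hf : ∀ i, s (i + 1) = f (s i)) :
    ∃ k, FF56.Ring k (fun i => (s i).A) ∧ ∀ i, s (i + k) = s i := by
  classical
  have hper : ∀ i k, s (i + k) = s i → ∀ j, i ≤ j → s (j + k) = s j := by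
    intro i k hk j hj
    induction j, hj using Nat.le_induction with
    | base => exact hk
    | succ j _ ih => rw [show j + 1 + k = (j + k) + 1 by omega, hf, ih, ← hf]
  have hind : ∀ i, LinearIndependent ℝ ![(s i).A, (s (i + 1)).A] := by
    intro i
    have h1 := FF24.act_pair (s i).mem (s i).hu (s i).hv (s i).ne
    rw [(hs i).A_eq]
    unfold Tl.A
    rw [LinearIndependent.pair_iff] at h1 ⊢
    intro x y hxy
    have h2 : (x * (s i).τ.1.1) • (s i).u + (-(y * (s i).τ.1.1)) • (s i).v = 0 := by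
      rw [← hxy]
      module
    obtain ⟨h3, h4⟩ := h1 _ _ h2
    have hne : (s i).τ.1.1 ≠ 0 := by
      rcases sign g (s i).τ with h | h <;> rw [h] <;> norm_num
    rw [neg_eq_zero] at h4
    exact ⟨(mul_eq_zero.1 h3).resolve_right hne, (mul_eq_zero.1 h4).resolve_right hne⟩
  have horr : ∀ i, ∃ l m : ℝ, 0 < l ∧ (s (i + 2)).A = -l • (s i).A + m • (s (i + 1)).A :=
    fun i => (hs i).orr (hs (i + 1))
  have hev : ∀ i n, Even (g.nI (fun j => (s (i + j)).st) (fun j => ((s (i + j)).u,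
      (s (i + j)).v)) n) → (s (i + n)).τ.1.1 = (s i).τ.1.1 := by
    intro i n h
    rw [chain_sgn hs i n, h.neg_one_pow, one_mul]
  have hod : ∀ i n, ¬ Even (g.nI (fun j => (s (i + j)).st) (fun j => ((s (i + j)).u,
      (s (i + j)).v)) n) → (s (i + n)).τ.1.1 = -(s i).τ.1.1 := by
    intro i n h
    rw [chain_sgn hs i n, (Nat.not_even_iff_odd.1 h).neg_one_pow, neg_one_mul]
  have hcl : ∀ i, s (i + 3) = s i ∨ s (i + 4) = s i ∨
      ((s (i + 3)).A = -(s i).A ∧ s (i + 6) = s i) := by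
    intro i
    rcases hC (fun j => (s (i + j)).st) (fun j => ((s (i + j)).u, (s (i + j)).v))
      (fun j => ⟨(hs (i + j)).state, (hs (i + j)).cross⟩) with ⟨h1, h2, h3⟩ | ⟨h1, h2, h3⟩ |
        ⟨h1, h2, h3, h4, h5⟩
    · left
      exact chain_eq hs (congrArg Prod.fst h1) (congrArg Prod.snd h1) (hev i 3 h3) h2
    · right; left
      exact chain_eq hs (congrArg Prod.fst h1) (congrArg Prod.snd h1) (hev i 4 h3) h2
    · right; right
      refine ⟨?_, chain_eq hs (congrArg Prod.fst h3) (congrArg Prod.snd h3) (hev i 6 h5) h4⟩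
      have hu : (s (i + 3)).u = (s i).u := congrArg Prod.fst h1
      unfold Tl.A
      rw [hod i 3 h2, hu, neg_smul]
  have hmk : ∀ k, (k = 3 ∨ k = 4 ∨ (k = 6 ∧ ∀ i, (s (i + 3)).A = -(s i).A)) → s (0 + k) = s 0 →
      ∃ k, FF56.Ring k (fun i => (s i).A) ∧ ∀ i, s (i + k) = s i := by
    intro k hk h0
    have h1 : ∀ i, s (i + k) = s i := fun i => hper 0 k h0 i (Nat.zero_le i)
    refine ⟨k, ⟨hk, fun i => ?_, hind 0, horr⟩, h1⟩
    show (s (i + k)).A = (s i).A
    rw [h1 i]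
  rcases hcl 0 with h | h | ⟨hA, h6⟩
  · exact hmk 3 (Or.inl rfl) h
  · exact hmk 4 (Or.inr (Or.inl rfl)) h
  · have p6 : ∀ i, s (i + 6) = s i := fun i => hper 0 6 h6 i (Nat.zero_le i)
    have p6m : ∀ n i, s (i + 6 * n) = s i := by
      intro n
      induction n with
      | zero => intro i; rfl
      | succ n ih =>
        intro i
        rw [show i + 6 * (n + 1) = (i + 6 * n) + 6 by ring, p6, ih]
    refine hmk 6 (Or.inr (Or.inr ⟨rfl, fun i => ?_⟩)) h6
    rcases hcl i with h | h | ⟨h, -⟩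
    · exfalso
      have h1 := hper i 3 h (6 * i) (by omega)
      have h2 : s (6 * i + 3) = s 3 := by
        rw [show 6 * i + 3 = 3 + 6 * i by ring]
        exact p6m i 3
      have h3 : s (6 * i) = s 0 := by
        have := p6m i 0
        rwa [Nat.zero_add] at this
      rw [h2, h3] at h1
      rw [show 0 + 3 = 3 from rfl, h1] at hA
      have h4 := hind 0
      rw [LinearIndependent.pair_iff] at h4
      have h5 : (2 : ℝ) • (s 0).A + (0 : ℝ) • (s (0 + 1)).A = 0 := by
        rw [zero_smul, add_zero, two_smul]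
        nth_rewrite 2 [hA]
        abel
      have := (h4 _ _ h5).1
      norm_num at this
    · exfalso
      have h1 := hper i 4 h (6 * (2 * i)) (by omega)
      have h2 : s (6 * (2 * i) + 4) = s 4 := by
        rw [show 6 * (2 * i) + 4 = 4 + 6 * (2 * i) by ring]
        exact p6m (2 * i) 4
      have h3 : s (6 * (2 * i)) = s 0 := by
        have := p6m (2 * i) 0
        rwa [Nat.zero_add] at this
      rw [h2, h3] at h1
      have h4 : s 6 = s 2 := by
        have := hper 0 4 h1 2 (by omega)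
        exact this
      have h5 : s 2 = s 0 := by rw [← h4]; exact h6
      obtain ⟨l, m, hl, ho⟩ := horr 0
      rw [show 0 + 2 = 2 from rfl, h5] at ho
      have h7 := hind 0
      rw [LinearIndependent.pair_iff] at h7
      have h8 : (1 + l) • (s 0).A + (-m) • (s (0 + 1)).A = 0 := by
        rw [add_smul, one_smul]
        nth_rewrite 1 [ho]
        module
      have := (h7 _ _ h8).1
      linarith
    · exact h

theorem star_chain {s : ℕ → Tl g p} (hs : ∀ i, Nx (s i) (s (i + 1))) {k : ℕ} (hk : 0 < k)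
    (hper : ∀ i, s (i + k) = s i) {σ : g.Lab} (h : g.R p (s 0).τ σ) : ∃ i, σ = (s i).τ := by
  obtain ⟨-, h⟩ := h
  induction h with
  | refl => exact ⟨0, rfl⟩
  | tail _ hst ih =>
    obtain ⟨i, rfl⟩ := ih
    obtain ⟨u', hu', hfc, hnb⟩ := hst
    have hmem : u' ∈ P.act (crd (s i).τ.1 p) := ⟨hu', hfc.2⟩
    rw [(s i).act] at hmem
    rcases hmem with h1 | h1
    · refine ⟨i + k - 1, ?_⟩
      have h2 := (hs (i + k - 1)).back
      rw [show i + k - 1 + 1 = i + k by omega, hper, ← h1, ← hnb] at h2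
      exact Subtype.ext h2.symm
    · refine ⟨i + 1, Subtype.ext ?_⟩
      rw [hnb, (hs i).1]
      rw [Set.mem_singleton_iff] at h1
      rw [h1]

theorem Tl.cone_iff {s s' : Tl g p} (h : Nx s s') (x : E) :
    x ∈ cone g p s.τ ↔ ⟪s.A, x⟫ ≤ 0 ∧ 0 ≤ ⟪s'.A, x⟫ := by
  rw [h.A_eq]
  unfold cone Tl.A
  rw [inner_neg_left, real_inner_smul_left, real_inner_smul_left, s.act]
  constructor
  · intro hx
    refine ⟨hx _ (Set.mem_insert _ _), ?_⟩
    have := hx _ (Set.mem_insert_of_mem _ (Set.mem_singleton _))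
    linarith
  · rintro ⟨h1, h2⟩ w hw
    rcases hw with hw | hw
    · rw [hw]
      exact h1
    · rw [Set.mem_singleton_iff] at hw
      rw [hw]
      linarith

/-- the tiles around a ridge -/
theorem cone_two (g : SGlue P S) (hC : g.Cyc) {p u v : E} {τ : g.Lab} (hp : p ∈ g.K τ)
    (huv : u ≠ v) (h : P.act (crd τ.1 p) = {u, v}) :
    (∀ x, ∃ σ, g.R p τ σ ∧ x ∈ cone g p σ) ∧
    ∀ x σ σ', g.R p τ σ → g.R p τ σ' → x ∈ cone g p σ → x ∈ cone g p σ' →
      Relation.ReflTransGen (StC g p x) σ σ' := by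
  choose f hf using fun s : Tl g p => exists_nx s
  set s : ℕ → Tl g p := fun i => f^[i] ⟨τ, u, v, hp, huv, h⟩ with hsdef
  have hs1 : ∀ i, s (i + 1) = f (s i) := fun i => by
    rw [hsdef]
    exact Function.iterate_succ_apply' f i _
  have hs : ∀ i, Nx (s i) (s (i + 1)) := fun i => by
    rw [hs1]
    exact hf _
  have hs0 : (s 0).τ = τ := rfl
  obtain ⟨k, hR, hper⟩ := ring_of_chain hC hs f hs1
  have hk := hR.kpos
  have hperA : ∀ {i l : ℕ}, i ≡ l [MOD k] → (s i).τ = (s l).τ := by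
    have hmul : ∀ i n, s (i + n * k) = s i := by
      intro i n
      induction n with
      | zero => simp
      | succ n ih => rw [show i + (n + 1) * k = (i + n * k) + k by ring, hper, ih]
    have hmod : ∀ i, s (i % k) = s i := by
      intro i
      rw [← hmul (i % k) (i / k)]
      congr 1
      exact Nat.mod_add_div' i k
    intro i l hil
    rw [← hmod i, ← hmod l, hil]
  constructor
  · intro x
    obtain ⟨i, -, hi⟩ := hR.cover x
    refine ⟨(s i).τ, ?_, (Tl.cone_iff (hs i) x).2 hi⟩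
    rw [← hs0]
    exact chain_R hs i
  · intro x σ σ' hσ hσ' hx hx'
    rw [← hs0] at hσ hσ'
    obtain ⟨i, rfl⟩ := star_chain hs hk hper hσ
    obtain ⟨l, rfl⟩ := star_chain hs hk hper hσ'
    have h1 := (Tl.cone_iff (hs i) x).1 hx
    have h2 := (Tl.cone_iff (hs l) x).1 hx'
    have hstep : ∀ j, x ∈ cone g p (s j).τ → ⟪(s (j + 1)).A, x⟫ = 0 →
        StC g p x (s j).τ (s (j + 1)).τ := by
      intro j hj h0
      refine ⟨hj, (s j).v, (s j).hv, ?_, (hs j).1⟩
      rw [(hs j).A_eq, inner_neg_left, real_inner_smul_left] at h0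
      linarith
    rcases hR.adj h1 h2 with h | ⟨h, h0⟩ | ⟨h, h0⟩ | h0
    · rw [hperA h]
    · rw [hperA h]
      exact Relation.ReflTransGen.single (hstep i hx h0)
    · have e1 : (s i).τ = (s (l + 1)).τ := hperA h
      rw [e1] at hx ⊢
      apply Relation.ReflTransGen.single
      refine ⟨hx, (s (l + 1)).u, (s (l + 1)).hu, ?_, (hs l).back⟩
      rw [← real_inner_smul_left]
      exact h0
    · have hall : ∀ n, Relation.ReflTransGen (StC g p x) (s i).τ (s (i + n)).τ := by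
        intro n
        induction n with
        | zero => exact Relation.ReflTransGen.refl
        | succ n ih =>
          refine ih.tail (hstep (i + n) ?_ (h0 _))
          rw [Tl.cone_iff (hs (i + n)) x]
          exact ⟨(h0 _).le, (h0 _).ge⟩
      have h3 : (s (i + (l + i * k - i))).τ = (s l).τ := by
        apply hperA
        have : i ≤ i * k := Nat.le_mul_of_pos_right i hk
        rw [show i + (l + i * k - i) = l + i * k by omega]
        simp [Nat.ModEq]
      rw [← h3]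
      exact hall _

end Pool.FX65.C25

namespace Pool.FX65

variable {E : Type*} [NormedAddCommGroup E] [InnerProductSpace ℝ E] {S : Type*} {P : FF24.HPoly E}

/-- the tiles around a ridge -/
theorem cone_two (g : SGlue P S) (hC : g.Cyc) {p u v : E} {τ : g.Lab} (hp : p ∈ g.K τ)
    (huv : u ≠ v) (h : P.act (crd τ.1 p) = {u, v}) :
    (∀ x, ∃ σ, g.R p τ σ ∧ x ∈ cone g p σ) ∧
    ∀ x σ σ', g.R p τ σ → g.R p τ σ' → x ∈ cone g p σ → x ∈ cone g p σ' →
      Relation.ReflTransGen (StC g p x) σ σ' :=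
  C25.cone_two g hC hp huv h

end Pool.FX65
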