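import Pool.Agent.FF24.Defs

set_option autoImplicit false

/-!
# FX65/Defs: gluing data which depend on a state (finitely many copies of the polytope)

`SGlue P S`: for each state `s : S` a gluing of the facets of the copy `s` of the polytope: the facet `u` of the copy `s`
is glued to the facet `star s u` of the copy `nx s u`, by a point reflection if `u ∈ I s` and by a translation otherwise.
Labels `(e, t, s)`: the tile `e • body + t`, a copy with the state `s`. With one state this is `FF24.Glue`.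
-/

open Set Metric
open scoped RealInnerProductSpace

namespace Pool.FX65

open Pool.FF24 (HPoly)

variable {E : Type*} [NormedAddCommGroup E] [InnerProductSpace ℝ E] {S : Type*}

/-- gluing data for the facets of copies of the polytope -/
structure SGlue (P : HPoly E) (S : Type*) where
  /-- the facets which are glued by a point reflection -/
  I : S → Set E
  c : S → E → E
  /-- the state behind the facet -/
  nx : S → E → S
  s0 : S
  inv : ∀ s, ∀ u ∈ P.N, u ∈ I s → ∀ z ∈ P.fc u, c s u - z ∈ P.fc u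
  negN : ∀ s, ∀ u ∈ P.N, u ∉ I s → -u ∈ P.N
  tr : ∀ s, ∀ u ∈ P.N, u ∉ I s → ∀ z ∈ P.fc u, z + c s u ∈ P.fc (-u)
  backI : ∀ s, ∀ u ∈ P.N, u ∈ I s → u ∈ I (nx s u) ∧ nx (nx s u) u = s
  backT : ∀ s, ∀ u ∈ P.N, u ∉ I s → -u ∉ I (nx s u) ∧ nx (nx s u) (-u) = s

/-- the point of the tile with label `τ` which corresponds to `z` -/
def X (τ : ℝ × E × S) (z : E) : E := τ.1 • z + τ.2.1

/-- own coordinates of `p` in the tile with label `τ` -/
def crd (τ : ℝ × E × S) (p : E) : E := τ.1 • (p - τ.2.1)

namespace SGlue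

variable {P : HPoly E} (g : SGlue P S)

open Classical in
/-- the facet to which the facet `u` of the copy `s` is glued -/
noncomputable def star (s : S) (u : E) : E := if u ∈ g.I s then u else -u

open Classical in
/-- the gluing map of the facet `u` of the copy `s` -/
noncomputable def j (s : S) (u z : E) : E := if u ∈ g.I s then g.c s u - z else z + g.c s u

open Classical in
/-- the label of the tile behind the facet `u` of the tile with label `τ` -/
noncomputable def nb (u : E) (τ : ℝ × E × S) : ℝ × E × S :=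
  if u ∈ g.I τ.2.2 then (-τ.1, τ.2.1 + τ.1 • g.c τ.2.2 u, g.nx τ.2.2 u)
  else (τ.1, τ.2.1 - τ.1 • g.c τ.2.2 u, g.nx τ.2.2 u)

/-- the labels which are reached from `(1, 0, s0)` -/
inductive Orb : ℝ × E × S → Prop
  | base : Orb (1, 0, g.s0)
  | step {τ : ℝ × E × S} {u : E} : Orb τ → u ∈ P.N → Orb (g.nb u τ)

/-- the type of the labels -/
def Lab : Type _ := {τ : ℝ × E × S // g.Orb τ}

/-- the tile -/
def K (τ : g.Lab) : Set E := {p | crd τ.1 p ∈ P.body}

/-- one step through a facet which contains `p` -/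
def St (p : E) (τ σ : g.Lab) : Prop := ∃ u ∈ P.N, crd τ.1 p ∈ P.fc u ∧ σ.1 = g.nb u τ.1

/-- the star of `τ` at `p` -/
def R (p : E) (τ σ : g.Lab) : Prop := p ∈ g.K τ ∧ Relation.ReflTransGen (g.St p) τ σ

/-- the bad points: three facets of a tile with independent normals meet (their hyperplanes) -/
def Bad : Set E := {p | ∃ τ : g.Lab, ∃ u ∈ P.N, ∃ v ∈ P.N, ∃ w ∈ P.N,
  LinearIndependent ℝ ![u, v, w] ∧ ⟪u, crd τ.1 p⟫ = P.h u ∧ ⟪v, crd τ.1 p⟫ = P.h v ∧
    ⟪w, crd τ.1 p⟫ = P.h w}

/-- crossing the facet `a.2` of the copy `s` near the ridge of the facets `a.1`, `a.2` (entered through `a.1`): in the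
next copy the ridge belongs to the facets `b.1 = star s a.2` and `b.2` -/
def Cross (s : S) (a b : E × E) : Prop :=
  a.1 ≠ a.2 ∧ b.1 ≠ b.2 ∧ b.1 = g.star s a.2 ∧
    ∃ y ∈ P.body, P.act y = {a.1, a.2} ∧ P.act (g.j s a.2 y) = {b.1, b.2}

open Classical in
/-- the number of the point reflections in the first `k` steps -/
noncomputable def nI (s : ℕ → S) (a : ℕ → E × E) (k : ℕ) : ℕ :=
  ((Finset.range k).filter fun i => (a i).2 ∈ g.I (s i)).card

/-- THE RIDGE CONDITION: the tiles around a ridge repeat after 3 or 4 steps (flag, state, sign), or after 6 steps, and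
then the flag repeats after 3 steps with the opposite sign. -/
def Cyc : Prop := ∀ (s : ℕ → S) (a : ℕ → E × E),
  (∀ i, s (i + 1) = g.nx (s i) (a i).2 ∧ g.Cross (s i) (a i) (a (i + 1))) →
    (a 3 = a 0 ∧ s 3 = s 0 ∧ Even (g.nI s a 3)) ∨ (a 4 = a 0 ∧ s 4 = s 0 ∧ Even (g.nI s a 4)) ∨
      (a 3 = a 0 ∧ ¬ Even (g.nI s a 3) ∧ a 6 = a 0 ∧ s 6 = s 0 ∧ Even (g.nI s a 6))

end SGlue

end Pool.FX65
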