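import Pool.Agent.FX65.ExtS28

set_option autoImplicit false

/-!
# FX65/Ext: extension of sign characters to characters with values in `Z/2q`

`S i ⊆ E × Z/2` a subgroup which is the graph of a character of its projection (`hS`). `ℚ/ℤ` is injective
(`CharacterModule.dual_surjective_of_injective`), so the character `l ↦ s/2` of the projection of `S i` extends to a
homomorphism `E → AddCircle (1 : ℚ)`; its restriction to the finitely generated group `closure A` has finite order, so
for a common `q` the values lie in `(1/2q) ℤ / ℤ ≅ ZMod (2 q)`, `1/2 ↦ q`.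
-/

namespace Pool.FX65

theorem phases {E ι : Type*} [AddCommGroup E] [Finite ι] (S : ι → AddSubgroup (E × ZMod 2))
    (hS : ∀ i s, ((0 : E), s) ∈ S i → s = 0) (A : Finset E) :
    ∃ q : ℕ, 0 < q ∧ ∃ φ : ι → (AddSubgroup.closure (A : Set E)) →+ ZMod (2 * q),
      ∀ i (l : AddSubgroup.closure (A : Set E)) (s : ZMod 2), ((l : E), s) ∈ S i →
        φ i l = if s = 0 then 0 else (q : ZMod (2 * q)) := by
  exact phases28 S hS A

end Pool.FX65
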