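import Pool.Agent.FF28.Char

set_option autoImplicit false

/-!
# FX65/ExtS28: extension of sign characters to characters with values in `ZMod (2 q)`
-/

namespace Pool.FX65

open Pool.Agent.FF28

theorem char28 {E : Type*} [AddCommGroup E] (S : AddSubgroup (E × ZMod 2))
    (hS : ∀ s, ((0 : E), s) ∈ S → s = 0) :
    ∃ φ : E →+ AddCircle (1 : ℚ), ∀ (l : E) (s : ZMod 2), (l, s) ∈ S → φ l = jot 2 two_ne_zero s := by
  let f : S →+ E := (AddMonoidHom.fst E (ZMod 2)).comp S.subtype
  have hf : Function.Injective f := by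
    rw [injective_iff_map_eq_zero]
    rintro ⟨⟨a, b⟩, hp⟩ h0
    have h1 : a = 0 := h0
    subst h1
    have h2 := hS _ hp
    subst h2
    rfl
  let ψ : S →+ AddCircle (1 : ℚ) :=
    ((jot 2 two_ne_zero).comp (AddMonoidHom.snd E (ZMod 2))).comp S.subtype
  obtain ⟨φ, hφ⟩ := (Module.Baer.of_divisible (AddCircle (1 : ℚ))).extension_property_addMonoidHom f hf ψ
  exact ⟨φ, fun l s hm => DFunLike.congr_fun hφ ⟨_, hm⟩⟩

theorem phases28 {E ι : Type*} [AddCommGroup E] [Finite ι] (S : ι → AddSubgroup (E × ZMod 2))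
    (hS : ∀ i s, ((0 : E), s) ∈ S i → s = 0) (A : Finset E) :
    ∃ q : ℕ, 0 < q ∧ ∃ φ : ι → (AddSubgroup.closure (A : Set E)) →+ ZMod (2 * q),
      ∀ i (l : AddSubgroup.closure (A : Set E)) (s : ZMod 2), ((l : E), s) ∈ S i →
        φ i l = if s = 0 then 0 else (q : ZMod (2 * q)) := by
  classical
  choose φ hφ using fun i => char28 (S i) (hS i)
  have := Fintype.ofFinite ι
  choose n hn0 hn using fun y : AddCircle (1 : ℚ) => tors y
  let q : ℕ := ∏ i : ι, ∏ a ∈ A, n (φ i a)
  have hq : 0 < q := Finset.prod_pos fun k _ => Finset.prod_pos fun i _ => Nat.pos_of_ne_zero (hn0 _)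
  have hq2 : 2 * q ≠ 0 := by omega
  have hkill : ∀ i, ∀ l ∈ AddSubgroup.closure (A : Set E), (2 * q) • φ i l = 0 := by
    intro i l hl
    induction hl using AddSubgroup.closure_induction with
    | mem a ha =>
      have hd1 : n (φ i a) ∣ ∏ a ∈ A, n (φ i a) :=
        Finset.dvd_prod_of_mem (fun a => n (φ i a)) ha
      have hd2 : (∏ a ∈ A, n (φ i a)) ∣ q :=
        Finset.dvd_prod_of_mem (fun i => ∏ a ∈ A, n (φ i a)) (Finset.mem_univ i)
      obtain ⟨c, hc⟩ := (hd1.trans hd2).trans (Dvd.intro_left 2 (rfl : 2 * q = 2 * q))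
      rw [hc, mul_comm, mul_nsmul', hn, nsmul_zero]
    | zero => rw [map_zero, nsmul_zero]
    | add x y _ _ hx hy => rw [map_add, nsmul_add, hx, hy, add_zero]
    | neg x _ hx => rw [map_neg, smul_neg, hx, neg_zero]
  choose x hx using fun i (l : AddSubgroup.closure (A : Set E)) =>
    jot_surj (2 * q) hq2 (φ i l) (hkill i l l.2)
  refine ⟨q, hq, fun i => AddMonoidHom.mk' (x i) fun a b => ?_, ?_⟩
  · apply jot_inj (2 * q) hq2
    rw [hx, map_add, hx, hx, AddSubgroup.coe_add, map_add]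
  · intro i l s hl
    apply jot_inj (2 * q) hq2
    rw [AddMonoidHom.mk'_apply, hx, hφ i l s hl]
    have hs : s = 0 ∨ s = 1 := by
      clear hl
      revert s; decide
    rcases hs with hs | hs
    · simp [hs]
    · rw [hs, if_neg (by decide)]
      have e1 := jot_int 2 two_ne_zero 1
      have e2 := jot_int (2 * q) hq2 q
      push_cast at e1 e2
      rw [e1, e2]
      congr 1
      have h0 : (q : ℚ) ≠ 0 := by exact_mod_cast hq.ne'
      field_simp

end Pool.FX65
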