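import Pool.Agent.FX65.Basic
import Pool.Agent.FF24.Face

set_option autoImplicit false

/-!
# FX65/Face: minimal faces (state version of FF24/Face)
-/

open Set Metric
open scoped RealInnerProductSpace

namespace Pool.FX65

open Pool.FF24 (HPoly)

variable {E : Type*} [NormedAddCommGroup E] [InnerProductSpace ℝ E] {S : Type*} {P : HPoly E}
  (g : SGlue P S)

theorem j_line (s' : S) (u y z : E) (s : ℝ) :
    g.j s' u (y + s • (y - z)) = g.j s' u y + s • (g.j s' u y - g.j s' u z) := by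
  by_cases h : u ∈ g.I s'
  · have e : ∀ x, g.j s' u x = g.c s' u - x := fun x => if_pos h
    rw [e, e, e]
    have e2 : g.c s' u - y - (g.c s' u - z) = -(y - z) := by abel
    rw [e2, smul_neg]
    abel
  · have e : ∀ x, g.j s' u x = x + g.c s' u := fun x => if_neg h
    rw [e, e, e]
    have e2 : y + g.c s' u - (z + g.c s' u) = y - z := by abel
    rw [e2]
    abel

theorem j_mf_sub {s' : S} {u y z : E} (hu : u ∈ P.N) (hy : y ∈ P.fc u) (hz : z ∈ P.mf y) :
    g.j s' u z ∈ P.mf (g.j s' u y) := by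
  have hzf := FF24.mf_fc hu hy hz
  obtain ⟨hzb, s, hs, hm⟩ := hz
  refine ⟨(j_mem g hu hzf).1, s, hs, ?_⟩
  rw [← j_line]
  refine (j_mem g hu ⟨hm, ?_⟩).1
  rw [FF24.inner_line, hy.2, hzf.2]
  simp

theorem j_mf {s' : S} {u y : E} (hu : u ∈ P.N) (hy : y ∈ P.fc u) :
    g.j s' u '' P.mf y = P.mf (g.j s' u y) := by
  apply Set.Subset.antisymm
  · rintro _ ⟨z, hz, rfl⟩
    exact j_mf_sub g hu hy hz
  · intro w hw
    have hu' := star_mem g (s := s') hu
    have h1 := j_mf_sub g (s' := g.nx s' u) hu' (j_mem g hu hy) hw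
    rw [j_j g hu] at h1
    refine ⟨g.j (g.nx s' u) (g.star s' u) w, h1, ?_⟩
    have h2 := j_j g (s := g.nx s' u) hu' w
    rwa [star_star g hu, nx_nx g hu] at h2

theorem X_nb {τ : ℝ × E × S} (h : τ.1 = 1 ∨ τ.1 = -1) {u : E}
    (h' : (g.nb u τ).1 = 1 ∨ (g.nb u τ).1 = -1)
    (z : E) : X (g.nb u τ) (g.j τ.2.2 u z) = X τ z := by
  have e := crd_nb g h u (X τ z)
  rw [crd_X h] at e
  rw [← e, X_crd h']

theorem X_mf {p : E} {τ σ : g.Lab} (h : g.R p τ σ) :
    X σ.1 '' P.mf (crd σ.1 p) = X τ.1 '' P.mf (crd τ.1 p) := by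
  obtain ⟨hp, h⟩ := h
  induction h with
  | refl => rfl
  | @tail υ σ _ hst ih =>
    rw [← ih]
    obtain ⟨u, hu, hc, hσ⟩ := hst
    have hs' : (g.nb u υ.1).1 = 1 ∨ (g.nb u υ.1).1 = -1 := by
      rw [← hσ]
      exact sign g σ
    rw [hσ, crd_nb g (sign g υ), ← j_mf g hu hc, Set.image_image]
    exact Set.image_congr fun z _ => X_nb g (sign g υ) hs' z

/-- in a star a label is determined by its sign, its state and the active set -/
theorem lab_eq {p : E} {τ σ σ' : g.Lab} (h : g.R p τ σ) (h' : g.R p τ σ') (hs : σ.1.1 = σ'.1.1)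
    (hst : σ.1.2.2 = σ'.1.2.2) (ha : P.act (crd σ.1 p) = P.act (crd σ'.1 p)) : σ = σ' := by
  have hb : crd σ.1 p ∈ P.body := R_mem g h
  have hb' : crd σ'.1 p ∈ P.body := R_mem g h'
  have hG : P.mf (crd σ.1 p) = P.mf (crd σ'.1 p) := by
    rw [FF24.mf_eq hb, FF24.mf_eq hb', ha]
  have hF : X σ.1 '' P.mf (crd σ.1 p) = X σ'.1 '' P.mf (crd σ.1 p) := by
    rw [X_mf g h, hG, X_mf g h']
  have hsq : σ.1.1 * σ.1.1 = 1 := by
    rcases sign g σ with h1 | h1 <;> rw [h1] <;> norm_num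
  have key : σ.1.1 • (σ'.1.2.1 - σ.1.2.1) = 0 := by
    refine FF24.tr_zero (F := P.mf (crd σ.1 p)) ⟨_, FF24.mf_self hb⟩ (FF24.mf_bdd _)
      fun z hz => ?_
    have h1 : X σ'.1 z ∈ X σ.1 '' P.mf (crd σ.1 p) := by
      rw [hF]
      exact ⟨z, hz, rfl⟩
    obtain ⟨z', hz', he⟩ := h1
    have e : z + σ.1.1 • (σ'.1.2.1 - σ.1.2.1) = z' := by
      unfold X at he
      rw [← hs] at he
      have h2 : σ.1.1 • z' = σ.1.1 • z + (σ'.1.2.1 - σ.1.2.1) := by
        rw [eq_sub_of_add_eq he]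
        abel
      have h3 := congrArg (fun x => σ.1.1 • x) h2
      simp only [smul_add, smul_smul, hsq, one_smul] at h3
      exact h3.symm
    rw [e]
    exact hz'
  have key2 : σ'.1.2.1 - σ.1.2.1 = 0 := by
    have h3 := congrArg (fun x => σ.1.1 • x) key
    simp only [smul_smul, hsq, one_smul, smul_zero] at h3
    exact h3
  exact Subtype.ext (Prod.ext hs (Prod.ext (sub_eq_zero.1 key2).symm hst))

end Pool.FX65
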