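import Pool.Agent.FX65.Face
import Pool.Agent.FF24.Fin

set_option autoImplicit false

/-!
# FX65/Fin: stars are finite, own coordinates, the number delta (state version of FF24/Fin)

The states are finitely many (`[Finite S]`).
-/

open Set Metric Filter Topology
open scoped RealInnerProductSpace

namespace Pool.FX65

open Pool.FF24 (HPoly)

variable {E : Type*} [NormedAddCommGroup E] [InnerProductSpace ℝ E] {S : Type*} {P : HPoly E}
  (g : SGlue P S)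

theorem star_finite [Finite S] (p : E) (τ : g.Lab) : {σ | g.R p τ σ}.Finite := by
  have hinj : Set.InjOn (fun σ : g.Lab => ((σ.1.1, σ.1.2.2), P.act (crd σ.1 p)))
      {σ | g.R p τ σ} := by
    intro σ hσ σ' hσ' h
    obtain ⟨h1, h2⟩ := Prod.mk.inj h
    obtain ⟨h3, h4⟩ := Prod.mk.inj h1
    exact lab_eq g hσ hσ' h3 h4 h2
  have hfin : ((({1, -1} : Set ℝ) ×ˢ (univ : Set S)) ×ˢ {b : Set E | b ⊆ (P.N : Set E)}).Finite :=
    ((Set.toFinite _).prod (Set.toFinite _)).prod P.N.finite_toSet.finite_subsets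
  refine Set.Finite.of_injOn ?_ hinj hfin
  intro σ _
  refine ⟨⟨?_, trivial⟩, fun u hu => hu.1⟩
  rcases sign g σ with h | h
  · exact Or.inl h
  · exact Or.inr h

/-- own coordinates (and states) which are reached from `y` (and the state `s`) -/
def W (s : S) (y : E) : Set (S × E) :=
  {y' | Relation.ReflTransGen (fun a b : S × E => ∃ u ∈ P.N, a.2 ∈ P.fc u ∧
    b = (g.nx a.1 u, g.j a.1 u a.2)) (s, y) y'}

theorem W_star {p : E} {τ : g.Lab} (hp : p ∈ g.K τ) {y' : S × E}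
    (h : y' ∈ W g τ.1.2.2 (crd τ.1 p)) :
    ∃ σ : g.Lab, g.R p τ σ ∧ (σ.1.2.2, crd σ.1 p) = y' := by
  have h' : Relation.ReflTransGen (fun a b : S × E => ∃ u ∈ P.N, a.2 ∈ P.fc u ∧
    b = (g.nx a.1 u, g.j a.1 u a.2)) (τ.1.2.2, crd τ.1 p) y' := h
  induction h' with
  | refl => exact ⟨τ, R_refl g hp, rfl⟩
  | @tail b c hb hbc ih =>
    obtain ⟨σ, hσ, hc⟩ := ih hb
    obtain ⟨u, hu, hbu, rfl⟩ := hbc
    refine ⟨nbL g hu σ, R_step g hσ ⟨u, hu, ?_, rfl⟩, ?_⟩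
    · rw [← hc] at hbu
      exact hbu
    · show ((g.nb u σ.1).2.2, crd (g.nb u σ.1) p) = _
      rw [crd_nb g (sign g σ), nb_state, ← hc]

theorem W_finite [Finite S] {p : E} {τ : g.Lab} (hp : p ∈ g.K τ) :
    (W g τ.1.2.2 (crd τ.1 p)).Finite := by
  refine ((star_finite g p τ).image (fun σ : g.Lab => (σ.1.2.2, crd σ.1 p))).subset ?_
  intro y' h
  obtain ⟨σ, hσ, hc⟩ := W_star g hp h
  exact ⟨σ, hσ, hc⟩

theorem crd_mem_W {p : E} {τ σ : g.Lab} (h : g.R p τ σ) :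
    (σ.1.2.2, crd σ.1 p) ∈ W g τ.1.2.2 (crd τ.1 p) := by
  obtain ⟨-, h'⟩ := h
  induction h' with
  | refl => exact Relation.ReflTransGen.refl
  | @tail b c hb hbc ih =>
    obtain ⟨u, hu, hbu, hc⟩ := hbc
    refine Relation.ReflTransGen.tail ih ⟨u, hu, hbu, ?_⟩
    rw [hc, crd_nb g (sign g b), nb_state]

/-- for a finite set of points of the body there is a common number -/
theorem near {D : Set (S × E)} (hD : D.Finite) : ∃ δ > 0, ∀ y' ∈ D, ∀ u ∈ P.N, ∀ z ∈ P.fc u,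
    dist z y'.2 < δ → y'.2 ∈ P.fc u := by
  have h1 : ∀ y' ∈ D, ∀ u ∈ P.N, ∀ᶠ δ in 𝓝[>] (0 : ℝ), ∀ z ∈ P.fc u,
      dist z y'.2 < δ → y'.2 ∈ P.fc u := by
    intro y' _ u _
    by_cases hy' : y'.2 ∈ P.fc u
    · exact Eventually.of_forall fun _ _ _ _ => hy'
    · obtain ⟨ε, hε, hb⟩ :=
        Metric.isOpen_iff.1 (FF24.fc_closed (P := P) u).isOpen_compl y'.2 hy'
      filter_upwards [Ioo_mem_nhdsGT hε] with δ hδ z hz hd
      exact absurd hz (hb (mem_ball.2 (hd.trans hδ.2)))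
  have h2 : ∀ᶠ δ in 𝓝[>] (0 : ℝ), ∀ y' ∈ D, ∀ u ∈ P.N, ∀ z ∈ P.fc u,
      dist z y'.2 < δ → y'.2 ∈ P.fc u :=
    (hD.eventually_all).2 fun y' hy' =>
      (Filter.eventually_all_finset P.N).2 (h1 y' hy')
  obtain ⟨δ, h3, h4⟩ := (h2.and self_mem_nhdsWithin).exists
  exact ⟨δ, h4, h3⟩

end Pool.FX65
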