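import Pool.Agent.FX65.Defs
import Pool.Agent.FF56.Auto

set_option autoImplicit false

/-!
# FX65/Glue28: the gluing data of a system of phases

`Phase P q x`: phases `x u` with values in `ZMod (2 q)`. `nx`: the phase behind the facet `u`. The sign of a phase `s` is `+`
iff `s.val < q`; the facet `u` of a copy with the phase `s` is glued by a point reflection iff the sign changes.
-/

open Set Metric
open scoped RealInnerProductSpace

namespace Pool.FX65

open Pool.FF24 (HPoly)
open Pool.FF56 (Csym Tra)

variable {E : Type*} [NormedAddCommGroup E] [InnerProductSpace ℝ E]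

/-- a system of phases (without the ridge condition) -/
structure Phase (P : HPoly E) (q : ℕ) (x : E → ZMod (2 * q)) : Prop where
  pos : 0 < q
  csym : ∀ u ∈ P.N, x u ≠ 0 → Csym P u
  tra : ∀ u ∈ P.N, x u ≠ (q : ZMod (2 * q)) → Tra P u
  odd : ∀ u ∈ P.N, x u ≠ (q : ZMod (2 * q)) → x (-u) = - x u

/-- the phase behind the facet `u` -/
def nxt {q : ℕ} (x : E → ZMod (2 * q)) (s : ZMod (2 * q)) (u : E) : ZMod (2 * q) :=
  if s.val < q then s + x u else s - x u

/-- the facets where the sign changes -/
def Inv {q : ℕ} (x : E → ZMod (2 * q)) (s : ZMod (2 * q)) : Set E :=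
  {u | ¬ (s.val < q ↔ (nxt x s u).val < q)}

theorem add_q {q : ℕ} (hq : 0 < q) (s : ZMod (2 * q)) : ((s + (q : ZMod (2 * q))).val < q ↔ ¬ s.val < q) := by
  have : NeZero (2 * q) := ⟨by omega⟩
  have h1 := ZMod.val_lt s
  have h2 : ((q : ZMod (2 * q))).val = q := by
    rw [ZMod.val_natCast, Nat.mod_eq_of_lt (by omega)]
  rw [ZMod.val_add, h2]
  by_cases h : s.val < q
  · rw [Nat.mod_eq_of_lt (by omega)]
    omega
  · have e : s.val + q = (s.val - q) + 2 * q := by omega
    rw [e, Nat.add_mod_right, Nat.mod_eq_of_lt (by omega)]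
    omega

theorem two_q {q : ℕ} : (q : ZMod (2 * q)) + q = 0 := by
  have : ((2 * q : ℕ) : ZMod (2 * q)) = 0 := ZMod.natCast_self _
  rw [← this]
  push_cast
  ring

theorem sub_q {q : ℕ} (s : ZMod (2 * q)) : s - (q : ZMod (2 * q)) = s + q := by
  rw [sub_eq_iff_eq_add, add_assoc, two_q, add_zero]

variable {P : HPoly E} {q : ℕ} {x : E → ZMod (2 * q)}

/-- a facet where the sign changes has a phase different from `0` -/
theorem ne_zero_of_Inv {s : ZMod (2 * q)} {u : E} (h : u ∈ Inv x s) : x u ≠ 0 := by
  intro h0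
  apply h
  unfold nxt
  rw [h0]
  simp

/-- a facet where the sign does not change has a phase different from `q` -/
theorem ne_q_of_notInv (hq : 0 < q) {s : ZMod (2 * q)} {u : E} (h : u ∉ Inv x s) :
    x u ≠ (q : ZMod (2 * q)) := by
  intro h0
  apply h
  show ¬ (s.val < q ↔ (nxt x s u).val < q)
  have e : nxt x s u = s + (q : ZMod (2 * q)) := by
    unfold nxt
    rw [h0, sub_q]
    split <;> rfl
  rw [e, add_q hq]
  tauto

theorem nxt_back {s : ZMod (2 * q)} {u : E} (h : u ∈ Inv x s) : nxt x (nxt x s u) u = s := by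
  have h' : ¬ (s.val < q ↔ (nxt x s u).val < q) := h
  by_cases hs : s.val < q
  · have h2 : ¬ (nxt x s u).val < q := by tauto
    have e : nxt x (nxt x s u) u = nxt x s u - x u := if_neg h2
    have e2 : nxt x s u = s + x u := if_pos hs
    rw [e, e2]
    abel
  · have h2 : (nxt x s u).val < q := by tauto
    have e : nxt x (nxt x s u) u = nxt x s u + x u := if_pos h2
    have e2 : nxt x s u = s - x u := if_neg hs
    rw [e, e2]
    abel

theorem Inv_back {s : ZMod (2 * q)} {u : E} (h : u ∈ Inv x s) : u ∈ Inv x (nxt x s u) := by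
  show ¬ ((nxt x s u).val < q ↔ (nxt x (nxt x s u) u).val < q)
  rw [nxt_back h]
  have h' : ¬ (s.val < q ↔ (nxt x s u).val < q) := h
  tauto

theorem nxt_backT {s : ZMod (2 * q)} {u : E} (ho : x (-u) = - x u) (h : u ∉ Inv x s) :
    nxt x (nxt x s u) (-u) = s := by
  have h' : (s.val < q ↔ (nxt x s u).val < q) := by
    by_contra hc
    exact h hc
  by_cases hs : s.val < q
  · have e : nxt x (nxt x s u) (-u) = nxt x s u + x (-u) := if_pos (h'.1 hs)
    have e2 : nxt x s u = s + x u := if_pos hs
    rw [e, e2, ho]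
    abel
  · have h2 : ¬ (nxt x s u).val < q := by tauto
    have e : nxt x (nxt x s u) (-u) = nxt x s u - x (-u) := if_neg h2
    have e2 : nxt x s u = s - x u := if_neg hs
    rw [e, e2, ho]
    abel

theorem Inv_backT {s : ZMod (2 * q)} {u : E} (ho : x (-u) = - x u) (h : u ∉ Inv x s) :
    -u ∉ Inv x (nxt x s u) := by
  have h' : (s.val < q ↔ (nxt x s u).val < q) := by
    by_contra hc
    exact h hc
  intro h2
  have h3 : ¬ ((nxt x s u).val < q ↔ (nxt x (nxt x s u) (-u)).val < q) := h2
  rw [nxt_backT ho h] at h3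
  tauto

open Classical in
/-- the gluing vector of the facet `u` of a copy with the phase `s` -/
noncomputable def Phase.vec (P : HPoly E) (x : E → ZMod (2 * q)) (s : ZMod (2 * q)) (u : E) : E :=
  if u ∈ Inv x s then (if h : Csym P u then h.choose else 0) else (if h : Tra P u then h.2.choose else 0)

/-- the gluing data of a system of phases -/
noncomputable def Phase.glue (h : Phase P q x) : SGlue P (ZMod (2 * q)) where
  I := Inv x
  c := Phase.vec P x
  nx := nxt x
  s0 := 0
  inv := by
    intro s u hu hI z hz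
    have hc := h.csym u hu (ne_zero_of_Inv hI)
    have e : Phase.vec P x s u = hc.choose := by
      unfold Phase.vec
      rw [if_pos hI, dif_pos hc]
    rw [e]
    exact hc.choose_spec z hz
  negN := fun s u hu hI => (h.tra u hu (ne_q_of_notInv h.pos hI)).1
  tr := by
    intro s u hu hI z hz
    have hc := h.tra u hu (ne_q_of_notInv h.pos hI)
    have e : Phase.vec P x s u = hc.2.choose := by
      unfold Phase.vec
      rw [if_neg hI, dif_pos hc]
    rw [e]
    exact (hc.2.choose_spec z).1 hz
  backI := fun s u hu hI => ⟨Inv_back hI, nxt_back hI⟩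
  backT := fun s u hu hI =>
    ⟨Inv_backT (h.odd u hu (ne_q_of_notInv h.pos hI)) hI, nxt_backT (h.odd u hu (ne_q_of_notInv h.pos hI)) hI⟩

end Pool.FX65
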