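import Pool.Agent.FX65.Fin
import Pool.Agent.FF24.LimS

set_option autoImplicit false

/-!
# FX65/Lim: the field `lim` of `FF65.Stars` (state version of FF24/LimS)
-/

open Set Metric Filter Topology
open scoped RealInnerProductSpace

namespace Pool.FX65

open Pool.FF24 (HPoly)

variable {E : Type*} [NormedAddCommGroup E] [InnerProductSpace ℝ E] {S : Type*} {P : HPoly E}
  (g : SGlue P S)

theorem body_compact [FiniteDimensional ℝ E] : IsCompact P.body := FF24.body_compactS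

theorem dist_crd {τ : ℝ × E × S} (h : τ.1 = 1 ∨ τ.1 = -1) (z q : E) :
    dist (crd τ z) (crd τ q) = dist z q := by
  have h1 : ‖τ.1‖ = 1 := by rcases h with h | h <;> simp [h]
  rw [dist_eq_norm, dist_eq_norm, crd, crd, ← smul_sub, norm_smul, h1, one_mul,
    sub_sub_sub_cancel_right]

theorem dist_X {τ : ℝ × E × S} (h : τ.1 = 1 ∨ τ.1 = -1) (z q : E) :
    dist (X τ z) (X τ q) = dist z q := by
  have h1 : ‖τ.1‖ = 1 := by rcases h with h | h <;> simp [h]
  rw [dist_eq_norm, dist_eq_norm, X, X, add_sub_add_right_eq_sub, ← smul_sub, norm_smul, h1,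
    one_mul]

/-- one number for all states -/
theorem near_all [Finite S] {y : E} (hy : y ∈ P.body) : ∃ δ > 0, ∀ τ : g.Lab,
    ∀ y' ∈ W g τ.1.2.2 y, ∀ u ∈ P.N, ∀ z ∈ P.fc u, dist z y'.2 < δ → y'.2 ∈ P.fc u := by
  have hfin : (⋃ s ∈ {s : S | ∃ τ : g.Lab, τ.1.2.2 = s}, W g s y).Finite := by
    refine Set.Finite.biUnion (Set.toFinite _) ?_
    rintro s ⟨τ, rfl⟩
    have hc : crd τ.1 (X τ.1 y) = y := crd_X (sign g τ) y
    have hp : X τ.1 y ∈ g.K τ := by
      change crd τ.1 (X τ.1 y) ∈ P.body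
      rw [hc]
      exact hy
    have h := W_finite g hp
    rwa [hc] at h
  obtain ⟨δ, hδ, h⟩ := near (P := P) hfin
  exact ⟨δ, hδ, fun τ y' hy' => h y' (mem_biUnion ⟨τ, rfl⟩ hy')⟩

theorem lim_field [Finite S] [FiniteDimensional ℝ E] (p : E) (f : ℕ → E) (τ : ℕ → g.Lab)
    (h : ∀ n, f n ∈ g.K (τ n)) (hf : Tendsto f atTop (𝓝 p)) :
    ∃ δ > 0, ∃ᶠ n in atTop, ∃ B : Set g.Lab, B.Finite ∧ τ n ∈ B ∧
      ∀ σ ∈ B, ∀ z, dist z p < δ → ∀ σ', g.R z σ σ' → σ' ∈ B := by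
  obtain ⟨y, hy, φ, hφ, hlim⟩ := (body_compact (P := P)).tendsto_subseq
    (x := fun n => crd (τ n).1 (f n)) h
  obtain ⟨δ, hδ, hnear⟩ := near_all g hy
  refine ⟨δ / 2, half_pos hδ, ?_⟩
  have e1 : ∀ᶠ m in atTop, dist (crd (τ (φ m)).1 (f (φ m))) y < δ / 4 :=
    hlim (ball_mem_nhds y (by positivity))
  have e2 : ∀ᶠ m in atTop, dist (f (φ m)) p < δ / 4 :=
    (hf.comp hφ.tendsto_atTop) (ball_mem_nhds p (by positivity))
  refine hφ.tendsto_atTop.frequently (Eventually.frequently ?_)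
  filter_upwards [e1, e2] with m h1 h2
  set σ₀ := τ (φ m) with hσ₀
  set q := X σ₀.1 y with hq
  have hs₀ := sign g σ₀
  have hcq : crd σ₀.1 q = y := crd_X hs₀ y
  have hqK : q ∈ g.K σ₀ := by
    change crd σ₀.1 q ∈ P.body
    rw [hcq]
    exact hy
  have hqp : dist q p < δ / 2 := by
    have h3 : dist q (f (φ m)) < δ / 4 := by
      rw [← dist_crd hs₀ q, hcq, dist_comm]
      exact h1
    exact lt_of_le_of_lt (dist_triangle q (f (φ m)) p) (by linarith)
  refine ⟨{σ | g.R q σ₀ σ}, star_finite g q σ₀, R_refl g hqK, ?_⟩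
  intro σ hσ z hz σ' hR
  have hR2 := hR.2
  clear hR
  induction hR2 with
  | refl => exact hσ
  | @tail a b _ hst ih =>
    obtain ⟨u, hu, hzu, hb⟩ := hst
    have hW : (a.1.2.2, crd a.1 q) ∈ W g σ₀.1.2.2 y := by
      have := crd_mem_W g (show g.R q σ₀ a from ih)
      rwa [hcq] at this
    have hd : dist (crd a.1 z) (crd a.1 q) < δ := by
      rw [dist_crd (sign g a)]
      have := dist_triangle_right z q p
      linarith
    exact R_step g ih ⟨u, hu, hnear σ₀ _ hW u hu _ hzu hd, hb⟩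

end Pool.FX65
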