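import Pool.Agent.FX65.Basic

set_option autoImplicit false

/-!
# FX65/LocDef: the cone of a tile at a point, the steps through walls which contain a direction
-/

open Set Metric
open scoped RealInnerProductSpace

namespace Pool.FX65

open Pool.FF24 (HPoly)

variable {E : Type*} [NormedAddCommGroup E] [InnerProductSpace ℝ E] {S : Type*} {P : HPoly E}
  (g : SGlue P S)

/-- the cone of the tile `σ` at `p` -/
def cone (p : E) (σ : g.Lab) : Set E := {x | ∀ u ∈ P.act (crd σ.1 p), σ.1.1 * ⟪u, x⟫ ≤ 0}

/-- steps of the star of `p` through walls which contain the direction `x` -/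
def StC (p x : E) (σ σ' : g.Lab) : Prop :=
  x ∈ cone g p σ ∧ ∃ u ∈ P.act (crd σ.1 p), σ.1.1 * ⟪u, x⟫ = 0 ∧ σ'.1 = g.nb u σ.1

end Pool.FX65
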