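import Pool.Agent.FX65.Fin
import Pool.Agent.FX65.LocDef
import Pool.Agent.FX65.LocA
import Pool.Agent.FX65.LocI

set_option autoImplicit false

/-!
# FX65/Loc: the star at a point and its cones

`K_near`: for `u` not active at `crd σ p` the inequality is strict; finitely many `u`.
`loc_of_cone`: the star is finite; take the smallest of the numbers of `K_near` for its members. For `q` near `p`,
`x = q - p`: `q ∈ K σ ↔ x ∈ cone p σ`, and the steps at `q` from a member `σ` of the star are exactly the steps of `StC p x`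
(they are steps at `p`, so they stay in the star).
-/

open Set Metric
open scoped RealInnerProductSpace

namespace Pool.FX65

open Pool.FF24 (HPoly)

variable {E : Type*} [NormedAddCommGroup E] [InnerProductSpace ℝ E] {S : Type*} {P : HPoly E}
  (g : SGlue P S)

theorem K_near {p : E} {σ : g.Lab} (hp : p ∈ g.K σ) : ∃ ρ > 0, ∀ q, dist q p < ρ →
    (q ∈ g.K σ ↔ q - p ∈ cone g p σ) ∧
    ∀ u ∈ P.N, q ∈ g.K σ → (crd σ.1 q ∈ P.fc u ↔
      u ∈ P.act (crd σ.1 p) ∧ σ.1.1 * ⟪u, q - p⟫ = 0) :=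
  K_near' g hp

theorem loc_of_cone [Finite S] {p : E} {τ : g.Lab} (hp : p ∈ g.K τ)
    (hcov : ∀ x, ∃ σ, g.R p τ σ ∧ x ∈ cone g p σ)
    (hjoin : ∀ x σ σ', g.R p τ σ → g.R p τ σ' → x ∈ cone g p σ → x ∈ cone g p σ' →
      Relation.ReflTransGen (StC g p x) σ σ') :
    ∃ ρ > 0, (∀ q, dist q p < ρ → ∃ σ, g.R p τ σ ∧ q ∈ g.K σ) ∧
      ∀ q, dist q p < ρ → ∀ σ, g.R p τ σ → q ∈ g.K σ →
        ∀ σ', g.R q σ σ' ↔ g.R p τ σ' ∧ q ∈ g.K σ' :=
  loc_of_cone' g hp hcov hjoin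

/-- interior points -/
theorem cone_zero {p : E} {τ : g.Lab} (hp : p ∈ g.K τ) (h : P.act (crd τ.1 p) = ∅) :
    (∀ x, ∃ σ, g.R p τ σ ∧ x ∈ cone g p σ) ∧
    ∀ x σ σ', g.R p τ σ → g.R p τ σ' → x ∈ cone g p σ → x ∈ cone g p σ' →
      Relation.ReflTransGen (StC g p x) σ σ' := by
  refine ⟨fun x => ⟨τ, R_refl g hp, fun u hu => ?_⟩, fun x σ σ' h1 h2 _ _ => ?_⟩
  · rw [h] at hu
    exact absurd hu (notMem_empty u)
  · rw [eq_of_act g h h1, eq_of_act g h h2]

end Pool.FX65
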