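import Pool.Agent.FX65.Nec28
import Pool.Agent.FX65.Suff
import Pool.Agent.FX24.PerT

set_option autoImplicit false

/-!
# FX65/Main: a polytope has a facet-to-facet tiling by translates of `P` and `-P` iff it has a system of phases with
the ridge condition; then it has a periodic one
-/

open Set Metric
open scoped RealInnerProductSpace

namespace Pool.FX65

open Pool.FF24 Pool.FF56 Pool.FF57

variable {E : Type*} [NormedAddCommGroup E] [InnerProductSpace ℝ E] {P : HPoly E}

/-- THE MAIN THEOREM -/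
theorem main [FiniteDimensional ℝ E] : (∃ T : Set (ℝ × E), IsFF P T) ↔
    ∃ q : ℕ, ∃ x : E → ZMod (2 * q), ∃ h : FX56.Phases P q x, h.glue.Cyc := by
  constructor
  · rintro ⟨T, hT⟩
    exact nec hT
  · rintro ⟨q, x, h, hC⟩
    have : NeZero (2 * q) := ⟨by have := h.pos; omega⟩
    exact suf h.glue hC

/-- the periodic form -/
theorem periodic [FiniteDimensional ℝ E] {T : Set (ℝ × E)} (hT : IsFF P T) :
    ∃ T' : Set (ℝ × E), IsFF P T' ∧ ∃ b : Module.Basis (Fin (Module.finrank ℝ E)) ℝ E,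
      ∀ i τ, τ ∈ T' ↔ (τ.1, τ.2 + b i) ∈ T' := by
  obtain ⟨q, x, h, hC⟩ := nec hT
  have : NeZero (2 * q) := ⟨by have := h.pos; omega⟩
  obtain ⟨h1, b, hb⟩ := FX24.periodic_tiles h.glue hC
  exact ⟨_, h1, b, hb⟩

end Pool.FX65
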