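import Pool.Agent.FX65.Tile28

set_option autoImplicit false

/-!
# FX65/Phase28: the phases of the facets

`exists_x`: phases `x b` with values in `ZMod (2 q)`: `0` or `q` for the facets of a fixed type, odd, and additive in
the belts of the facets which vary.
-/

open Set Metric
open scoped RealInnerProductSpace

namespace Pool.FX65

open Pool.FF24 Pool.FF56 Pool.FF57

variable {E : Type*} [NormedAddCommGroup E] [InnerProductSpace ℝ E] {P : HPoly E} {T : Set (ℝ × E)}
  {τ σ : ℝ × E} {a b C C' W W' : E}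

/-- both displacements of a pair of facets -/
def Dsp2 (P : HPoly E) (C b W : E) : Prop :=
  b ∈ P.N ∧ -b ∈ P.N ∧ Dsp P C b W ∧ Dsp P C (-b) (-W)

theorem Dsp2.neg (h : Dsp2 P C b W) : Dsp2 P C (-b) (-W) :=
  ⟨h.2.1, by rw [neg_neg]; exact h.1, h.2.2.2, by rw [neg_neg, neg_neg]; exact h.2.2.1⟩

theorem dsp_self (hc : Csym P b) (ht : Tra P b) (hC : IsC P b C) : ∃ W, Dsp2 P C b W := by
  obtain ⟨cb, hcb⟩ := hc
  obtain ⟨h2, t, ht⟩ := ht
  have hu : ∀ t' : E, (∀ z : E, z ∈ P.fc b ↔ z + t' ∈ P.fc (-b)) → t' = t := by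
    intro t' ht'
    have : t' - t = 0 := by
      refine shift_zero (fc_bdd P b) (fc_ne P hC.1) fun z hz => ?_
      have h3 := (ht' z).1 hz
      have e : z + t' = z + (t' - t) + t := by abel
      rw [e] at h3
      exact (ht _).2 h3
    exact sub_eq_zero.1 this
  have hCe : ∀ cb' : E, (∀ z ∈ P.fc b, cb' - z ∈ P.fc b) → cb' - C = -t := by
    intro cb' h
    rw [IsC.unique hC (isC_of hC.1 h2 h ht)]
    abel
  refine ⟨-t, hC.1, h2, ⟨hCe, fun t' ht' => by rw [hu t' ht']⟩, ?_, ?_⟩
  · intro c hc'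
    have h3 := hCe (c - (2 : ℝ) • t) fun z hz => by
      have h4 := hc' _ ((ht z).1 hz)
      have e : c - (z + t) = (c - (2 : ℝ) • t - z) + t := by module
      rw [e] at h4
      exact (ht _).2 h4
    rw [neg_neg]
    have : c - C = (c - (2 : ℝ) • t - C) + (2 : ℝ) • t := by abel
    rw [this, h3]
    module
  · intro t' ht'
    rw [neg_neg] at ht'
    have : t + t' = 0 := by
      refine shift_zero (fc_bdd P b) (fc_ne P hC.1) fun z hz => ?_
      have h4 := (ht' _).1 ((ht z).1 hz)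
      rwa [add_assoc] at h4
    rw [neg_neg, neg_eq_iff_add_eq_zero, add_comm]
    exact this

theorem csym_or_tra (hT : IsFF P T) (hb : b ∈ P.N) : Csym P b ∨ Tra P b := by
  obtain ⟨τ, hτ, -⟩ := hT.cover 0
  obtain ⟨σ, -, -, -, h | h⟩ := hT.cases hτ hb
  · exact Or.inl h.2
  · exact Or.inr h.2

/-- the centres -/
def Ctr (P : HPoly E) (T : Set (ℝ × E)) (C : E) : Prop := ∃ a, Varies P T a ∧ IsC P a C

theorem fin_ctr (P : HPoly E) (T : Set (ℝ × E)) : Finite {C : E // Ctr P T C} := by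
  classical
  have h : {C : E | Ctr P T C}.Finite := by
    refine ((P.N.finite_toSet).image fun a => if h : ∃ C, IsC P a C then h.choose else 0).subset ?_
    rintro C ⟨a, -, hC⟩
    refine ⟨a, hC.1, ?_⟩
    have h : ∃ C, IsC P a C := ⟨C, hC⟩
    simp only [dif_pos h]
    exact IsC.unique h.choose_spec hC
  exact h

theorem exists_x (hT : IsFF P T) : ∃ q : ℕ, 0 < q ∧ ∃ x : E → ZMod (2 * q),
    (∀ b ∈ P.N, ∀ s, ¬ Varies P T b → Typ P T b s → x b = if s = 0 then 0 else (q : ZMod (2 * q))) ∧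
    (∀ b ∈ P.N, -b ∈ P.N → x (-b) = - x b) ∧
    ∀ C, Ctr P T C → ∀ b W b' W' b'' W'' : E, Dsp2 P C b W → Dsp2 P C b' W' → Dsp2 P C b'' W'' →
      W = W' + W'' → x b = x b' + x b'' := by
  classical
  have hfin := fin_ctr P T
  let Wf : {C : E // Ctr P T C} → E → E := fun C b => if h : ∃ W, Dsp P C b W then h.choose else 0
  have := Fintype.ofFinite {C : E // Ctr P T C}
  let A : Finset E := Finset.univ.biUnion fun C : {C : E // Ctr P T C} => P.N.image (Wf C)
  have hWf : ∀ (C : {C : E // Ctr P T C}) (b W : E), b ∈ P.N → Dsp P C b W → Wf C b = W := by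
    intro C b W hb hd
    have h : ∃ W, Dsp P C b W := ⟨W, hd⟩
    have e : Wf C b = h.choose := dif_pos h
    rw [e]
    exact Dsp.unique (csym_or_tra hT hb) h.choose_spec hd
  have hA : ∀ (C : {C : E // Ctr P T C}) (b : E), b ∈ P.N → Wf C b ∈ AddSubgroup.closure (A : Set E) := by
    intro C b hb
    refine AddSubgroup.subset_closure ?_
    rw [Finset.mem_coe, Finset.mem_biUnion]
    exact ⟨C, Finset.mem_univ _, Finset.mem_image_of_mem _ hb⟩
  obtain ⟨q, hq, φ, hφ⟩ := phases (fun C : {C : E // Ctr P T C} => AddSubgroup.closure (Gen P T C))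
    (fun C s hs => by
      obtain ⟨a, -, hC⟩ := C.2
      exact no_sign hT hC s hs) A
  let x : E → ZMod (2 * q) := fun b =>
    if hb : Varies P T b then
      φ ⟨(exists_isC hT hb).choose, b, hb, (exists_isC hT hb).choose_spec⟩
        ⟨Wf ⟨(exists_isC hT hb).choose, b, hb, (exists_isC hT hb).choose_spec⟩ b,
          hA _ b (FF28.varies_data hT hb).1⟩
    else if Typ P T b 0 then 0 else (q : ZMod (2 * q))
  have hq2 : (q : ZMod (2 * q)) + q = 0 := by
    have : ((2 * q : ℕ) : ZMod (2 * q)) = 0 := ZMod.natCast_self _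
    rw [← this]
    push_cast
    ring
  -- the value of `x` in terms of the character
  have key : ∀ (C : {C : E // Ctr P T C}) (b W : E), Dsp2 P C b W →
      ∃ hW : W ∈ AddSubgroup.closure (A : Set E), x b = φ C ⟨W, hW⟩ := by
    rintro C b W ⟨hb, hb', hd, hd'⟩
    have e := hWf C b W hb hd
    have hW : W ∈ AddSubgroup.closure (A : Set E) := by
      rw [← e]
      exact hA C b hb
    refine ⟨hW, ?_⟩
    by_cases hv : Varies P T b
    · have hx : x b = _ := dif_pos hv
      rw [hx]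
      obtain ⟨-, ht, hc⟩ := FF28.varies_data hT hv
      have e2 : (exists_isC hT hv).choose = C.1 := isC_eq hc ht hd (exists_isC hT hv).choose_spec
      have e3 : (⟨(exists_isC hT hv).choose, b, hv, (exists_isC hT hv).choose_spec⟩ : {C : E // Ctr P T C}) =
        C := Subtype.ext e2
      have e4 : ∀ (C' : {C : E // Ctr P T C}) (h : Wf C' b ∈ AddSubgroup.closure (A : Set E)), C' = C →
          φ C' ⟨Wf C' b, h⟩ = φ C ⟨W, hW⟩ := by
        rintro C' h rfl
        congr 1
        exact Subtype.ext e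
      exact e4 _ _ e3
    · have hx : x b = if Typ P T b 0 then 0 else (q : ZMod (2 * q)) := dif_neg hv
      obtain ⟨s, hs⟩ := exists_typ hT hv
      have h1 := hφ C ⟨W, hW⟩ s (AddSubgroup.subset_closure ⟨b, hb, hb', hd, hd', hs⟩)
      rw [h1, hx]
      by_cases h0 : s = 0
      · subst h0
        rw [if_pos hs, if_pos rfl]
      · rw [if_neg h0, if_neg]
        intro h2
        obtain ⟨τ, hτ, -⟩ := hT.cover 0
        obtain ⟨σ, hσ⟩ := exists_crs hT hτ hb
        have h3 := hs τ σ b (Or.inl rfl) hσ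
        have h4 := h2 τ σ b (Or.inl rfl) hσ
        unfold sg at h3 h4
        rw [if_neg h0] at h3
        rw [if_pos rfl] at h4
        rw [h3] at h4
        rcases hT.sign τ hτ with h | h <;> rw [h] at h4 <;> norm_num at h4
  refine ⟨q, hq, x, ?_, ?_, ?_⟩
  · intro b hb s hv hs
    have hx : x b = if Typ P T b 0 then 0 else (q : ZMod (2 * q)) := dif_neg hv
    rw [hx]
    by_cases h0 : s = 0
    · subst h0
      rw [if_pos hs, if_pos rfl]
    · rw [if_neg h0, if_neg]
      intro h2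
      obtain ⟨τ, hτ, -⟩ := hT.cover 0
      obtain ⟨σ, hσ⟩ := exists_crs hT hτ hb
      have h3 := hs τ σ b (Or.inl rfl) hσ
      have h4 := h2 τ σ b (Or.inl rfl) hσ
      unfold sg at h3 h4
      rw [if_neg h0] at h3
      rw [if_pos rfl] at h4
      rw [h3] at h4
      rcases hT.sign τ hτ with h | h <;> rw [h] at h4 <;> norm_num at h4
  · intro b hb hb'
    by_cases hv : Varies P T b
    · obtain ⟨-, ht, hc⟩ := FF28.varies_data hT hv
      obtain ⟨C, hC⟩ := exists_isC hT hv
      obtain ⟨W, hW⟩ := dsp_self hc ht hC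
      obtain ⟨m1, e1⟩ := key ⟨C, b, hv, hC⟩ b W hW
      obtain ⟨m2, e2⟩ := key ⟨C, b, hv, hC⟩ (-b) (-W) hW.neg
      rw [e1, e2, ← map_neg]
      congr 1
    · have hv' : ¬ Varies P T (-b) := by
        intro h
        apply hv
        obtain ⟨⟨τ, σ, u, h1, h2, h3⟩, τ', σ', u', h1', h2', h3'⟩ := h
        rw [neg_neg] at h1 h1'
        exact ⟨⟨τ, σ, u, h1.symm, h2, h3⟩, τ', σ', u', h1'.symm, h2', h3'⟩
      have hx : x b = if Typ P T b 0 then 0 else (q : ZMod (2 * q)) := dif_neg hv
      have hx' : x (-b) = if Typ P T (-b) 0 then 0 else (q : ZMod (2 * q)) := dif_neg hv'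
      have hiff : Typ P T (-b) 0 ↔ Typ P T b 0 := by
        unfold Typ
        rw [neg_neg]
        constructor
        · intro h τ σ u hu; exact h τ σ u hu.symm
        · intro h τ σ u hu; exact h τ σ u hu.symm
      rw [hx, hx']
      simp only [hiff]
      by_cases h0 : Typ P T b 0
      · rw [if_pos h0, neg_zero]
      · rw [if_neg h0]
        exact eq_neg_of_add_eq_zero_left hq2
  · intro C hC b W b' W' b'' W'' h h' h'' he
    obtain ⟨m1, e1⟩ := key ⟨C, hC⟩ b W h
    obtain ⟨m2, e2⟩ := key ⟨C, hC⟩ b' W' h'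
    obtain ⟨m3, e3⟩ := key ⟨C, hC⟩ b'' W'' h''
    rw [e1, e2, e3, ← map_add]
    congr 1
    exact Subtype.ext he

end Pool.FX65
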