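import Pool.Agent.FX65.Glue28
import Pool.Agent.FX65.Phase28

set_option autoImplicit false

/-!
# FX65/PhaseT28: the phases of a facet-to-facet tiling

`exists_phase`: a facet-to-facet tiling has a system of phases (`Phase`), `0` or `q` at the facets of a fixed type,
additive in the belts of the facets which vary.
-/

open Set Metric
open scoped RealInnerProductSpace

namespace Pool.FX65

open Pool.FF24 Pool.FF56 Pool.FF57

variable {E : Type*} [NormedAddCommGroup E] [InnerProductSpace ℝ E] {P : HPoly E} {T : Set (ℝ × E)}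
  {τ σ : ℝ × E} {a b C C' W W' : E}

theorem typ_zero (hT : IsFF P T) (hb : b ∈ P.N) (h : Typ P T b 0) : Tra P b := by
  obtain ⟨τ, hτ, -⟩ := hT.cover 0
  obtain ⟨σ, hσ⟩ := exists_crs hT hτ hb
  have h1 := h τ σ b (Or.inl rfl) hσ
  unfold sg at h1
  rw [if_pos rfl, one_mul] at h1
  rcases FF28.crs_cases hT hσ with ⟨e, -⟩ | ⟨-, e⟩
  · exfalso
    rw [h1] at e
    rcases hT.sign τ hτ with h | h <;> rw [h] at e <;> norm_num at e
  · exact e

theorem typ_one (hT : IsFF P T) (hb : b ∈ P.N) {s : ZMod 2} (hs : s ≠ 0) (h : Typ P T b s) :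
    Csym P b := by
  obtain ⟨τ, hτ, -⟩ := hT.cover 0
  obtain ⟨σ, hσ⟩ := exists_crs hT hτ hb
  have h1 := h τ σ b (Or.inl rfl) hσ
  unfold sg at h1
  rw [if_neg hs] at h1
  rcases FF28.crs_cases hT hσ with ⟨-, e⟩ | ⟨e, -⟩
  · exact e
  · exfalso
    rw [h1] at e
    rcases hT.sign τ hτ with h | h <;> rw [h] at e <;> norm_num at e

theorem exists_phase (hT : IsFF P T) : ∃ q : ℕ, ∃ x : E → ZMod (2 * q), Phase P q x ∧
    (∀ b ∈ P.N, ∀ s, ¬ Varies P T b → Typ P T b s → x b = if s = 0 then 0 else (q : ZMod (2 * q))) ∧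
    (∀ b ∈ P.N, -b ∈ P.N → x (-b) = - x b) ∧
    ∀ C, Ctr P T C → ∀ b W b' W' b'' W'' : E, Dsp2 P C b W → Dsp2 P C b' W' → Dsp2 P C b'' W'' →
      W = W' + W'' → x b = x b' + x b'' := by
  obtain ⟨q, hq, x, h1, h2, h3⟩ := exists_x hT
  have htra : ∀ u ∈ P.N, x u ≠ (q : ZMod (2 * q)) → Tra P u := by
    intro u hu hx
    by_cases hv : Varies P T u
    · exact (FF28.varies_data hT hv).2.1
    · obtain ⟨s, hs⟩ := exists_typ hT hv
      have e := h1 u hu s hv hs
      by_cases h0 : s = 0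
      · subst h0
        exact typ_zero hT hu hs
      · rw [if_neg h0] at e
        exact absurd e hx
  refine ⟨q, x, ⟨hq, ?_, htra, fun u hu hx => h2 u hu (htra u hu hx).1⟩, h1, h2, h3⟩
  intro u hu hx
  by_cases hv : Varies P T u
  · exact (FF28.varies_data hT hv).2.2
  · obtain ⟨s, hs⟩ := exists_typ hT hv
    have e := h1 u hu s hv hs
    by_cases h0 : s = 0
    · rw [if_pos h0] at e
      exact absurd e hx
    · exact typ_one hT hu h0 hs

end Pool.FX65
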