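import Pool.Agent.FX65.St
import Pool.Agent.FX65.PhaseT28
import Pool.Agent.FX56.Fixed

set_option autoImplicit false

/-!
# FX65/Nec28: NECESSITY: a facet-to-facet tiling gives phases which satisfy the ridge condition

`fixed_case`: the walks whose exits do not vary. `nec`: all walks.
-/

open Set Metric
open scoped RealInnerProductSpace

namespace Pool.FX65

open Pool.FF24 Pool.FF56 Pool.FF57

variable {E : Type*} [NormedAddCommGroup E] [InnerProductSpace ℝ E] {P : HPoly E} {T : Set (ℝ × E)}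

omit [NormedAddCommGroup E] [InnerProductSpace ℝ E] in
theorem even_of_filter {k : ℕ} {I : Set E} {J : ℕ → Set E} {a : ℕ → E × E} (h : ∀ i, (a i).2 ∈ J i ↔ (a i).2 ∈ I)
    [DecidablePred fun i => (a i).2 ∈ J i] [DecidablePred fun i => (a i).2 ∈ I] :
    ((Finset.range k).filter fun i => (a i).2 ∈ J i).card = ((Finset.range k).filter fun i => (a i).2 ∈ I).card := by
  congr 1
  ext i
  simp only [Finset.mem_filter, h]

open Classical in
theorem fixed_case [FiniteDimensional ℝ E] (hT : IsFF P T) {q : ℕ} {x : E → ZMod (2 * q)}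
    (h : FX56.Phases P q x)
    (hfix : ∀ b ∈ P.N, ∀ s, ¬ Varies P T b → Typ P T b s → x b = if s = 0 then 0 else (q : ZMod (2 * q)))
    {s : ℕ → ZMod (2 * q)} {a : ℕ → E × E}
    (hw : ∀ i, s (i + 1) = h.glue.nx (s i) (a i).2 ∧ h.glue.Cross (s i) (a i) (a (i + 1)))
    (hv : ∀ i, ¬ Varies P T (a i).2) :
    (a 3 = a 0 ∧ s 3 = s 0 ∧ Even (h.glue.nI s a 3)) ∨ (a 4 = a 0 ∧ s 4 = s 0 ∧ Even (h.glue.nI s a 4)) ∨
      (a 3 = a 0 ∧ ¬ Even (h.glue.nI s a 3) ∧ a 6 = a 0 ∧ s 6 = s 0 ∧ Even (h.glue.nI s a 6)) := by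
  obtain ⟨g, -, k2, k3⟩ := FX56.exists_glue_fixed hT
  obtain ⟨τ₀, hτ₀, -⟩ := hT.cover 0
  have hmem : ∀ i, (a i).1 ∈ P.N ∧ (a i).2 ∈ P.N := by
    intro i
    obtain ⟨-, -, -, y, -, hy, -⟩ := (hw i).2
    have h1 : (a i).1 ∈ P.act y := by rw [hy]; simp
    have h2 : (a i).2 ∈ P.act y := by rw [hy]; simp
    exact ⟨h1.1, h2.1⟩
  -- the types
  have htyp : ∀ i, ((a i).2 ∈ g.I ∧ x (a i).2 = q) ∨ ((a i).2 ∉ g.I ∧ x (a i).2 = 0) := by
    intro i
    obtain ⟨t, ht⟩ := exists_typ hT (hv i)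
    have hx := hfix _ (hmem i).2 t (hv i) ht
    obtain ⟨σ, hσ⟩ := exists_crs hT hτ₀ (hmem i).2
    have h1 := (k2 τ₀ σ _ hσ (hv i)).1
    have h2 := ht τ₀ σ _ (Or.inl rfl) hσ
    have h0 : τ₀.1 ≠ -τ₀.1 := by
      rcases hT.sign τ₀ hτ₀ with h3 | h3 <;> rw [h3] <;> norm_num
    unfold sg at h2
    by_cases ht0 : t = 0
    · right
      rw [if_pos ht0] at hx h2
      rw [one_mul] at h2
      refine ⟨fun h3 => h0 ?_, hx⟩
      rw [← h2]
      exact (h1.1 h3).trans (by rw [h2])
    · left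
      rw [if_neg ht0] at hx h2
      refine ⟨h1.2 (by rw [h2]; ring), hx⟩
  have hI : ∀ i (t : ZMod (2 * q)), (a i).2 ∈ h.glue.I t ↔ (a i).2 ∈ g.I := by
    intro i t
    rcases htyp i with ⟨h1, h2⟩ | ⟨h1, h2⟩
    · exact ⟨fun _ => h1, fun _ => FX56.inv_of_eq_q h.pos h2 t⟩
    · refine ⟨fun h3 => absurd h2 (FX56.ne_zero_of_inv (x := x) (th := t) h3), fun h3 => absurd h3 h1⟩
  have hnI : ∀ k, h.glue.nI s a k = ((Finset.range k).filter fun i => (a i).2 ∈ g.I).card := by
    intro k
    exact even_of_filter fun i => hI i (s i)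
  -- the walk is a walk of `g`
  have hg : ∀ i, g.Cross (a i) (a (i + 1)) := by
    intro i
    obtain ⟨h1, h2, h3, y, hy, h4, h5⟩ := (hw i).2
    have hyf : y ∈ P.fc (a i).2 := ⟨hy, by
      have : (a i).2 ∈ P.act y := by rw [h4]; simp
      exact this.2⟩
    refine ⟨h1, h2, ?_, y, hy, h4, ?_⟩
    · rw [h3]
      unfold SGlue.star Glue.star
      by_cases h6 : (a i).2 ∈ g.I
      · rw [if_pos h6, if_pos ((hI i (s i)).2 h6)]
      · rw [if_neg h6, if_neg fun h7 => h6 ((hI i (s i)).1 h7)]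
    · rw [← h5]
      congr 1
      unfold SGlue.j Glue.j
      by_cases h6 : (a i).2 ∈ g.I
      · have h7 := (hI i (s i)).2 h6
        rw [if_pos h6, if_pos h7, FX56.c_uniqI (hmem i).2 (g.inv _ (hmem i).2 h6) (h.glue.inv _ _ (hmem i).2 h7)]
      · have h7 : (a i).2 ∉ h.glue.I (s i) := fun h7 => h6 ((hI i (s i)).1 h7)
        rw [if_neg h6, if_neg h7, FX56.c_uniqT (hmem i).2 (g.tr _ (hmem i).2 h6) (h.glue.tr _ _ (hmem i).2 h7)
          (b := g.c (-(a i).2)) (by
            intro z hz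
            have h2 := g.tr _ (g.negN _ (hmem i).2 h6) (g.negI _ (hmem i).2 h6) z hz
            rwa [neg_neg] at h2)]
  -- the phases
  have hs : ∀ k, s k = s 0 + (((Finset.range k).filter fun i => (a i).2 ∈ g.I).card : ZMod (2 * q)) * q := by
    intro k
    induction k with
    | zero => simp
    | succ k ih =>
      have e1 : s (k + 1) = FX56.nxt x (s k) (a k).2 := (hw k).1
      have e2 : FX56.nxt x (s k) (a k).2 = s k + x (a k).2 := by
        unfold FX56.nxt
        split
        · rfl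
        · rcases htyp k with ⟨-, h2⟩ | ⟨-, h2⟩
          · rw [h2, sub_eq_add_neg, FX56.neg_q]
          · rw [h2, sub_zero, add_zero]
      rw [e1, e2, Finset.range_add_one, Finset.filter_insert]
      rcases htyp k with ⟨h1, h2⟩ | ⟨h1, h2⟩
      · rw [if_pos h1, Finset.card_insert_of_notMem (by simp), h2, ih]
        push_cast
        ring
      · rw [if_neg h1, h2, add_zero, ih]
  have heven : ∀ k, Even (((Finset.range k).filter fun i => (a i).2 ∈ g.I).card) → s k = s 0 := by
    intro k hk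
    obtain ⟨m, hm⟩ := hk
    rw [hs k, hm]
    push_cast
    have : ((m : ZMod (2 * q)) + m) * q = m * (q + q) := by ring
    rw [this, FX56.q_add_q, mul_zero, add_zero]
  rcases FX56.fixed_walk hT g (V := {u | Varies P T u}) (fun τ hτ u hu hV => k3 τ hτ u hu hV) hg hv with h3 | ⟨h4, h5⟩
  · by_cases he : Even (h.glue.nI s a 3)
    · exact Or.inl ⟨h3, heven 3 (by rw [← hnI]; exact he), he⟩
    · right; right
      have hper : ∀ i, a (i + 3) = a i := by
        intro i
        induction i with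
        | zero => exact h3
        | succ i ih =>
          have h6 := hg (i + 3)
          rw [ih] at h6
          have e : i + 1 + 3 = i + 3 + 1 := by ring
          rw [e]
          exact FF79.cross_fun g h6 (hg i)
      have h6 : a 6 = a 0 := (hper 3).trans h3
      have hcard : ((Finset.range 6).filter fun i => (a i).2 ∈ g.I).card =
          ((Finset.range 3).filter fun i => (a i).2 ∈ g.I).card +
            ((Finset.range 3).filter fun i => (a i).2 ∈ g.I).card := by
        have e3 := hper 0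
        have e4 := hper 1
        have e5 := hper 2
        simp only [Finset.card_filter, Finset.sum_range_succ, Finset.sum_range_zero]
        rw [show (3 : ℕ) = 0 + 3 from rfl, show (4 : ℕ) = 1 + 3 from rfl, show (5 : ℕ) = 2 + 3 from rfl,
          hper 0, hper 1, hper 2]
        ring
      have he6 : Even (((Finset.range 6).filter fun i => (a i).2 ∈ g.I).card) := by
        rw [hcard]
        exact ⟨_, rfl⟩
      exact ⟨h3, he, h6, heven 6 he6, by rw [hnI]; exact he6⟩
  · refine Or.inr (Or.inl ⟨h4, heven 4 h5, ?_⟩)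
    rw [hnI]
    exact h5

/-- NECESSITY -/
theorem nec [FiniteDimensional ℝ E] (hT : IsFF P T) :
    ∃ q : ℕ, ∃ x : E → ZMod (2 * q), ∃ h : FX56.Phases P q x, h.glue.Cyc := by
  obtain ⟨q, x, ⟨h1, h2, h3, h4⟩, hfix, -, hadd⟩ := exists_phase hT
  let h : FX56.Phases P q x := ⟨h1, h2, h3, h4⟩
  refine ⟨q, x, h, fun s a hw => ?_⟩
  by_cases hv : ∃ i, Varies P T (a i).2
  · rcases st hT h hadd hw hv with h5 | h5
    · exact Or.inl h5
    · exact Or.inr (Or.inl h5)
  · push Not at hv
    exact fixed_case hT h hfix hw hv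

end Pool.FX65
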