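import Pool.Agent.FX65.Phase28

set_option autoImplicit false

/-!
# FX65/Pow38: the number of phases can be taken to be a power of two

`exists_x` with `q = 2 ^ m`: if `q = 2 ^ m * r` with `r` odd, reduce the phases modulo `2 ^ (m + 1)`.
-/

open Set Metric
open scoped RealInnerProductSpace

namespace Pool.FX65

open Pool.FF24 Pool.FF56 Pool.FF57

theorem red38 {q : ℕ} (hq : 0 < q) : ∃ (m : ℕ) (f : ZMod (2 * q) →+* ZMod (2 * 2 ^ m)),
    f (q : ZMod (2 * q)) = ((2 ^ m : ℕ) : ZMod (2 * 2 ^ m)) := by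
  obtain ⟨m, r, hr, hqr⟩ := Nat.exists_eq_two_pow_mul_odd hq.ne'
  have hdvd : 2 * 2 ^ m ∣ 2 * q := ⟨r, by rw [hqr]; ring⟩
  refine ⟨m, ZMod.castHom hdvd (ZMod (2 * 2 ^ m)), ?_⟩
  rw [map_natCast, hqr]
  obtain ⟨k, hk⟩ := hr
  have h1 : ((2 * 2 ^ m : ℕ) : ZMod (2 * 2 ^ m)) = 0 := ZMod.natCast_self _
  have h2 : 2 ^ m * r = k * (2 * 2 ^ m) + 2 ^ m := by rw [hk]; ring
  rw [h2, Nat.cast_add, Nat.cast_mul, h1, mul_zero, zero_add]

variable {E : Type*} [NormedAddCommGroup E] [InnerProductSpace ℝ E] {P : HPoly E} {T : Set (ℝ × E)}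

theorem exists_x_pow (hT : IsFF P T) : ∃ m : ℕ, ∃ x : E → ZMod (2 * 2 ^ m),
    (∀ b ∈ P.N, ∀ s, ¬ Varies P T b → Typ P T b s →
      x b = if s = 0 then 0 else ((2 ^ m : ℕ) : ZMod (2 * 2 ^ m))) ∧
    (∀ b ∈ P.N, -b ∈ P.N → x (-b) = - x b) ∧
    ∀ C, Ctr P T C → ∀ b W b' W' b'' W'' : E, Dsp2 P C b W → Dsp2 P C b' W' → Dsp2 P C b'' W'' →
      W = W' + W'' → x b = x b' + x b'' := by
  obtain ⟨q, hq, x, h1, h2, h3⟩ := exists_x hT
  obtain ⟨m, f, hf⟩ := red38 hq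
  refine ⟨m, fun b => f (x b), ?_, ?_, ?_⟩
  · intro b hb s hv hs
    change f (x b) = _
    rw [h1 b hb s hv hs]
    split_ifs
    · exact map_zero f
    · exact hf
  · intro b hb hb'
    change f (x (-b)) = - f (x b)
    rw [h2 b hb hb', map_neg]
  · intro C hC b W b' W' b'' W'' k k' k'' e
    change f (x b) = f (x b') + f (x b'')
    rw [h3 C hC b W b' W' b'' W'' k k' k'' e, map_add]

end Pool.FX65
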