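import Pool.Agent.FX65.Main
import Pool.Agent.FX65.Pow38

set_option autoImplicit false

/-!
# FX65/NecPow38: the phases can be taken modulo a power of two

`nec_pow`: as `nec`, with `q = 2 ^ m`. `main_pow`: a polytope has a facet-to-facet tiling by translates of `P` and `-P`
iff it has, for some `m`, a system of phases modulo `2 ^ (m + 1)` with the ridge condition.
-/

open Set Metric
open scoped RealInnerProductSpace

namespace Pool.FX65

open Pool.FF24 Pool.FF56 Pool.FF57

variable {E : Type*} [NormedAddCommGroup E] [InnerProductSpace ℝ E] {P : HPoly E} {T : Set (ℝ × E)}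

theorem phases_of_x (hT : IsFF P T) {q : ℕ} (hq : 0 < q) {x : E → ZMod (2 * q)}
    (h1 : ∀ b ∈ P.N, ∀ s, ¬ Varies P T b → Typ P T b s → x b = if s = 0 then 0 else (q : ZMod (2 * q)))
    (h2 : ∀ b ∈ P.N, -b ∈ P.N → x (-b) = - x b) : FX56.Phases P q x := by
  have htra : ∀ u ∈ P.N, x u ≠ (q : ZMod (2 * q)) → Tra P u := by
    intro u hu hx
    by_cases hv : Varies P T u
    · exact (FF28.varies_data hT hv).2.1
    · obtain ⟨s, hs⟩ := exists_typ hT hv
      have e := h1 u hu s hv hs
      by_cases h0 : s = 0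
      · subst h0
        exact typ_zero hT hu hs
      · rw [if_neg h0] at e
        exact absurd e hx
  refine ⟨hq, ?_, htra, fun u hu hx => h2 u hu (htra u hu hx).1⟩
  intro u hu hx
  by_cases hv : Varies P T u
  · exact (FF28.varies_data hT hv).2.2
  · obtain ⟨s, hs⟩ := exists_typ hT hv
    have e := h1 u hu s hv hs
    by_cases h0 : s = 0
    · rw [if_pos h0] at e
      exact absurd e hx
    · exact typ_one hT hu h0 hs

/-- NECESSITY, phases modulo a power of two -/
theorem nec_pow [FiniteDimensional ℝ E] (hT : IsFF P T) :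
    ∃ m : ℕ, ∃ x : E → ZMod (2 * 2 ^ m), ∃ h : FX56.Phases P (2 ^ m) x, h.glue.Cyc := by
  obtain ⟨m, x, hfix, hodd, hadd⟩ := exists_x_pow hT
  have h : FX56.Phases P (2 ^ m) x := phases_of_x hT (by positivity) hfix hodd
  refine ⟨m, x, h, fun s a hw => ?_⟩
  by_cases hv : ∃ i, Varies P T (a i).2
  · rcases st hT h hadd hw hv with h5 | h5
    · exact Or.inl h5
    · exact Or.inr (Or.inl h5)
  · push Not at hv
    exact fixed_case hT h hfix hw hv

/-- THE MAIN THEOREM with phases modulo a power of two -/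
theorem main_pow [FiniteDimensional ℝ E] : (∃ T : Set (ℝ × E), IsFF P T) ↔
    ∃ m : ℕ, ∃ x : E → ZMod (2 * 2 ^ m), ∃ h : FX56.Phases P (2 ^ m) x, h.glue.Cyc := by
  constructor
  · rintro ⟨T, hT⟩
    exact nec_pow hT
  · rintro ⟨m, x, h, hC⟩
    exact main.2 ⟨2 ^ m, x, h, hC⟩

end Pool.FX65
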