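import Pool.Agent.FX65.NecSimple
import Pool.Agent.FX65.NecPow38

set_option autoImplicit false

/-!
# FX65/NecSimplePow38: phases modulo a power of two, simple ridge condition
-/

open Set Metric
open scoped RealInnerProductSpace

namespace Pool.FX65

open Pool.FF24 Pool.FF56 Pool.FF57

variable {E : Type*} [NormedAddCommGroup E] [InnerProductSpace ℝ E] {P : HPoly E} {T : Set (ℝ × E)}

/-- NECESSITY with the simple ridge condition, phases modulo a power of two -/
theorem nec_simple_pow [FiniteDimensional ℝ E] (hT : IsFF P T) :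
    ∃ m : ℕ, ∃ x : E → ZMod (2 * 2 ^ m), ∃ h : FX56.Phases P (2 ^ m) x, Simple h := by
  obtain ⟨m, x, hfix, hodd, hadd⟩ := exists_x_pow hT
  have h : FX56.Phases P (2 ^ m) x := phases_of_x hT (by positivity) hfix hodd
  refine ⟨m, x, h, fun s a hw => ?_⟩
  by_cases hv : ∃ i, Varies P T (a i).2
  · rcases st hT h hadd hw hv with h5 | h5
    · exact Or.inl ⟨h5.1, Or.inl h5.2.1⟩
    · exact Or.inr ⟨h5.1, h5.2.1⟩
  · push Not at hv
    rcases fixed_case hT h hfix hw hv with h5 | h5 | h5
    · exact Or.inl ⟨h5.1, Or.inl h5.2.1⟩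
    · exact Or.inr ⟨h5.1, h5.2.1⟩
    · exact Or.inl ⟨h5.1, fixed_phase hT h hfix hw hv 3⟩

/-- THE THEOREM with the simple ridge condition, phases modulo a power of two -/
theorem main_simple_pow [FiniteDimensional ℝ E] (P : HPoly E) :
    (∃ T, IsFF P T) ↔
      ∃ m : ℕ, ∃ x : E → ZMod (2 * 2 ^ m), ∃ h : FX56.Phases P (2 ^ m) x, Simple h := by
  constructor
  · rintro ⟨T, hT⟩
    exact nec_simple_pow hT
  · rintro ⟨m, x, h, hS⟩
    exact (main_simple P).2 ⟨2 ^ m, x, h, hS⟩

end Pool.FX65
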