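import Pool.Agent.FX65.Bound
import Pool.Agent.FX65.NecSimplePow38

set_option autoImplicit false

/-!
# FX65/NecBound: phases modulo a bounded power of two

`main_bound`: P has a facet-to-facet tiling by translates of `P` and `-P` iff it has, for some `m` with
`2 ^ m ≤ 3 ^ N` (`N` the number of facets), phases modulo `2 ^ (m + 1)` with the ridge condition: a finite check.
-/

open Set Metric
open scoped RealInnerProductSpace

namespace Pool.FX65

open Pool.FF24 Pool.FF56 Pool.FF57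

variable {E : Type*} [NormedAddCommGroup E] [InnerProductSpace ℝ E] {P : HPoly E} {T : Set (ℝ × E)}

/-- NECESSITY with phases modulo a bounded power of two -/
theorem nec_bound [FiniteDimensional ℝ E] (hT : IsFF P T) :
    ∃ m : ℕ, 2 ^ m ≤ 3 ^ P.N.card ∧ ∃ x : E → ZMod (2 * 2 ^ m),
      ∃ h : FX56.Phases P (2 ^ m) x, Simple h := by
  obtain ⟨q, y, hP, hfix0, hodd0, hadd0⟩ := exists_phase hT
  obtain ⟨m, hm, x, hx⟩ := reduce_pow P.N q hP.1 y
  have hfix : ∀ b ∈ P.N, ∀ s, ¬ Varies P T b → Typ P T b s →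
      x b = if s = 0 then 0 else ((2 ^ m : ℕ) : ZMod (2 * 2 ^ m)) := by
    intro b hb s hv ht
    have h1 := hfix0 b hb s hv ht
    by_cases hs : s = 0
    · rw [if_pos hs] at h1 ⊢
      have h2 := hx b hb b hb b hb 1 0 0 0 (by norm_num) (by rw [h1]; simp)
      simpa using h2
    · rw [if_neg hs] at h1 ⊢
      have h2 := hx b hb b hb b hb 1 0 0 1 (by norm_num) (by rw [h1]; simp)
      simpa using h2
  have hodd : ∀ b ∈ P.N, -b ∈ P.N → x (-b) = - x b := by
    intro b hb hb'
    have h1 := hodd0 b hb hb'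
    have h2 := hx b hb (-b) hb' b hb 1 1 0 0 (by norm_num) (by rw [h1]; simp)
    have h3 : x b + x (-b) = 0 := by simpa using h2
    exact (neg_eq_of_add_eq_zero_right h3).symm
  have hadd : ∀ C, Ctr P T C → ∀ b W b' W' b'' W'' : E, Dsp2 P C b W → Dsp2 P C b' W' →
      Dsp2 P C b'' W'' → W = W' + W'' → x b = x b' + x b'' := by
    intro C hC b W b' W' b'' W'' h1 h2 h3 hW
    have h4 := hadd0 C hC b W b' W' b'' W'' h1 h2 h3 hW
    have h5 := hx b h1.1 b' h2.1 b'' h3.1 1 (-1) (-1) 0 (by norm_num) (by rw [h4]; push_cast; ring)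
    push_cast at h5
    linear_combination h5
  have h : FX56.Phases P (2 ^ m) x := phases_of_x hT (by positivity) hfix hodd
  refine ⟨m, hm, x, h, fun s a hw => ?_⟩
  by_cases hv : ∃ i, Varies P T (a i).2
  · rcases st hT h hadd hw hv with h5 | h5
    · exact Or.inl ⟨h5.1, Or.inl h5.2.1⟩
    · exact Or.inr ⟨h5.1, h5.2.1⟩
  · push Not at hv
    rcases fixed_case hT h hfix hw hv with h5 | h5 | h5
    · exact Or.inl ⟨h5.1, Or.inl h5.2.1⟩
    · exact Or.inr ⟨h5.1, h5.2.1⟩
    · exact Or.inl ⟨h5.1, fixed_phase hT h hfix hw hv 3⟩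

/-- THE THEOREM with the simple ridge condition, phases modulo a bounded power of two -/
theorem main_bound [FiniteDimensional ℝ E] (P : HPoly E) :
    (∃ T, IsFF P T) ↔
      ∃ m : ℕ, 2 ^ m ≤ 3 ^ P.N.card ∧ ∃ x : E → ZMod (2 * 2 ^ m),
        ∃ h : FX56.Phases P (2 ^ m) x, Simple h := by
  constructor
  · rintro ⟨T, hT⟩
    exact nec_bound hT
  · rintro ⟨m, -, x, h, hS⟩
    exact (main_simple P).2 ⟨2 ^ m, x, h, hS⟩

end Pool.FX65
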