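import Pool.Agent.FX65.Simple
import Pool.Agent.FX65.Nec28
import Pool.Agent.FX65.Suff

set_option autoImplicit false

/-!
# FX65/NecSimple: facet-to-facet tilings and phases with the simple ridge condition

`main_simple`: P has a facet-to-facet tiling by translates of `P` and `-P` iff there are phases with `Simple`.
-/

open Set Metric
open scoped RealInnerProductSpace

namespace Pool.FX65

open Pool.FF24 Pool.FF56 Pool.FF57

variable {E : Type*} [NormedAddCommGroup E] [InnerProductSpace ℝ E] {P : HPoly E} {T : Set (ℝ × E)}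

/-- on a walk whose exits do not vary the phase is changed by `q` at every point reflection -/
theorem fixed_phase [FiniteDimensional ℝ E] (hT : IsFF P T) {q : ℕ} {x : E → ZMod (2 * q)}
    (h : FX56.Phases P q x)
    (hfix : ∀ b ∈ P.N, ∀ s, ¬ Varies P T b → Typ P T b s → x b = if s = 0 then 0 else (q : ZMod (2 * q)))
    {s : ℕ → ZMod (2 * q)} {a : ℕ → E × E} (hw : Walk h s a)
    (hv : ∀ i, ¬ Varies P T (a i).2) (k : ℕ) :
    s k = s 0 ∨ s k = s 0 + (q : ZMod (2 * q)) := by
  induction k with
  | zero => exact Or.inl rfl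
  | succ k ih =>
    have hx : x (a k).2 = 0 ∨ x (a k).2 = (q : ZMod (2 * q)) := by
      obtain ⟨t, ht⟩ := exists_typ hT (hv k)
      have hx := hfix _ (hw.mem k) t (hv k) ht
      by_cases ht0 : t = 0
      · rw [if_pos ht0] at hx
        exact Or.inl hx
      · rw [if_neg ht0] at hx
        exact Or.inr hx
    have e1 : s (k + 1) = FX56.nxt x (s k) (a k).2 := (hw k).1
    have e2 : FX56.nxt x (s k) (a k).2 = s k + x (a k).2 := by
      unfold FX56.nxt
      split
      · rfl
      · rcases hx with h2 | h2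
        · rw [h2, sub_zero, add_zero]
        · rw [h2, sub_eq_add_neg, FX56.neg_q]
    rw [e1, e2]
    rcases hx with h2 | h2
    · rw [h2, add_zero]
      exact ih
    · rw [h2]
      rcases ih with ih | ih
      · right
        rw [ih]
      · left
        rw [ih, add_assoc, FX56.q_add_q, add_zero]

/-- NECESSITY with the simple ridge condition -/
theorem nec_simple [FiniteDimensional ℝ E] (hT : IsFF P T) :
    ∃ q : ℕ, ∃ x : E → ZMod (2 * q), ∃ h : FX56.Phases P q x, Simple h := by
  obtain ⟨q, x, ⟨h1, h2, h3, h4⟩, hfix, -, hadd⟩ := exists_phase hT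
  let h : FX56.Phases P q x := ⟨h1, h2, h3, h4⟩
  refine ⟨q, x, h, fun s a hw => ?_⟩
  by_cases hv : ∃ i, Varies P T (a i).2
  · rcases st hT h hadd hw hv with h5 | h5
    · exact Or.inl ⟨h5.1, Or.inl h5.2.1⟩
    · exact Or.inr ⟨h5.1, h5.2.1⟩
  · push Not at hv
    rcases fixed_case hT h hfix hw hv with h5 | h5 | h5
    · exact Or.inl ⟨h5.1, Or.inl h5.2.1⟩
    · exact Or.inr ⟨h5.1, h5.2.1⟩
    · exact Or.inl ⟨h5.1, fixed_phase hT h hfix hw hv 3⟩

/-- THE THEOREM with the simple ridge condition -/
theorem main_simple [FiniteDimensional ℝ E] (P : HPoly E) :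
    (∃ T, IsFF P T) ↔ ∃ q : ℕ, ∃ x : E → ZMod (2 * q), ∃ h : FX56.Phases P q x, Simple h := by
  constructor
  · rintro ⟨T, hT⟩
    exact nec_simple hT
  · rintro ⟨q, x, h, hS⟩
    have : NeZero (2 * q) := ⟨by have := h.pos; omega⟩
    have : Finite (ZMod (2 * q)) := inferInstance
    exact suf h.glue (cyc_of_simple h hS)

end Pool.FX65
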