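import Pool.Agent.FX65.Loc
import Pool.Agent.FX65.Face

set_option autoImplicit false

/-!
# FX65/One: points with exactly one facet

`act_one`: `mf y = fc u` (`mf_eq`), so `mf (j u y) = j u (fc u) = fc (star u)`; it contains a point with active set
`{star u}` (`P.real`), and the active set of `j u y` is contained in it.
`cone_one`: the star is `{τ, nb u τ}` (the neighbour of the neighbour is `τ`), and with `e` = the sign of `τ` the cones are
`{e <u, x> ≤ 0}` and `{- e <u, x> ≤ 0}`; both contain `x` only if `<u, x> = 0`.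
-/

open Set Metric
open scoped RealInnerProductSpace

namespace Pool.FX65

open Pool.FF24 (HPoly)

variable {E : Type*} [NormedAddCommGroup E] [InnerProductSpace ℝ E] {S : Type*} {P : HPoly E}
  (g : SGlue P S)

theorem act_one {s : S} {u y : E} (hy : y ∈ P.body) (h : P.act y = {u}) :
    P.act (g.j s u y) = {g.star s u} := by
  have hu : u ∈ P.act y := by rw [h]; rfl
  have hyu : y ∈ P.fc u := ⟨hy, hu.2⟩
  have hju : g.j s u y ∈ P.fc (g.star s u) := j_mem g hu.1 hyu
  obtain ⟨z0, hz1, hz2⟩ := P.real (g.star s u) (star_mem g hu.1)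
  have hz0 : z0 ∈ P.fc (g.star s u) := ⟨hz1, (hz2 _ (star_mem g hu.1)).2 rfl⟩
  have h1 : g.j (g.nx s u) (g.star s u) z0 ∈ P.fc u := by
    have := j_mem g (s := g.nx s u) (u := g.star s u) (star_mem g (s := s) hu.1) hz0
    rwa [star_star g hu.1] at this
  have h2 : g.j s u (g.j (g.nx s u) (g.star s u) z0) = z0 := by
    have := j_j g (s := g.nx s u) (u := g.star s u) (star_mem g (s := s) hu.1) z0
    rwa [star_star g hu.1, nx_nx g hu.1] at this
  have h3 : z0 ∈ P.mf (g.j s u y) := by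
    rw [← j_mf g hu.1 hyu]
    refine ⟨g.j (g.nx s u) (g.star s u) z0, ?_, h2⟩
    rw [Pool.FF24.mf_eq hy]
    refine ⟨h1.1, ?_⟩
    rw [h]
    rintro v rfl
    exact ⟨hu.1, h1.2⟩
  rw [Pool.FF24.mf_eq hju.1] at h3
  apply Set.Subset.antisymm
  · intro v hv
    have hv' := h3.2 hv
    exact (hz2 v hv'.1).1 hv'.2
  · rintro v rfl
    exact ⟨star_mem g hu.1, hju.2⟩

theorem nb_inner {τ : ℝ × E × S} (u x : E) :
    (g.nb u τ).1 * ⟪g.star τ.2.2 u, x⟫ = -(τ.1 * ⟪u, x⟫) := by
  unfold SGlue.nb SGlue.star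
  by_cases h : u ∈ g.I τ.2.2
  · simp only [h, if_true]
    ring
  · simp only [h, if_false, inner_neg_left]
    ring

theorem cone_one {p u : E} {τ : g.Lab} (hp : p ∈ g.K τ) (h : P.act (crd τ.1 p) = {u}) :
    (∀ x, ∃ σ, g.R p τ σ ∧ x ∈ cone g p σ) ∧
    ∀ x σ σ', g.R p τ σ → g.R p τ σ' → x ∈ cone g p σ → x ∈ cone g p σ' →
      Relation.ReflTransGen (StC g p x) σ σ' := by
  have hu : u ∈ P.act (crd τ.1 p) := by rw [h]; rfl
  have hf : crd τ.1 p ∈ P.fc u := ⟨hp, hu.2⟩
  have hs : g.St p τ (nbL g hu.1 τ) := ⟨u, hu.1, hf, rfl⟩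
  have hc : crd (nbL g hu.1 τ).1 p = g.j τ.1.2.2 u (crd τ.1 p) := crd_nb g (sign g τ) u p
  have ha : P.act (crd (nbL g hu.1 τ).1 p) = {g.star τ.1.2.2 u} := by
    rw [hc]; exact act_one g hp h
  have hR : g.R p τ (nbL g hu.1 τ) := R_step g (R_refl g hp) hs
  have hstar : ∀ σ, g.R p τ σ → σ = τ ∨ σ = nbL g hu.1 τ := by
    rintro σ ⟨-, hσ⟩
    induction hσ with
    | refl => exact Or.inl rfl
    | @tail b c _ hbc ih =>
      obtain ⟨v, hv, hbv, hcv⟩ := hbc
      rcases ih with rfl | rfl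
      · right
        have : v ∈ P.act (crd b.1 p) := ⟨hv, hbv.2⟩
        rw [h] at this
        have hvu : v = u := this
        subst hvu
        exact Subtype.ext hcv
      · left
        have : v ∈ P.act (crd (nbL g hu.1 τ).1 p) := ⟨hv, hbv.2⟩
        rw [ha] at this
        have hvu : v = g.star τ.1.2.2 u := this
        subst hvu
        apply Subtype.ext
        rw [hcv]
        exact nb_nb g hu.1 τ.1
  have hinn : ∀ x, (nbL g hu.1 τ).1.1 * ⟪g.star τ.1.2.2 u, x⟫ = -(τ.1.1 * ⟪u, x⟫) := fun x =>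
    nb_inner g u x
  have c1 : ∀ x, x ∈ cone g p τ ↔ τ.1.1 * ⟪u, x⟫ ≤ 0 := by
    intro x
    constructor
    · intro hx
      exact hx u hu
    · intro hx v hv
      rw [h] at hv
      have hvu : v = u := hv
      rw [hvu]
      exact hx
  have c2 : ∀ x, x ∈ cone g p (nbL g hu.1 τ) ↔ 0 ≤ τ.1.1 * ⟪u, x⟫ := by
    intro x
    constructor
    · intro hx
      have := hx (g.star τ.1.2.2 u) (by rw [ha]; rfl)
      rw [hinn] at this
      linarith
    · intro hx v hv
      rw [ha] at hv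
      have hvu : v = g.star τ.1.2.2 u := hv
      rw [hvu, hinn]
      linarith
  refine ⟨fun x => ?_, ?_⟩
  · rcases le_total (τ.1.1 * ⟪u, x⟫) 0 with hx | hx
    · exact ⟨τ, R_refl g hp, (c1 x).2 hx⟩
    · exact ⟨_, hR, (c2 x).2 hx⟩
  · intro x σ σ' h1 h2 hx hx'
    rcases hstar σ h1 with rfl | rfl <;> rcases hstar σ' h2 with rfl | rfl
    · exact Relation.ReflTransGen.refl
    · refine Relation.ReflTransGen.single ⟨hx, u, hu, ?_, rfl⟩
      exact le_antisymm ((c1 x).1 hx) ((c2 x).1 hx')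
    · refine Relation.ReflTransGen.single ⟨hx, g.star σ'.1.2.2 u, by rw [ha]; rfl, ?_, ?_⟩
      · rw [hinn, le_antisymm ((c1 x).1 hx') ((c2 x).1 hx), neg_zero]
      · exact (nb_nb g hu.1 _).symm
    · exact Relation.ReflTransGen.refl

end Pool.FX65
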