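import Pool.Agent.FX65.NecBound
import Pool.Agent.FF79.Trans
import Pool.Agent.FF79.Coh23

set_option autoImplicit false

/-!
# FX65/OneS: phases modulo 2 in dimension at most 3 and for centrally symmetric polytopes

`not_varies_of_tiling`: no facet varies in a coherent tiling. `nec_one`: a tiling in which no facet varies has phases
modulo `2`. `nec_special`: the bounded phases, with `m = 0` in dimension 2 or 3 and for centrally symmetric polytopes.
-/

open Set Metric
open scoped RealInnerProductSpace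

namespace Pool.FX65

open Pool.FF24 Pool.FF56 Pool.FF57

variable {E : Type*} [NormedAddCommGroup E] [InnerProductSpace ℝ E] {P : HPoly E} {T : Set (ℝ × E)}

/-- no facet varies in a coherent tiling -/
theorem not_varies_of_tiling [FiniteDimensional ℝ E] {I : Set E} (hT : FF79.IsTiling P I T) (a : E) :
    ¬ Varies P T a := by
  have hF : FF79.IsF2F P T := FF79.f2f_of_tiling P hT
  have law : ∀ τ σ u, Crs P T τ u σ → (u ∈ I ∧ σ.1 = -τ.1) ∨ (u ∉ I ∧ σ.1 = τ.1) := by
    rintro τ σ u ⟨hτ, hσ, hne, hu, v, hv, hE⟩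
    obtain ⟨σ', hσ', hne', h1, v', hv', hE'⟩ := hT.facet τ hτ u hu
    have e := FF79.behind_unique P hF hτ hσ hσ' hne hne' hu hv hv' hE hE'
    rw [e]
    exact h1
  have n0 : ∀ τ ∈ T, τ.1 ≠ -τ.1 := by
    intro τ hτ h
    rcases hT.sign τ hτ with h1 | h1 <;> rw [h1] at h <;> norm_num at h
  rintro ⟨⟨τ, σ, u, hu, hc, hs⟩, τ', σ', u', hu', hc', hs'⟩
  have h1 : u ∉ I := by
    rcases law τ σ u hc with h | h
    · exact absurd (hs.symm.trans h.2) (n0 τ hc.1)
    · exact h.1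
  have h2 : u' ∈ I := by
    rcases law τ' σ' u' hc' with h | h
    · exact h.1
    · exact absurd (h.2.symm.trans hs') (n0 τ' hc'.1)
  have h3 : -u ∉ I := by
    obtain ⟨hτ, hσ, hne, hun, v, hv, hE⟩ := hc
    have h4 := FF79.facet_normal P (hT.sign τ hτ) (hT.sign σ hσ) hun hv (hT.disj τ hτ σ hσ hne.symm) hE
    have h5 : v = -u := by
      rw [hs, ← smul_neg] at h4
      have h6 : τ.1 ≠ 0 := by
        rcases hT.sign τ hτ with h | h <;> rw [h] <;> norm_num
      exact smul_right_injective E h6 h4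
    have hc2 : Crs P T σ (-u) τ := ⟨hσ, hτ, hne.symm, h5 ▸ hv, u, hun, h5 ▸ hE.symm⟩
    rcases law σ τ (-u) hc2 with h | h
    · exact absurd (hs.trans h.2) (n0 σ hσ)
    · exact h.1
  rcases hu with rfl | rfl <;> rcases hu' with rfl | rfl
  · exact h1 h2
  · exact h3 h2
  · rw [neg_neg] at h3
    exact h3 h2
  · exact h1 h2

/-- a tiling in which no facet varies has phases modulo `2` -/
theorem nec_one [FiniteDimensional ℝ E] (hT : IsFF P T) (hnv : ∀ a, ¬ Varies P T a) :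
    ∃ x : E → ZMod (2 * 2 ^ 0), ∃ h : FX56.Phases P (2 ^ 0) x, Simple h := by
  classical
  obtain ⟨q, y, hP, hfix0, hodd0, -⟩ := exists_phase hT
  have hq : 0 < q := hP.1
  have hq0 : (q : ZMod (2 * q)) ≠ 0 := by
    intro h
    have h1 := Nat.le_of_dvd hq ((ZMod.natCast_eq_zero_iff _ _).1 h)
    omega
  let x : E → ZMod (2 * 2 ^ 0) := fun b => if y b = 0 then 0 else 1
  have hfix : ∀ b ∈ P.N, ∀ s, ¬ Varies P T b → Typ P T b s →
      x b = if s = 0 then 0 else ((2 ^ 0 : ℕ) : ZMod (2 * 2 ^ 0)) := by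
    intro b hb s hv ht
    have h1 := hfix0 b hb s hv ht
    change (if y b = 0 then (0 : ZMod (2 * 2 ^ 0)) else 1) = _
    by_cases hs : s = 0
    · rw [if_pos hs] at h1 ⊢
      rw [if_pos h1]
    · rw [if_neg hs] at h1 ⊢
      rw [if_neg (by rw [h1]; exact hq0), pow_zero, Nat.cast_one]
  have hodd : ∀ b ∈ P.N, -b ∈ P.N → x (-b) = - x b := by
    intro b hb hb'
    have h1 := hodd0 b hb hb'
    change (if y (-b) = 0 then (0 : ZMod (2 * 2 ^ 0)) else 1) =
      -(if y b = 0 then (0 : ZMod (2 * 2 ^ 0)) else 1)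
    by_cases h : y b = 0
    · rw [if_pos h, if_pos (by rw [h1, h, neg_zero]), neg_zero]
    · rw [if_neg h, if_neg (by rw [h1]; exact neg_ne_zero.2 h)]
      decide
  have h : FX56.Phases P (2 ^ 0) x := phases_of_x hT (by positivity) hfix hodd
  refine ⟨x, h, fun s a hw => ?_⟩
  rcases fixed_case hT h hfix hw (fun i => hnv _) with h5 | h5 | h5
  · exact Or.inl ⟨h5.1, Or.inl h5.2.1⟩
  · exact Or.inr ⟨h5.1, h5.2.1⟩
  · exact Or.inl ⟨h5.1, fixed_phase hT h hfix hw (fun i => hnv _) 3⟩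

/-- a coherent tiling gives phases modulo `2` -/
theorem nec_coherent [FiniteDimensional ℝ E] {I : Set E} (hT : FF79.IsTiling P I T) :
    ∃ x : E → ZMod (2 * 2 ^ 0), ∃ h : FX56.Phases P (2 ^ 0) x, Simple h := by
  have hF := FF79.f2f_of_tiling P hT
  exact nec_one ⟨hF.sign, hF.cover, hF.disj, hF.facet⟩ (not_varies_of_tiling hT)

/-- bounded phases, modulo `2` in dimension 2 or 3 and for centrally symmetric polytopes -/
theorem nec_special [FiniteDimensional ℝ E] (hT : IsFF P T) :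
    ∃ m : ℕ, 2 ^ m ≤ 3 ^ P.N.card ∧
      ((Module.finrank ℝ E = 2 ∨ Module.finrank ℝ E = 3) ∨ (∃ C : E, ∀ z ∈ P.body, C - z ∈ P.body) →
        m = 0) ∧
      ∃ x : E → ZMod (2 * 2 ^ m), ∃ h : FX56.Phases P (2 ^ m) x, Simple h := by
  have hT' : FF79.IsF2F P T := ⟨hT.sign, hT.cover, hT.disj, hT.facet⟩
  by_cases hs : (Module.finrank ℝ E = 2 ∨ Module.finrank ℝ E = 3) ∨
      (∃ C : E, ∀ z ∈ P.body, C - z ∈ P.body)
  · refine ⟨0, ?_, fun _ => rfl, ?_⟩
    · rw [pow_zero]
      exact Nat.one_le_pow _ _ (by norm_num)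
    · rcases hs with hd | ⟨C, hC⟩
      · obtain ⟨I, T', hI⟩ := FF79.exists_coh23 hd hT'
        exact nec_coherent hI
      · exact nec_coherent (FF24.csym P hC hT').1
  · obtain ⟨m, hm, x, h, hS⟩ := nec_bound hT
    exact ⟨m, hm, fun h1 => absurd h1 hs, x, h, hS⟩

end Pool.FX65
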