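import Pool.Agent.FF79.NecD
import Pool.Agent.FF79.NecE
import Pool.Agent.FF79.NecP
import Pool.Agent.FF79.Nec

/-!
# FX65/Ring: A RING OF TILES AROUND A RIDGE whose interiors are disjoint closes after 3, 4 or 6 steps (helper85)

The geometric content of `FF79.cyc_of_disj` without gluing data: `D r` are labels of tiles, `a r` their own flags at the
point `y₀`, `D (r+1)` lies behind the facet `(a r).2` of `D r`; the flags are a deterministic sequence (`hf`, `hb`), and
the tiles with different labels have disjoint interiors.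
-/

set_option autoImplicit false

open Set Metric
open scoped RealInnerProductSpace

namespace Pool.FX65

open Pool.FF24 (HPoly)
open Pool.FF79

variable {E : Type*} [NormedAddCommGroup E] [InnerProductSpace ℝ E] [FiniteDimensional ℝ E]

theorem ring_of_disj (P : HPoly E) (a : ℕ → E × E) (D : ℕ → ℝ × E) (y₀ : E)
    (hf : ∀ r s, a r = a s → a (r + 1) = a (s + 1) ∧
      (D (r + 1)).1 * (D r).1 = (D (s + 1)).1 * (D s).1)
    (hb : ∀ r s, a (r + 1) = a (s + 1) → a r = a s)
    (hε : ∀ r, (D r).1 = 1 ∨ (D r).1 = -1)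
    (hcrd : ∀ r, FF24.crd (D r) y₀ ∈ P.body ∧ P.act (FF24.crd (D r) y₀) = {(a r).1, (a r).2})
    (hnb : ∀ r, (D (r + 1)).1 • (a (r + 1)).1 = -((D r).1 • (a r).2))
    (hrec : ∀ r, ∃ α β : ℝ, 0 < α ∧
      (D (r + 1)).1 • (a (r + 1)).2 = α • ((D r).1 • (a r).1) + β • ((D r).1 • (a r).2))
    (hli0 : LinearIndependent ℝ ![(a 0).1, (a 0).2])
    (hd : ∀ r s, D r ≠ D s →
      Disjoint (interior (FF24.X (D r) '' P.body)) (interior (FF24.X (D s) '' P.body))) :
    (a 3 = a 0 ∧ (D 3).1 = (D 0).1) ∨ (a 4 = a 0 ∧ (D 4).1 = (D 0).1) ∨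
      (a 3 = a 0 ∧ (D 3).1 = -(D 0).1 ∧ a 6 = a 0 ∧ (D 6).1 = (D 0).1) := by
  classical
  have hmem : ∀ r, (a r).1 ∈ P.N ∧ (a r).2 ∈ P.N := by
    intro r
    have h1 : (a r).1 ∈ P.act (FF24.crd (D r) y₀) := by rw [(hcrd r).2]; simp
    have h2 : (a r).2 ∈ P.act (FF24.crd (D r) y₀) := by rw [(hcrd r).2]; simp
    exact ⟨h1.1, h2.1⟩
  have hfin : (Set.range a).Finite := by
    refine ((P.N.finite_toSet).prod (P.N.finite_toSet)).subset ?_
    rintro _ ⟨r, rfl⟩
    exact ⟨(hmem r).1, (hmem r).2⟩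
  obtain ⟨m, hm, hper, hdist⟩ := min_period a (fun x y => ∃ r, x = a r ∧ y = a (r + 1))
    (fun r => ⟨r, rfl, rfl⟩)
    (by
      rintro x y z ⟨r, h1, h2⟩ ⟨s, h3, h4⟩
      rw [h2, h4, (hf r s (h1 ▸ h3)).1])
    (by
      rintro x y z ⟨r, h1, h2⟩ ⟨s, h3, h4⟩
      rw [h1, h3, hb r s (h2 ▸ h4)]) hfin
  let e : ℕ → E := fun r => -((D r).1 • (a r).1)
  have he : ∀ r, e r = -((D r).1 • (a r).1) := fun _ => rfl
  have he' : ∀ r, e (r + 1) = (D r).1 • (a r).2 := by
    intro r
    rw [he, hnb, neg_neg]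
  have hrec' : ∀ r, ∃ α β : ℝ, 0 < α ∧ e (r + 2) = -(α • e r) + β • e (r + 1) := by
    intro r
    obtain ⟨α, β, h1, h2⟩ := hrec r
    refine ⟨α, β, h1, ?_⟩
    rw [show r + 2 = (r + 1) + 1 from rfl, he' (r + 1), h2, he r, he' r, smul_neg, neg_neg]
  obtain ⟨p, q, hpq, hp0, hq0, hp1, hq1, hdet⟩ := coords e hrec'
  have hsq : ∀ r, (D r).1 * (D r).1 = 1 := by
    intro r
    rcases hε r with h | h <;> rw [h] <;> norm_num
  have hli : LinearIndependent ℝ ![e 0, e 1] := by
    rw [LinearIndependent.pair_iff] at hli0 ⊢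
    intro s t hst
    have h1 := hli0 (-s * (D 0).1) (t * (D 0).1) (by
      have h2 : e 0 = -((D 0).1 • (a 0).1) := he 0
      have h3 : e 1 = (D 0).1 • (a 0).2 := he' 0
      rw [h2, h3] at hst
      rw [← hst]
      module)
    have h4 : (D 0).1 ≠ 0 := by
      intro h
      have := hsq 0
      rw [h, zero_mul] at this
      exact zero_ne_one this
    refine ⟨?_, ?_⟩
    · have := (mul_eq_zero.1 h1.1).resolve_right h4
      linarith
    · exact (mul_eq_zero.1 h1.2).resolve_right h4
  -- relative signs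
  let ε : ℕ → ℝ := fun r => (D 0).1 * (D r).1
  have hεd : ∀ r, ε r = (D 0).1 * (D r).1 := fun _ => rfl
  have hε1 : ∀ r, ε r = 1 ∨ ε r = -1 := by
    intro r
    rw [hεd]
    rcases hε 0 with h | h <;> rcases hε r with h' | h' <;> rw [h, h'] <;> norm_num
  have hε0 : ε 0 = 1 := hsq 0
  have hεsq : ∀ r, ε r * ε r = 1 := by
    intro r
    rcases hε1 r with h | h <;> rw [h] <;> norm_num
  have hDε : ∀ r, (D r).1 = (D 0).1 * ε r := by
    intro r
    rw [hεd, ← mul_assoc, hsq 0, one_mul]
  have hεstep : ∀ r s, a r = a s → ε (r + 1) * ε r = ε (s + 1) * ε s := by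
    intro r s h
    have h1 := (hf r s h).2
    rw [hεd, hεd, hεd, hεd]
    linear_combination ((D 0).1 * (D 0).1) * h1
  have hperε : ∀ r, ε (r + m) = ε m * ε r := by
    intro r
    induction r with
    | zero => rw [zero_add, hε0, mul_one]
    | succ r ih =>
      have e1 : r + 1 + m = (r + m) + 1 := by ring
      rw [e1]
      have h1 := hεstep (r + m) r (hper r)
      -- ε (r+m+1) = ε (r+1) * ε r * ε (r+m)
      have h2 : ε (r + m + 1) = (ε (r + m + 1) * ε (r + m)) * ε (r + m) := by
        rw [mul_assoc, hεsq, mul_one]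
      rw [h2, h1, ih]
      linear_combination (ε m * ε (r + 1)) * hεsq r
  have hn1 : ∀ r, (a r).1 = (-(D r).1 * p r) • e 0 + (-(D r).1 * q r) • e 1 := by
    intro r
    have h1 : (a r).1 = -(D r).1 • e r := by
      rw [he r, smul_neg, neg_smul, neg_neg, smul_smul, hsq r, one_smul]
    rw [h1]
    conv_lhs => rw [hpq r]
    rw [smul_add, smul_smul, smul_smul]
  have hn2 : ∀ r, (a r).2 = ((D r).1 * p (r + 1)) • e 0 + ((D r).1 * q (r + 1)) • e 1 := by
    intro r
    have h1 : (a r).2 = (D r).1 • e (r + 1) := by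
      rw [he' r, smul_smul, hsq r, one_smul]
    rw [h1]
    conv_lhs => rw [hpq (r + 1)]
    rw [smul_add, smul_smul, smul_smul]
  have hpere : ∀ r, p (r + m) = ε m * p r ∧ q (r + m) = ε m * q r := by
    intro r
    have h1 := hn1 (r + m)
    rw [hper r, hn1 r] at h1
    have h2 := pair_coords hli h1
    have h3 : (D (r + m)).1 = ε m * (D r).1 := by
      rw [hDε (r + m), hperε r, hDε r]
      ring
    rw [h3] at h2
    rcases hε r with h3 | h3 <;> rcases hε1 m with h4 | h4 <;> rw [h3, h4] at h2 <;> rw [h4] <;>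
      constructor <;> linarith [h2.1, h2.2]
  have hswap : ∀ r s, ¬ ((a r).1 = (a s).2 ∧ (a r).2 = (a s).1) := by
    rintro r s ⟨h1, h2⟩
    rw [hn1 r, hn2 s] at h1
    rw [hn2 r, hn1 s] at h2
    obtain ⟨h3, h4⟩ := pair_coords hli h1
    obtain ⟨h5, h6⟩ := pair_coords hli h2
    have d1 := hdet r
    have d2 := hdet s
    have k1 : p r * q (r + 1) - p (r + 1) * q r =
        -((-(D r).1 * p r) * ((D r).1 * q (r + 1)) - ((D r).1 * p (r + 1)) * (-(D r).1 * q r)) := by
      have := hsq r
      linear_combination (-(p r * q (r + 1) - p (r + 1) * q r)) * this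
    have k2 : p s * q (s + 1) - p (s + 1) * q s =
        -((-(D s).1 * p s) * ((D s).1 * q (s + 1)) - ((D s).1 * p (s + 1)) * (-(D s).1 * q s)) := by
      have := hsq s
      linear_combination (-(p s * q (s + 1) - p (s + 1) * q s)) * this
    rw [h3, h4, h5, h6] at k1
    have k3 : p r * q (r + 1) - p (r + 1) * q r = -(p s * q (s + 1) - p (s + 1) * q s) := by
      rw [k1, k2]; ring
    linarith
  have hset : ∀ r s, ({(a r).1, (a r).2} : Set E) = {(a s).1, (a s).2} → a r = a s := by
    intro r s h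
    rcases (Set.pair_eq_pair_iff.1 h) with h1 | h1
    · exact Prod.ext h1.1 h1.2
    · exact absurd h1 (hswap r s)
  have hmod : ∀ r, a (r % m) = a r := by
    intro r
    have h1 : ∀ k r, a (r + k * m) = a r := by
      intro k
      induction k with
      | zero => intro r; simp
      | succ k ih =>
        intro r
        have : r + (k + 1) * m = (r + k * m) + m := by ring
        rw [this, hper, ih]
    conv_rhs => rw [← Nat.mod_add_div r m, mul_comm m]
    rw [h1]
  have key := planeNec m hm p q ε hε1 hε0 hdet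
    (fun r => ⟨hperε r, (hpere r).1, (hpere r).2⟩) ?_ ?_
  · obtain ⟨hm4, h4⟩ := key
    have hc : m = 1 ∨ m = 2 ∨ m = 3 ∨ m = 4 := by omega
    have hD : ∀ k, ε k = 1 → (D k).1 = (D 0).1 := by
      intro k hk
      rw [hDε k, hk, mul_one]
    have hD' : ∀ k, ε k = -1 → (D k).1 = -(D 0).1 := by
      intro k hk
      rw [hDε k, hk, mul_neg, mul_one]
    rcases hc with rfl | rfl | rfl | rfl
    · have a3 : a 3 = a 0 := by
        rw [hper 2, hper 1]
        exact hper 0
      have a6 : a 6 = a 0 := by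
        rw [hper 5, hper 4, hper 3]
        exact a3
      have e3 : ε 3 = ε 1 := by
        have h1 := hperε 1
        have h2 := hperε 2
        norm_num at h1 h2
        rw [h2, h1, hεsq, mul_one]
      have e6 : ε 6 = 1 := by
        have h3 := hperε 3
        have h4 := hperε 4
        have h5 := hperε 5
        norm_num at h3 h4 h5
        rw [h5, h4, h3, e3, hεsq, mul_one, hεsq]
      rcases hε1 3 with h | h
      · exact Or.inl ⟨a3, hD 3 h⟩
      · exact Or.inr (Or.inr ⟨a3, hD' 3 h, a6, hD 6 e6⟩)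
    · right; left
      refine ⟨?_, hD 4 ?_⟩
      · rw [hper 2]
        exact hper 0
      · have h2 := hperε 2
        norm_num at h2
        rw [h2, hεsq]
    · have a3 : a 3 = a 0 := hper 0
      have a6 : a 6 = a 0 := by
        rw [hper 3]
        exact a3
      have e6 : ε 6 = 1 := by
        have h3 := hperε 3
        norm_num at h3
        rw [h3, hεsq]
      rcases hε1 3 with h | h
      · exact Or.inl ⟨a3, hD 3 h⟩
      · exact Or.inr (Or.inr ⟨a3, hD' 3 h, a6, hD 6 e6⟩)
    · right; left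
      exact ⟨hper 0, hD 4 (h4 rfl)⟩
  · intro r hr s hs hrs α β γ δ hα hβ hγ hδ h
    have h1 : α • (a r).1 + β • (a r).2 = γ • (a s).1 + δ • (a s).2 := by
      rw [hn1 r, hn2 r, hn1 s, hn2 s]
      have e1 : α • ((-(D r).1 * p r) • e 0 + (-(D r).1 * q r) • e 1) +
          β • (((D r).1 * p (r + 1)) • e 0 + ((D r).1 * q (r + 1)) • e 1) =
          ((D r).1 * (-α * p r + β * p (r + 1))) • e 0 +
            ((D r).1 * (-α * q r + β * q (r + 1))) • e 1 := by
        module
      have e2 : γ • ((-(D s).1 * p s) • e 0 + (-(D s).1 * q s) • e 1) +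
          δ • (((D s).1 * p (s + 1)) • e 0 + ((D s).1 * q (s + 1)) • e 1) =
          ((D s).1 * (-γ * p s + δ * p (s + 1))) • e 0 +
            ((D s).1 * (-γ * q s + δ * q (s + 1))) • e 1 := by
        module
      have g1 : (D r).1 * (-α * p r + β * p (r + 1)) = (D s).1 * (-γ * p s + δ * p (s + 1)) := by
        linear_combination (-α * p r + β * p (r + 1)) * hDε r -
          (-γ * p s + δ * p (s + 1)) * hDε s + (D 0).1 * h.1
      have g2 : (D r).1 * (-α * q r + β * q (r + 1)) = (D s).1 * (-γ * q s + δ * q (s + 1)) := by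
        linear_combination (-α * q r + β * q (r + 1)) * hDε r -
          (-γ * q s + δ * q (s + 1)) * hDε s + (D 0).1 * h.2
      rw [e1, e2, g1, g2]
    have h2 := cone_disj (hcrd r).1 (hcrd r).2 (hcrd s).1 (hcrd s).2 hα hβ hγ hδ h1
    exact hrs (hdist r hr s hs (hset r s h2))
  · rintro r s hrs hs Xx Yy ⟨h1, h2, h3, h4⟩
    obtain ⟨x, hx0, hx1⟩ := exists_dual hli Xx Yy
    have hin : ∀ t, ⟪e t, x⟫ = p t * Xx + q t * Yy := by
      intro t
      rw [hpq t, inner_add_left, real_inner_smul_left, real_inner_smul_left, hx0, hx1]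
    rw [← hin] at h1 h2 h3 h4
    obtain ⟨η₁, hη₁, w1⟩ := wedge_interior (hε r) (hcrd r).1 (hcrd r).2 (x := x)
      (by rw [he r, inner_neg_left] at h1; linarith) (by rw [he' r] at h2; exact h2)
    obtain ⟨η₂, hη₂, w2⟩ := wedge_interior (hε s) (hcrd s).1 (hcrd s).2 (x := x)
      (by rw [he s, inner_neg_left] at h3; linarith) (by rw [he' s] at h4; exact h4)
    have hη : 0 < min η₁ η₂ / 2 := by have := lt_min hη₁ hη₂; linarith
    have g1 := w1 (min η₁ η₂ / 2) hη (by have := min_le_left η₁ η₂; linarith)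
    have g2 := w2 (min η₁ η₂ / 2) hη (by have := min_le_right η₁ η₂; linarith)
    have hDD : D r = D s := by
      by_contra hDD
      exact Set.disjoint_left.1 (hd _ _ hDD) g1 g2
    have haa : a r = a s := by
      apply hset
      rw [← (hcrd r).2, ← (hcrd s).2, hDD]
    have hmm := hdist (r % m) (Nat.mod_lt _ hm) (s % m) (Nat.mod_lt _ hm) (by rw [hmod, hmod, haa])
    rcases hs with hs | ⟨hs1, hs2⟩
    · rw [Nat.mod_eq_of_lt hs, Nat.mod_eq_of_lt (by omega)] at hmm
      omega
    · have hsr : s = r + m := by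
        have f1 := Nat.mod_add_div r m
        have f2 := Nat.mod_add_div s m
        have g1 : r / m < 2 := Nat.div_lt_of_lt_mul (by omega)
        have g2 : s / m < 2 := Nat.div_lt_of_lt_mul (by omega)
        generalize r / m = kr at f1 g1
        generalize s / m = ks at f2 g2
        generalize r % m = ar at f1 hmm
        generalize s % m = as at f2 hmm
        subst hmm
        interval_cases kr <;> interval_cases ks <;> omega
      have h5 := hperε r
      have h6 : ε s = ε r := by rw [hεd, hεd, hDD]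
      rw [← hsr, h6, hs1] at h5
      rcases hε1 r with h6 | h6 <;> rw [h6] at h5 <;> norm_num at h5

end Pool.FX65
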