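import Pool.Agent.FX65.Ring
import Pool.Agent.FX65.ActTwo

/-!
# FX65/RingS: THE RIDGE CONDITION FROM TILES WITH DISJOINT INTERIORS, for facets whose type and gluing map do not depend on
the state (helper85)
-/

set_option autoImplicit false

open Set Metric
open scoped RealInnerProductSpace

namespace Pool.FX65

open Pool.FF24 (HPoly)

variable {E : Type*} [NormedAddCommGroup E] [InnerProductSpace ℝ E] {S : Type*} {P : HPoly E}
  (g : SGlue P S)

theorem nI_succ (s : ℕ → S) (a : ℕ → E × E) (k : ℕ) :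
    ((a k).2 ∈ g.I (s k) → g.nI s a (k + 1) = g.nI s a k + 1) ∧
      ((a k).2 ∉ g.I (s k) → g.nI s a (k + 1) = g.nI s a k) := by
  classical
  unfold SGlue.nI
  rw [Finset.range_add_one, Finset.filter_insert]
  constructor
  · intro h
    rw [if_pos h, Finset.card_insert_of_notMem (by simp)]
  · intro h
    rw [if_neg h]

/-- the sign of the label counts the point reflections -/
theorem sign_nI (s : ℕ → S) (a : ℕ → E × E) (D : ℕ → ℝ × E × S) (hs : ∀ r, (D r).2.2 = s r)
    (hD : ∀ r, D (r + 1) = g.nb (a r).2 (D r)) (k : ℕ) :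
    (Even (g.nI s a k) → (D k).1 = (D 0).1) ∧ (¬ Even (g.nI s a k) → (D k).1 = -(D 0).1) := by
  induction k with
  | zero =>
    have h : g.nI s a 0 = 0 := by simp [SGlue.nI]
    rw [h]
    exact ⟨fun _ => rfl, fun h => absurd Even.zero h⟩
  | succ k ih =>
    by_cases hI : (a k).2 ∈ g.I (s k)
    · have h1 : (D (k + 1)).1 = -(D k).1 := by
        rw [hD k]
        unfold SGlue.nb
        rw [hs k, if_pos hI]
      rw [(nI_succ g s a k).1 hI, h1, Nat.even_add_one]
      refine ⟨fun h => ?_, fun h => ?_⟩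
      · rw [ih.2 h, neg_neg]
      · rw [ih.1 (not_not.1 h)]
    · have h1 : (D (k + 1)).1 = (D k).1 := by
        rw [hD k]
        unfold SGlue.nb
        rw [hs k, if_neg hI]
      rw [(nI_succ g s a k).2 hI, h1]
      exact ih

/-- THE RIDGE CONDITION at flags whose facets do not depend on the state -/
theorem cyc_fixed [FiniteDimensional ℝ E] (s : ℕ → S) (a : ℕ → E × E)
    (hs : ∀ i, s (i + 1) = g.nx (s i) (a i).2 ∧ g.Cross (s i) (a i) (a (i + 1)))
    (hfix : ∀ r, ∀ σ σ' : S, ((a r).2 ∈ g.I σ ↔ (a r).2 ∈ g.I σ') ∧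
      g.c σ (a r).2 = g.c σ' (a r).2)
    (D : ℕ → ℝ × E × S) (h0 : (D 0).1 = 1 ∨ (D 0).1 = -1) (h0s : (D 0).2.2 = s 0)
    (hD : ∀ r, D (r + 1) = g.nb (a r).2 (D r))
    (hd : ∀ r t, ((D r).1, (D r).2.1) ≠ ((D t).1, (D t).2.1) →
      Disjoint (interior (X (D r) '' P.body)) (interior (X (D t) '' P.body))) :
    (a 3 = a 0 ∧ Even (g.nI s a 3)) ∨ (a 4 = a 0 ∧ Even (g.nI s a 4)) ∨
      (a 3 = a 0 ∧ ¬ Even (g.nI s a 3) ∧ a 6 = a 0 ∧ Even (g.nI s a 6)) := by
  classical
  have hDs : ∀ r, (D r).2.2 = s r := by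
    intro r
    induction r with
    | zero => exact h0s
    | succ r ih => rw [hD r, nb_state, ih, (hs r).1]
  have hε : ∀ r, (D r).1 = 1 ∨ (D r).1 = -1 := by
    intro r
    induction r with
    | zero => exact h0
    | succ r ih =>
      rw [hD r]
      unfold SGlue.nb
      split_ifs
      · rcases ih with h | h
        · exact Or.inr (by simp [h])
        · exact Or.inl (by simp [h])
      · exact ih
  have hsq : ∀ r, (D r).1 * (D r).1 = 1 := by
    intro r
    rcases hε r with h | h <;> rw [h] <;> norm_num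
  have hmem2 : ∀ r, (a r).2 ∈ P.N := by
    intro r
    obtain ⟨-, -, -, y, -, hact, -⟩ := (hs r).2
    have h2 : (a r).2 ∈ P.act y := by rw [hact]; simp
    exact h2.1
  -- the gluing data of the facets of the sequence do not depend on the state
  have hstar : ∀ r (σ σ' : S), g.star σ (a r).2 = g.star σ' (a r).2 := by
    intro r σ σ'
    unfold SGlue.star
    by_cases h : (a r).2 ∈ g.I σ
    · rw [if_pos h, if_pos ((hfix r σ σ').1.1 h)]
    · rw [if_neg h, if_neg (fun h' => h ((hfix r σ σ').1.2 h'))]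
  have hj : ∀ r (σ σ' : S) (z : E), g.j σ (a r).2 z = g.j σ' (a r).2 z := by
    intro r σ σ' z
    unfold SGlue.j
    by_cases h : (a r).2 ∈ g.I σ
    · rw [if_pos h, if_pos ((hfix r σ σ').1.1 h), (hfix r σ σ').2]
    · rw [if_neg h, if_neg (fun h' => h ((hfix r σ σ').1.2 h')), (hfix r σ σ').2]
  have hcross : ∀ r (σ σ' : S) (b b' : E × E), b.2 = (a r).2 → g.Cross σ b b' →
      g.Cross σ' b b' := by
    rintro r σ σ' b b' hb ⟨h1, h2, h3, y, hy, h4, h5⟩
    refine ⟨h1, h2, ?_, y, hy, h4, ?_⟩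
    · rw [h3, hb]
      exact hstar r σ σ'
    · rw [← h5, hb, hj r σ σ']
  have hff : ∀ r t, a r = a t → a (r + 1) = a (t + 1) := by
    intro r t h
    have h1 := (hs r).2
    have h2 := (hs t).2
    rw [← h] at h2
    exact Cross_unique h1 (hcross r (s t) (s r) _ _ rfl h2)
  have hchg : ∀ r, ((a r).2 ∈ g.I (s r) ∧ (D (r + 1)).1 = -(D r).1) ∨
      ((a r).2 ∉ g.I (s r) ∧ (D (r + 1)).1 = (D r).1) := by
    intro r
    rw [hD r]
    unfold SGlue.nb
    rw [hDs r]
    by_cases h : (a r).2 ∈ g.I (s r)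
    · left
      exact ⟨h, by rw [if_pos h]⟩
    · right
      exact ⟨h, by rw [if_neg h]⟩
  have hty : ∀ r t, (a r).2 = (a t).2 → ((a r).2 ∈ g.I (s r) ↔ (a t).2 ∈ g.I (s t)) := by
    intro r t h
    rw [← h]
    exact (hfix r (s r) (s t)).1
  have hbb : ∀ r t, a (r + 1) = a (t + 1) → a r = a t := by
    intro r t h
    have h1 := Cross_back (hs r).2
    have h2 := Cross_back (hs t).2
    rw [← (hs r).1] at h1
    rw [← (hs t).1] at h2
    -- the facets
    have h3 : (a (r + 1)).1 = g.star (s r) (a r).2 := (hs r).2.2.2.1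
    have h4 : (a (t + 1)).1 = g.star (s t) (a t).2 := (hs t).2.2.2.1
    have h5 : (a r).2 = (a t).2 := by
      rw [h, h4] at h3
      by_cases hr : (a r).2 ∈ g.I (s r) <;> by_cases ht : (a t).2 ∈ g.I (s t)
      · rw [SGlue.star, SGlue.star, if_pos hr, if_pos ht] at h3
        exact h3.symm
      · rw [SGlue.star, SGlue.star, if_pos hr, if_neg ht] at h3
        -- `a r = - a t`, type reflection; but `- a t` is of type translation in the next state
        have h6 := (g.backT (s t) _ (hmem2 t) ht).1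
        rw [h3] at h6
        exact absurd ((hfix r (s r) _).1.1 hr) h6
      · rw [SGlue.star, SGlue.star, if_neg hr, if_pos ht] at h3
        have h6 := (g.backT (s r) _ (hmem2 r) hr).1
        rw [← h3] at h6
        exact absurd ((hfix t (s t) _).1.1 ht) h6
      · rw [SGlue.star, SGlue.star, if_neg hr, if_neg ht] at h3
        exact (neg_injective h3).symm
    -- `b ↦ Cross (s t) b (a (t+1))` is injective
    obtain ⟨g1, g2, g3, y, hy, g4, g5⟩ := (hs r).2
    have h7 : g.Cross (s t) (a r) (a (t + 1)) := by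
      rw [← h]
      exact hcross r (s r) (s t) _ _ rfl (hs r).2
    have h8 := Cross_back h7
    rw [h5, ← (hs t).1] at h8
    have h9 := Cross_unique h8 h2
    have h10 : (a r).1 = (a t).1 := congrArg Prod.snd h9
    exact Prod.ext h10 h5
  -- the point
  obtain ⟨hne0, -, -, z₀, hz₀, hact₀, -⟩ := (hs 0).2
  have hcrd : ∀ r, crd (D r) (X (D 0) z₀) ∈ P.body ∧
      P.act (crd (D r) (X (D 0) z₀)) = {(a r).1, (a r).2} := by
    intro r
    induction r with
    | zero =>
      rw [crd_X h0]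
      exact ⟨hz₀, hact₀⟩
    | succ r ih =>
      have h1 : crd (D (r + 1)) (X (D 0) z₀) = g.j (s r) (a r).2 (crd (D r) (X (D 0) z₀)) := by
        rw [hD r, crd_nb g (hε r), hDs r]
      rw [h1]
      have h2 : (a r).2 ∈ P.act (crd (D r) (X (D 0) z₀)) := by rw [ih.2]; simp
      refine ⟨(j_mem g (s := s r) h2.1 ⟨ih.1, h2.2⟩).1, ?_⟩
      obtain ⟨g1, g2, g3, y, hy, g4, g5⟩ := (hs r).2
      rw [← g5]
      exact act_j_congr (g := g) ih.1 hy (ih.2.trans g4.symm) h2
  have hnb : ∀ r, (D (r + 1)).1 • (a (r + 1)).1 = -((D r).1 • (a r).2) := by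
    intro r
    rw [(hs r).2.2.2.1]
    rcases hchg r with ⟨h1, h2⟩ | ⟨h1, h2⟩
    · rw [h2, SGlue.star, if_pos h1, neg_smul]
    · rw [h2, SGlue.star, if_neg h1, smul_neg]
  have hrec : ∀ r, ∃ α β : ℝ, 0 < α ∧
      (D (r + 1)).1 • (a (r + 1)).2 = α • ((D r).1 • (a r).1) + β • ((D r).1 • (a r).2) := by
    intro r
    obtain ⟨α, β, hα, h⟩ := Cross_comb (hs r).2
    refine ⟨α, β, hα, ?_⟩
    rcases h with ⟨hI, hb⟩ | ⟨hI, hb⟩ <;> rcases hchg r with ⟨h1, h2⟩ | ⟨h1, h2⟩
    · rw [hb, h2]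
      module
    · exact absurd hI h1
    · exact absurd h1 hI
    · rw [hb, h2]
      module
  have hli0 : LinearIndependent ℝ ![(a 0).1, (a 0).2] := by
    have h1 : (a 0).1 ∈ P.act z₀ := by rw [hact₀]; simp
    have h2 : (a 0).2 ∈ P.act z₀ := by rw [hact₀]; simp
    exact FF24.act_pair hz₀ h1 h2 hne0
  have key := ring_of_disj P a (fun r => ((D r).1, (D r).2.1)) (X (D 0) z₀)
    (fun r t h => ⟨hff r t h, by
      have h1 := hty r t (by rw [h])
      show (D (r + 1)).1 * (D r).1 = (D (t + 1)).1 * (D t).1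
      rcases hchg r with ⟨h2, h3⟩ | ⟨h2, h3⟩ <;> rcases hchg t with ⟨h4, h5⟩ | ⟨h4, h5⟩
      · rw [h3, h5]
        linarith [hsq r, hsq t]
      · exact absurd (h1.1 h2) h4
      · exact absurd (h1.2 h4) h2
      · rw [h3, h5, hsq, hsq]⟩)
    hbb hε hcrd hnb hrec hli0 hd
  have h00 : (D 0).1 ≠ 0 := by
    intro h
    have := hsq 0
    rw [h, zero_mul] at this
    exact zero_ne_one this
  have hE : ∀ k, (D k).1 = (D 0).1 → Even (g.nI s a k) := by
    intro k hk
    by_contra hcon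
    have h1 := (sign_nI g s a D hDs hD k).2 hcon
    rw [hk] at h1
    apply h00
    linarith
  have hO : ∀ k, (D k).1 = -(D 0).1 → ¬ Even (g.nI s a k) := by
    intro k hk hcon
    have h1 := (sign_nI g s a D hDs hD k).1 hcon
    rw [hk] at h1
    apply h00
    linarith
  rcases key with ⟨h1, h2⟩ | ⟨h1, h2⟩ | ⟨h1, h2, h3, h4⟩
  · exact Or.inl ⟨h1, hE 3 h2⟩
  · exact Or.inr (Or.inl ⟨h1, hE 4 h2⟩)
  · exact Or.inr (Or.inr ⟨h1, hO 3 h2, h3, hE 6 h4⟩)

end Pool.FX65
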