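import Pool.Agent.FX65.ActTwo
import Pool.Agent.FX56.Phase

set_option autoImplicit false

/-!
# FX65/Simple: the ridge condition for phases in a simple form

`Simple`: on every walk around a ridge the flag repeats after 3 steps, and then the phase repeats or is changed by `q`, or the
flag and the phase repeat after 4 steps. It implies `Cyc` of the state gluing (the numbers of the point reflections and
the six-step case follow).
-/

open Set Metric
open scoped RealInnerProductSpace

namespace Pool.FX65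

open Pool.FF24 (HPoly)
open Pool.FX56 (Phases Up)

variable {E : Type*} [NormedAddCommGroup E] [InnerProductSpace ℝ E] {P : HPoly E} {q : ℕ}
  {x : E → ZMod (2 * q)}

/-- a walk around a ridge -/
def Walk (h : Phases P q x) (s : ℕ → ZMod (2 * q)) (a : ℕ → E × E) : Prop :=
  ∀ i, s (i + 1) = h.glue.nx (s i) (a i).2 ∧ h.glue.Cross (s i) (a i) (a (i + 1))

/-- the ridge condition in a simple form -/
def Simple (h : Phases P q x) : Prop := ∀ (s : ℕ → ZMod (2 * q)) (a : ℕ → E × E), Walk h s a →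
  (a 3 = a 0 ∧ (s 3 = s 0 ∨ s 3 = s 0 + (q : ZMod (2 * q)))) ∨ (a 4 = a 0 ∧ s 4 = s 0)

theorem Walk.mem {h : Phases P q x} {s : ℕ → ZMod (2 * q)} {a : ℕ → E × E} (hw : Walk h s a)
    (i : ℕ) : (a i).2 ∈ P.N := by
  obtain ⟨-, -, -, y, -, hy, -⟩ := (hw i).2
  have h2 : (a i).2 ∈ P.act y := by rw [hy]; simp
  exact h2.1

theorem Walk.shift {h : Phases P q x} {s : ℕ → ZMod (2 * q)} {a : ℕ → E × E} (hw : Walk h s a)
    (k : ℕ) : Walk h (fun i => s (i + k)) (fun i => a (i + k)) := by
  intro i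
  have h1 := hw (i + k)
  have e : i + k + 1 = i + 1 + k := by ring
  rw [e] at h1
  exact h1

/-- a walk can be reversed -/
theorem Walk.back {h : Phases P q x} {s : ℕ → ZMod (2 * q)} {a : ℕ → E × E} (hw : Walk h s a)
    {i j : ℕ} (h1 : s (i + 1) = s (j + 1)) (h2 : a (i + 1) = a (j + 1)) : s i = s j ∧ a i = a j := by
  have k1 := hw i
  have k2 := hw j
  have e1 : s i = h.glue.nx (s (i + 1)) (a (i + 1)).1 := by
    rw [k1.1, k1.2.2.2.1, nx_nx h.glue (hw.mem i)]
  have e2 : s j = h.glue.nx (s (j + 1)) (a (j + 1)).1 := by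
    rw [k2.1, k2.2.2.2.1, nx_nx h.glue (hw.mem j)]
  have hs : s i = s j := by rw [e1, e2, h1, h2]
  have b1 := Cross_back k1.2
  have b2 := Cross_back k2.2
  rw [← k1.1] at b1
  rw [← k2.1, ← h1, ← h2] at b2
  have e := Cross_unique b1 b2
  have e3 := (Prod.mk.inj e).1
  have e4 := (Prod.mk.inj e).2
  exact ⟨hs, Prod.ext e4 e3⟩

/-- the number of the point reflections and the signs -/
theorem Walk.even {h : Phases P q x} {s : ℕ → ZMod (2 * q)} {a : ℕ → E × E} (hw : Walk h s a)
    (k : ℕ) : Even (h.glue.nI s a k) ↔ (Up (s k) ↔ Up (s 0)) := by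
  classical
  induction k with
  | zero => simp [SGlue.nI]
  | succ k ih =>
    have e1 : s (k + 1) = FX56.nxt x (s k) (a k).2 := (hw k).1
    have hI : (a k).2 ∈ h.glue.I (s k) ↔ (Up (s (k + 1)) ↔ ¬ Up (s k)) := by
      rw [e1]
      exact Iff.rfl
    have hn : h.glue.nI s a (k + 1) = h.glue.nI s a k +
        if (a k).2 ∈ h.glue.I (s k) then 1 else 0 := by
      unfold SGlue.nI
      rw [Finset.range_add_one, Finset.filter_insert]
      split_ifs with h1
      · rw [Finset.card_insert_of_notMem (by simp)]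
      · rfl
    rw [hn]
    by_cases h1 : (a k).2 ∈ h.glue.I (s k)
    · rw [if_pos h1, Nat.even_add_one, ih]
      have h2 := hI.1 h1
      tauto
    · rw [if_neg h1, add_zero, ih]
      have h2 : ¬ (Up (s (k + 1)) ↔ ¬ Up (s k)) := fun h3 => h1 (hI.2 h3)
      tauto

/-- THE SIMPLE FORM implies the ridge condition of the state gluing -/
theorem cyc_of_simple (h : Phases P q x) (hS : Simple h) : h.glue.Cyc := by
  intro s a hw
  have hw' : Walk h s a := hw
  have hq0 : ¬ (Up (s 0 + (q : ZMod (2 * q))) ↔ Up (s 0)) := by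
    have := FX56.up_add_q h.pos (s 0)
    tauto
  have hne : s 0 + (q : ZMod (2 * q)) ≠ s 0 := fun h1 => hq0 (by rw [h1])
  rcases hS s a hw' with ⟨h3, h4 | h4⟩ | ⟨h3, h4⟩
  · exact Or.inl ⟨h3, h4, (hw'.even 3).2 (by rw [h4])⟩
  · rcases hS _ _ (hw'.shift 3) with ⟨h5, h6 | h6⟩ | ⟨h5, h6⟩
    · exfalso
      change s 6 = s 3 at h6
      change a 6 = a 3 at h5
      have k1 := hw'.back (i := 5) (j := 2) h6 h5
      have k2 := hw'.back (i := 4) (j := 1) k1.1 k1.2
      have k3 := hw'.back (i := 3) (j := 0) k2.1 k2.2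
      exact hne (h4.symm.trans k3.1)
    · change s 6 = s 3 + (q : ZMod (2 * q)) at h6
      change a 6 = a 3 at h5
      have h7 : s 6 = s 0 := by
        rw [h6, h4, add_assoc, FX56.q_add_q, add_zero]
      refine Or.inr (Or.inr ⟨h3, ?_, h5.trans h3, h7, (hw'.even 6).2 (by rw [h7])⟩)
      rw [hw'.even 3, h4]
      exact hq0
    · change s 7 = s 3 at h6
      change a 7 = a 3 at h5
      have k1 := hw'.back (i := 6) (j := 2) h6 h5
      have k2 := hw'.back (i := 5) (j := 1) k1.1 k1.2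
      have k3 := hw'.back (i := 4) (j := 0) k2.1 k2.2
      exact Or.inr (Or.inl ⟨k3.2, k3.1, (hw'.even 4).2 (by rw [k3.1])⟩)
  · exact Or.inr (Or.inl ⟨h3, h4, (hw'.even 4).2 (by rw [h4])⟩)

end Pool.FX65
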