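import Pool.Agent.FX56.Phase
import Pool.Agent.FX65.ActTwo
import Pool.Agent.FX65.Phase28
import Pool.Agent.CC95.Disp

set_option autoImplicit false

/-!
# FX65/StS48: static closing of the walks around a ridge of a belt of 4 or 6 facets

`Rg P n σ τ`: the facets `n i` form a closed belt, `σ i` is the next facet, `τ i` the opposite one. `Rg.step`: a crossing of the
facet `n (σ i)`, entered through `n i`, leads to the flag `(n (σ i), n (σ (σ i)))` (point reflection) or to its negative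
(translation). `Pos`: the position of a flag, corrected by the sign of the phase: `Pos.step`: it moves from `i` to `τ (σ i)`
and the phase changes by `x (n (σ i))`. So after 3 steps (belt of 6 facets) or 4 steps (belt of 4 facets) everything is back.
-/

open Set Metric
open scoped RealInnerProductSpace

namespace Pool.FX65

open Pool.FF24 Pool.FF56 Pool.FF57

variable {E : Type*} [NormedAddCommGroup E] [InnerProductSpace ℝ E]

/-- a closed belt of facets -/
structure Rg (P : HPoly E) {ι : Type} (n : ι → E) (σ τ : ι → ι) : Prop where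
  fl : ∀ i, ∃ y ∈ P.body, P.act y = {n i, n (σ i)}
  ne : ∀ i, n i ≠ n (σ i)
  neg : ∀ i, n (τ i) = -n i
  comm : ∀ i, σ (τ i) = τ (σ i)
  opp : ∀ i, ∃ A W : ℝ, W < 0 ∧ n (σ (σ i)) = A • n (σ i) + W • n i

variable {P : HPoly E} {ι : Type} {n : ι → E} {σ τ σ' : ι → ι}

theorem Rg.mem (R : Rg P n σ τ) (i : ι) : n i ∈ P.N := by
  obtain ⟨y, -, h⟩ := R.fl i
  have : n i ∈ P.act y := by rw [h]; simp
  exact this.1

theorem Rg.step {S : Type*} {g : SGlue P S} (R : Rg P n σ τ) {s : S} {i : ι} {b : E × E}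
    (h : g.Cross s (n i, n (σ i)) b) :
    (n (σ i) ∈ g.I s ∧ b = (n (σ i), n (σ (σ i)))) ∨
      (n (σ i) ∉ g.I s ∧ b = (n (τ (σ i)), n (τ (σ (σ i))))) := by
  obtain ⟨x, y, hx, hc⟩ := Cross_comb h
  obtain ⟨h1, h2, h3, z, hz, h4, h5⟩ := h
  obtain ⟨A, W, hW, hop⟩ := R.opp i
  have hv : n (σ i) ∈ P.act z := by
    have : P.act z = {n i, n (σ i)} := h4
    rw [this]
    simp
  have hzb : g.j s (n (σ i)) z ∈ P.body := (j_mem g (s := s) hv.1 ⟨hz, hv.2⟩).1
  have h5' : P.act (g.j s (n (σ i)) z) = {b.1, b.2} := h5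
  have h3' : b.1 = g.star s (n (σ i)) := h3
  rcases hc with ⟨hI, hb⟩ | ⟨hI, hb⟩
  · left
    have hI' : n (σ i) ∈ g.I s := hI
    have hb' : b.2 = -(x • n i + y • n (σ i)) := hb
    refine ⟨hI', ?_⟩
    have e1 : b.1 = n (σ i) := by
      rw [h3']
      unfold SGlue.star
      rw [if_pos hI']
    obtain ⟨z', hz', hf⟩ := R.fl (σ i)
    rw [e1] at h5'
    have e2 := CC95.Uni.flag_unique hzb hz' h5' hf (A := -y) (W := -x) (w := n i) (A' := A) (W' := W)
      (by rw [hb']; module) hop (by nlinarith)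
    exact Prod.ext e1 e2
  · right
    have hI' : n (σ i) ∉ g.I s := hI
    have hb' : b.2 = x • n i + y • n (σ i) := hb
    refine ⟨hI', ?_⟩
    have e1 : b.1 = -n (σ i) := by
      rw [h3']
      unfold SGlue.star
      rw [if_neg hI']
    obtain ⟨z', hz', hf⟩ := R.fl (τ (σ i))
    rw [R.comm, R.neg, R.neg] at hf
    rw [e1] at h5'
    have e2 := CC95.Uni.flag_unique hzb hz' h5' hf (A := -y) (W := x) (w := n i) (A' := A) (W' := -W)
      (by rw [hb']; module) (by rw [hop]; module) (by nlinarith)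
    refine Prod.ext ?_ ?_
    · show b.1 = n (τ (σ i))
      rw [e1, R.neg]
    · show b.2 = n (τ (σ (σ i)))
      rw [e2, R.neg]

/-- a flag of the belt comes from a flag of the belt -/
theorem Rg.back {S : Type*} {g : SGlue P S} (R : Rg P n σ τ) (R' : Rg P n σ' τ)
    (h1 : ∀ i, σ' (σ i) = i) (h2 : ∀ i, σ (σ' i) = i) {s : S} {a : E × E} {i : ι}
    (h : g.Cross s a (n i, n (σ i))) : ∃ j, a = (n j, n (σ j)) := by
  have hb := Cross_back h
  have hb' : g.Cross (g.nx s a.2) (n (σ i), n (σ' (σ i))) (a.2, a.1) := by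
    rw [h1]
    exact hb
  have fin : ∀ j, (a.2, a.1) = (n j, n (σ' j)) → ∃ j, a = (n j, n (σ j)) := by
    intro j e
    have e1 : a.2 = n j := congrArg Prod.fst e
    have e2 : a.1 = n (σ' j) := congrArg Prod.snd e
    exact ⟨σ' j, Prod.ext e2 (by rw [h2]; exact e1)⟩
  rcases R'.step hb' with ⟨-, e⟩ | ⟨-, e⟩
  · rw [h1] at e
    exact fin i e
  · rw [h1] at e
    refine fin (τ i) ?_
    rw [e, R'.comm]

variable {q : ℕ} {x : E → ZMod (2 * q)}

/-- the position in the belt of a flag of a copy with the phase `s` -/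
def Pos (n : ι → E) (σ τ : ι → ι) (i : ι) (s : ZMod (2 * q)) (u : E × E) : Prop :=
  (s.val < q ∧ u = (n i, n (σ i))) ∨ (¬ s.val < q ∧ u = (n (τ i), n (τ (σ i))))

theorem Pos.unique {i : ι} {s : ZMod (2 * q)} {u u' : E × E} (h : Pos n σ τ i s u)
    (h' : Pos n σ τ i s u') : u = u' := by
  rcases h with ⟨h1, h2⟩ | ⟨h1, h2⟩ <;> rcases h' with ⟨h3, h4⟩ | ⟨h3, h4⟩
  · rw [h2, h4]
  · exact absurd h1 h3
  · exact absurd h3 h1
  · rw [h2, h4]

theorem Rg.negneg (R : Rg P n σ τ) (i : ι) : n (τ (τ i)) = n i := by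
  rw [R.neg, R.neg, neg_neg]

theorem Pos.exists_pos (R : Rg P n σ τ) {i : ι} (s : ZMod (2 * q)) {u : E × E}
    (h : u = (n i, n (σ i))) : ∃ j, Pos n σ τ j s u := by
  by_cases hs : s.val < q
  · exact ⟨i, Or.inl ⟨hs, h⟩⟩
  · refine ⟨τ i, Or.inr ⟨hs, ?_⟩⟩
    rw [R.comm, R.negneg, R.negneg]
    exact h

theorem Pos.step (R : Rg P n σ τ) (h : FX56.Phases P q x)
    (hodd : ∀ b ∈ P.N, -b ∈ P.N → x (-b) = - x b) {i : ι} {s s' : ZMod (2 * q)} {a b : E × E}
    (hp : Pos n σ τ i s a) (hs : s' = h.glue.nx s a.2) (hc : h.glue.Cross s a b) :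
    Pos n σ τ (τ (σ i)) s' b ∧ s' = s + x (n (σ i)) := by
  have hs' : s' = FX56.nxt x s a.2 := hs
  have hI : ∀ u, u ∈ h.glue.I s ↔ ¬ (s.val < q ↔ (FX56.nxt x s u).val < q) := by
    intro u
    have h0 : u ∈ h.glue.I s ↔ ((FX56.nxt x s u).val < q ↔ ¬ s.val < q) := Iff.rfl
    rw [h0]
    tauto
  have hx : x (n (τ (σ i))) = - x (n (σ i)) := by
    rw [R.neg]
    exact hodd _ (R.mem _) (by rw [← R.neg]; exact R.mem _)
  rcases hp with ⟨h1, rfl⟩ | ⟨h1, rfl⟩
  · have e : FX56.nxt x s (n (σ i)) = s + x (n (σ i)) := if_pos h1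
    have e' : s' = FX56.nxt x s (n (σ i)) := hs'
    refine ⟨?_, e'.trans e⟩
    rcases R.step hc with ⟨h2, h3⟩ | ⟨h2, h3⟩
    · right
      have h4 := (hI _).1 h2
      rw [← e'] at h4
      refine ⟨by tauto, ?_⟩
      rw [h3, R.comm, R.negneg, R.negneg]
    · left
      have h4 : (s.val < q ↔ (FX56.nxt x s (n (σ i))).val < q) := by
        by_contra hcon
        exact h2 ((hI _).2 hcon)
      rw [← e'] at h4
      refine ⟨by tauto, ?_⟩
      rw [h3, R.comm]
  · have e : FX56.nxt x s (n (τ (σ i))) = s + x (n (σ i)) := by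
      have e0 : FX56.nxt x s (n (τ (σ i))) = s - x (n (τ (σ i))) := if_neg h1
      rw [e0, hx]
      abel
    have e' : s' = FX56.nxt x s (n (τ (σ i))) := hs'
    refine ⟨?_, e'.trans e⟩
    rw [← R.comm i] at hc e'
    rcases R.step hc with ⟨h2, h3⟩ | ⟨h2, h3⟩
    · left
      have h4 := (hI _).1 h2
      rw [← e'] at h4
      refine ⟨by tauto, ?_⟩
      rw [h3, R.comm]
    · right
      have h4 : (s.val < q ↔ (FX56.nxt x s (n (σ (τ i)))).val < q) := by
        by_contra hcon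
        exact h2 ((hI _).2 hcon)
      rw [← e'] at h4
      refine ⟨by tauto, ?_⟩
      rw [h3, R.comm i]

/-- the parity of the number of the point reflections -/
theorem nI_par (h : FX56.Phases P q x) (s : ℕ → ZMod (2 * q)) (a : ℕ → E × E)
    (hs : ∀ i, s (i + 1) = h.glue.nx (s i) (a i).2) (k : ℕ) :
    Even (h.glue.nI s a k) ↔ ((s 0).val < q ↔ (s k).val < q) := by
  classical
  induction k with
  | zero =>
    simp [SGlue.nI]
  | succ k ih =>
    have h1 : (a k).2 ∈ h.glue.I (s k) ↔ ¬ ((s k).val < q ↔ (s (k + 1)).val < q) := by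
      have h0 : (a k).2 ∈ h.glue.I (s k) ↔
          ((h.glue.nx (s k) (a k).2).val < q ↔ ¬ (s k).val < q) := Iff.rfl
      rw [h0, hs k]
      tauto
    have h2 : h.glue.nI s a (k + 1) = h.glue.nI s a k +
        if (a k).2 ∈ h.glue.I (s k) then 1 else 0 := by
      unfold SGlue.nI
      rw [Finset.range_add_one, Finset.filter_insert]
      split_ifs with h3
      · rw [Finset.card_insert_of_notMem]
        simp
      · rfl
    rw [h2]
    by_cases h3 : (a k).2 ∈ h.glue.I (s k)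
    · rw [if_pos h3, Nat.even_add_one, ih]
      have := h1.1 h3
      tauto
    · rw [if_neg h3, add_zero, ih]
      have h4 : ((s k).val < q ↔ (s (k + 1)).val < q) := by
        by_contra hcon
        exact h3 (h1.2 hcon)
      tauto

theorem Pos.congr (R : Rg P n σ τ) {i j : ι} {s : ZMod (2 * q)} {u : E × E} (h1 : n i = n j)
    (h2 : n (σ i) = n (σ j)) (h : Pos n σ τ i s u) : Pos n σ τ j s u := by
  unfold Pos at h ⊢
  rw [R.neg, R.neg] at h ⊢
  rw [← h1, ← h2]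
  exact h

/-- a belt of 4 facets -/
theorem Rg.close4 (R : Rg P n σ τ) (h : FX56.Phases P q x)
    (hodd : ∀ b ∈ P.N, -b ∈ P.N → x (-b) = - x b) (h4 : ∀ i, σ (σ i) = τ i)
    (s : ℕ → ZMod (2 * q)) (a : ℕ → E × E)
    (hw : ∀ i, s (i + 1) = h.glue.nx (s i) (a i).2 ∧ h.glue.Cross (s i) (a i) (a (i + 1)))
    {i : ι} (h0 : a 0 = (n i, n (σ i))) :
    a 4 = a 0 ∧ s 4 = s 0 ∧ Even (h.glue.nI s a 4) := by
  obtain ⟨j, p0⟩ := Pos.exists_pos R (s 0) h0
  obtain ⟨p1, e1⟩ := p0.step R h hodd (hw 0).1 (hw 0).2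
  obtain ⟨p2, e2⟩ := p1.step R h hodd (hw 1).1 (hw 1).2
  obtain ⟨p3, e3⟩ := p2.step R h hodd (hw 2).1 (hw 2).2
  obtain ⟨p4, e4⟩ := p3.step R h hodd (hw 3).1 (hw 3).2
  have hx : ∀ k, x (-(n k)) = - x (n k) := fun k =>
    hodd _ (R.mem _) (by rw [← R.neg]; exact R.mem _)
  have hs : s 4 = s 0 := by
    have e1' : s 1 = s 0 + x (n (σ j)) := e1
    have e2' : s 2 = s 1 + x (n (σ (τ (σ j)))) := e2
    have e3' : s 3 = s 2 + x (n (σ (τ (σ (τ (σ j)))))) := e3
    have e4' : s 4 = s 3 + x (n (σ (τ (σ (τ (σ (τ (σ j)))))))) := e4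
    simp only [R.comm, h4, R.neg, neg_neg, hx] at e1' e2' e3' e4'
    rw [e4', e3', e2', e1']
    abel
  have p4' : Pos n σ τ j (s 4) (a 4) := p4.congr R
    (by simp only [R.comm, h4, R.neg, neg_neg]) (by simp only [R.comm, h4, R.neg, neg_neg])
  rw [hs] at p4'
  refine ⟨p4'.unique p0, hs, ?_⟩
  rw [nI_par h s a (fun i => (hw i).1) 4, hs]

/-- a belt of 6 facets -/
theorem Rg.close6 (R : Rg P n σ τ) (h : FX56.Phases P q x)
    (hodd : ∀ b ∈ P.N, -b ∈ P.N → x (-b) = - x b) (h6 : ∀ i, σ (σ (σ i)) = τ i)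
    (hadd : ∀ i, x (n (σ i)) = x (n i) + x (n (σ (σ i))))
    (s : ℕ → ZMod (2 * q)) (a : ℕ → E × E)
    (hw : ∀ i, s (i + 1) = h.glue.nx (s i) (a i).2 ∧ h.glue.Cross (s i) (a i) (a (i + 1)))
    {i : ι} (h0 : a 0 = (n i, n (σ i))) :
    a 3 = a 0 ∧ s 3 = s 0 ∧ Even (h.glue.nI s a 3) := by
  obtain ⟨j, p0⟩ := Pos.exists_pos R (s 0) h0
  obtain ⟨p1, e1⟩ := p0.step R h hodd (hw 0).1 (hw 0).2
  obtain ⟨p2, e2⟩ := p1.step R h hodd (hw 1).1 (hw 1).2
  obtain ⟨p3, e3⟩ := p2.step R h hodd (hw 2).1 (hw 2).2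
  have hx : ∀ k, x (-(n k)) = - x (n k) := fun k =>
    hodd _ (R.mem _) (by rw [← R.neg]; exact R.mem _)
  have hs : s 3 = s 0 := by
    have e1' : s 1 = s 0 + x (n (σ j)) := e1
    have e2' : s 2 = s 1 + x (n (σ (τ (σ j)))) := e2
    have e3' : s 3 = s 2 + x (n (σ (τ (σ (τ (σ j)))))) := e3
    simp only [R.comm, h6, R.neg, neg_neg, hx] at e1' e2' e3'
    rw [e3', e2', e1', hadd j]
    abel
  have p3' : Pos n σ τ j (s 3) (a 3) := p3.congr R
    (by simp only [R.comm, h6, R.neg, neg_neg]) (by simp only [R.comm, h6, R.neg, neg_neg])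
  rw [hs] at p3'
  refine ⟨p3'.unique p0, hs, ?_⟩
  rw [nI_par h s a (fun i => (hw i).1) 3, hs]

/-- the flags at the beginning of a walk which meets the belt belong to the belt -/
theorem Rg.start {S : Type*} {g : SGlue P S} (R : Rg P n σ τ) (R' : Rg P n σ' τ)
    (h1 : ∀ i, σ' (σ i) = i) (h2 : ∀ i, σ (σ' i) = i) (s : ℕ → S) (a : ℕ → E × E)
    (hw : ∀ i, g.Cross (s i) (a i) (a (i + 1))) (k : ℕ) {i : ι} (h : a k = (n i, n (σ i))) :
    ∃ j, a 0 = (n j, n (σ j)) := by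
  induction k generalizing i with
  | zero => exact ⟨i, h⟩
  | succ k ih =>
    have h3 := hw k
    rw [h] at h3
    obtain ⟨j, hj⟩ := R.back R' h1 h2 h3
    exact ih hj

/-- the same belt in the other direction -/
theorem Rg.rev (R : Rg P n σ τ) (h1 : ∀ i, σ' (σ i) = i) (h2 : ∀ i, σ (σ' i) = i) :
    Rg P n σ' τ where
  fl := fun i => by
    obtain ⟨y, hy, h⟩ := R.fl (σ' i)
    rw [h2] at h
    exact ⟨y, hy, by rw [h, Set.pair_comm]⟩
  ne := fun i => by
    have := (R.ne (σ' i)).symm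
    rwa [h2] at this
  neg := R.neg
  comm := fun i => by
    have h3 := R.comm (σ' i)
    rw [h2] at h3
    rw [← h3, h1]
  opp := fun i => by
    obtain ⟨A, W, hW, h3⟩ := R.opp (σ' (σ' i))
    rw [h2, h2] at h3
    refine ⟨-(A / W), 1 / W, one_div_neg.2 hW, ?_⟩
    rw [h3]
    have hW0 : W ≠ 0 := hW.ne
    rw [smul_add, smul_smul, smul_smul, one_div, inv_mul_cancel₀ hW0, one_smul, ← add_assoc, ← add_smul]
    have e : -(A / W) + W⁻¹ * A = 0 := by
      rw [div_eq_inv_mul]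
      ring
    rw [e, zero_smul, zero_add]

theorem forall4 {Q : Fin 4 → Prop} (h0 : Q 0) (h1 : Q 1) (h2 : Q 2) (h3 : Q 3) : ∀ i, Q i := by
  intro i
  fin_cases i
  · exact h0
  · exact h1
  · exact h2
  · exact h3

theorem forall6 {Q : Fin 6 → Prop} (h0 : Q 0) (h1 : Q 1) (h2 : Q 2) (h3 : Q 3) (h4 : Q 4) (h5 : Q 5) :
    ∀ i, Q i := by
  intro i
  fin_cases i
  · exact h0
  · exact h1
  · exact h2
  · exact h3
  · exact h4
  · exact h5

variable {a c ca y r r' l l' : E}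

/-- the belt of a parallelogram -/
theorem ring4 (D : CC95.Dat P a c ca y r r' l l') (h : l' = -r) :
    Rg P (![a, r, -a, -r] : Fin 4 → E) (fun i => i + 1) (fun i => i + 2) := by
  obtain ⟨e1, e2, -⟩ := CC95.disp_para D h
  obtain ⟨w, -, -, -, -, -, -, n1, n2, n3⟩ := D.coord
  have hyc : y + c ∈ P.body := ((D.hc y).1 D.yfc).1
  have hyc' : ca - y + c ∈ P.body := ((D.hc _).1 D.y'fc).1
  refine ⟨forall4 ?_ ?_ ?_ ?_, forall4 ?_ ?_ ?_ ?_, forall4 ?_ ?_ ?_ ?_, by decide,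
    forall4 ?_ ?_ ?_ ?_⟩
  · exact ⟨y, D.hy, D.hr⟩
  · exact ⟨y + c, hyc, by rw [D.hr', ← e1]; exact Set.pair_comm _ _⟩
  · exact ⟨ca - y + c, hyc', by rw [D.hl, e2]; rfl⟩
  · exact ⟨ca - y, D.y'fc.1, by rw [D.hl', h]; exact Set.pair_comm _ _⟩
  · exact D.hra.symm
  · show r ≠ -a
    rw [e1]
    exact n1
  · show -a ≠ -r
    exact fun h => D.hra.symm (neg_injective h)
  · show -r ≠ a
    rw [← h]
    exact n2
  · rfl
  · rfl
  · show a = - -a
    rw [neg_neg]
  · show r = - -r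
    rw [neg_neg]
  · exact ⟨0, -1, by norm_num, by show -a = (0 : ℝ) • r + (-1 : ℝ) • a; module⟩
  · exact ⟨0, -1, by norm_num, by show -r = (0 : ℝ) • (-a) + (-1 : ℝ) • r; module⟩
  · exact ⟨0, -1, by norm_num, by show a = (0 : ℝ) • (-r) + (-1 : ℝ) • (-a); module⟩
  · exact ⟨0, -1, by norm_num, by show r = (0 : ℝ) • a + (-1 : ℝ) • (-r); module⟩

/-- the belt of a hexagon -/
theorem ring6 (D : CC95.Dat P a c ca y r r' l l') (H : CC95.Hex P y r r' l l') :
    Rg P (![a, r, r', -a, -r, -r'] : Fin 6 → E) (fun i => i + 1) (fun i => i + 3) := by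
  obtain ⟨w, haw, hw, ⟨A1, cr⟩, ⟨A2, W2, hW2, cr'⟩, -, -, n1, n2, n3⟩ := D.coord
  obtain ⟨zI, hzI, aI, -⟩ := H.z1
  obtain ⟨zL, hzL, aL, -⟩ := H.z2
  have hrm : r ∈ P.act y := by rw [D.hr]; simp
  have hrm' : r' ∈ P.act (y + c) := by rw [D.hr']; simp
  have ur := P.unit _ hrm.1
  have ur' := P.unit _ hrm'.1
  have ua : ‖a‖ = 1 := P.unit a D.ha
  have hyc : y + c ∈ P.fc (-a) := (D.hc y).1 D.yfc
  have hyc' : ca - y + c ∈ P.body := ((D.hc _).1 D.y'fc).1
  have cna : -a = (-1 : ℝ) • a + (0 : ℝ) • w := by module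
  have d1 : 0 < A1 * W2 - A2 * 1 := by
    by_contra hc
    push Not at hc
    rcases hc.lt_or_eq with h2 | h2
    · exact CC95.btw ua haw hw hyc.1 (by rw [D.hr', Set.pair_comm]) hrm.1 cr' cna cr (by linarith) (by linarith)
        (by linarith)
    · exact H.ne (CC95.eq_of_det ur ur' cr cr' (by linarith) (by linarith))
  have W20 : W2 ≠ 0 := hW2.ne'
  set δ : ℝ := A1 * W2 - A2 * 1 with hδ
  have key : r' = W2 • r + (-δ) • a := by
    rw [cr, cr', hδ]
    module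
  have k1 : -a = (1 / δ) • r' + (-W2 / δ) • r := by
    rw [key, smul_add, smul_smul, smul_smul]
    have e1 : 1 / δ * -δ = -1 := by field_simp
    have e2 : -W2 / δ = -(1 / δ * W2) := by ring
    rw [e1, e2]
    module
  have k2 : -r = (δ / W2) • (-a) + (-1 / W2) • r' := by
    rw [key, smul_add, smul_smul, smul_smul]
    have e1 : -1 / W2 * W2 = -1 := by field_simp
    have e2 : -1 / W2 * -δ = δ / W2 := by ring
    rw [e1, e2]
    module
  refine ⟨forall6 ?_ ?_ ?_ ?_ ?_ ?_, forall6 ?_ ?_ ?_ ?_ ?_ ?_, forall6 ?_ ?_ ?_ ?_ ?_ ?_, by decide,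
    forall6 ?_ ?_ ?_ ?_ ?_ ?_⟩
  · exact ⟨y, D.hy, D.hr⟩
  · exact ⟨zI, hzI, aI⟩
  · exact ⟨y + c, hyc.1, by rw [D.hr']; exact Set.pair_comm _ _⟩
  · exact ⟨ca - y + c, hyc', by rw [D.hl, H.hl]; rfl⟩
  · exact ⟨zL, hzL, aL⟩
  · exact ⟨ca - y, D.y'fc.1, by rw [D.hl', H.hl']; exact Set.pair_comm _ _⟩
  · exact D.hra.symm
  · exact H.ne
  · exact n1
  · show -a ≠ -r
    exact fun h => D.hra.symm (neg_injective h)
  · show -r ≠ -r'
    exact fun h => H.ne (neg_injective h)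
  · show -r' ≠ a
    rw [← H.hl']
    exact n2
  · rfl
  · rfl
  · rfl
  · show a = - -a
    rw [neg_neg]
  · show r = - -r
    rw [neg_neg]
  · show r' = - -r'
    rw [neg_neg]
  · exact ⟨W2, -δ, by linarith, key⟩
  · exact ⟨1 / δ, -W2 / δ, div_neg_of_neg_of_pos (by linarith) d1, k1⟩
  · exact ⟨δ / W2, -1 / W2, div_neg_of_neg_of_pos (by norm_num) hW2, k2⟩
  · refine ⟨W2, -δ, by linarith, ?_⟩
    show -r' = W2 • (-r) + (-δ) • (-a)
    rw [key]
    module
  · refine ⟨1 / δ, -W2 / δ, div_neg_of_neg_of_pos (by linarith) d1, ?_⟩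
    show a = (1 / δ) • (-r') + (-W2 / δ) • (-r)
    have : a = -(-a) := by rw [neg_neg]
    rw [this, k1]
    module
  · refine ⟨δ / W2, -1 / W2, div_neg_of_neg_of_pos (by norm_num) hW2, ?_⟩
    show r = (δ / W2) • a + (-1 / W2) • (-r')
    have : r = -(-r) := by rw [neg_neg]
    rw [this, k2]
    module

variable {T : Set (ℝ × E)}

/-- **static closing** -/
theorem st48 [FiniteDimensional ℝ E] (hT : IsFF P T) {q : ℕ} {x : E → ZMod (2 * q)} (h : FX56.Phases P q x)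
    (hadd : ∀ C, Ctr P T C → ∀ b W b' W' b'' W'' : E, Dsp2 P C b W → Dsp2 P C b' W' →
      Dsp2 P C b'' W'' → W = W' + W'' → x b = x b' + x b'')
    {s : ℕ → ZMod (2 * q)} {a : ℕ → E × E}
    (hw : ∀ i, s (i + 1) = h.glue.nx (s i) (a i).2 ∧ h.glue.Cross (s i) (a i) (a (i + 1)))
    (hv : ∃ i, Varies P T (a i).2) :
    (a 3 = a 0 ∧ s 3 = s 0 ∧ Even (h.glue.nI s a 3)) ∨
      (a 4 = a 0 ∧ s 4 = s 0 ∧ Even (h.glue.nI s a 4)) := by
  obtain ⟨k, hv⟩ := hv
  have hodd : ∀ b ∈ P.N, -b ∈ P.N → x (-b) = - x b := fun b hb hb' => h.odd' hb hb'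
  obtain ⟨c, ca, hα, hα', hca, hc, hd⟩ := CC95.data_of_varies hT hv
  obtain ⟨h1, -, -, y, hy, h4, -⟩ := (hw k).2
  obtain ⟨r', l, l', D, hD⟩ := hd y hy (a k).1 h1.symm (by rw [h4, Set.pair_comm])
  have hak : a k = ((a k).1, (a k).2) := rfl
  rcases hD with hp | H
  · right
    have R := ring4 D hp
    have R' := R.rev (σ' := fun i => i + 3) (by decide) (by decide)
    obtain ⟨j, hj⟩ := R'.start R (by decide) (by decide) s a (fun i => (hw i).2) k (i := 1) hak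
    exact R'.close4 h hodd (by decide) s a hw hj
  · left
    have R := ring6 D H
    have R' := R.rev (σ' := fun i => i + 5) (by decide) (by decide)
    obtain ⟨j, hj⟩ := R'.start R (by decide) (by decide) s a (fun i => (hw i).2) k (i := 1) hak
    have hC : Ctr P T (ca + c) := ⟨_, hv, isC_of hα hα' hca hc⟩
    obtain ⟨d1, d2⟩ := CC95.disp_a hα hα' hca hc
    obtain ⟨t, d3, d4, d5, d6, -, -⟩ := CC95.disp_hex D H
    have m1 : (a k).1 ∈ P.N := R.mem 1
    have m1' : -(a k).1 ∈ P.N := R.mem 4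
    have m2 : r' ∈ P.N := R.mem 2
    have m2' : -r' ∈ P.N := R.mem 5
    have key := hadd _ hC (a k).1 (-t) (a k).2 (-c) r' (c - t) ⟨m1, m1', d3, by rw [neg_neg]; exact d4⟩
      ⟨hα, hα', d1, by rw [neg_neg]; exact d2⟩ ⟨m2, m2', d5, by rw [neg_sub]; exact d6⟩ (by abel)
    have o1 := hodd _ hα hα'
    have o2 := hodd _ m1 m1'
    have o3 := hodd _ m2 m2'
    refine R'.close6 h hodd (by decide) (forall6 ?_ ?_ ?_ ?_ ?_ ?_) s a hw hj
    · show x (-r') = x (a k).2 + x (-(a k).1)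
      rw [o3, o2, key]
      abel
    · show x (a k).2 = x (a k).1 + x (-r')
      rw [o3, key]
      abel
    · show x (a k).1 = x r' + x (a k).2
      rw [key]
      abel
    · show x r' = x (-(a k).2) + x (a k).1
      rw [o1, key]
      abel
    · show x (-(a k).2) = x (-(a k).1) + x r'
      rw [o1, o2, key]
      abel
    · show x (-(a k).1) = x (-r') + x (-(a k).2)
      rw [o1, o2, o3, key]
      abel

end Pool.FX65
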