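import Pool.Agent.FX56.Phase
import Pool.Agent.FX65.Phase28
import Pool.Agent.CC95.Disp
import Pool.Agent.FX65.StS48

set_option autoImplicit false

/-!
# FX65/St: the walks around the ridges of a varying facet close

PROOF. The ridges of a walk are congruent (`CC95.cong_of_mvT`, `cong_of_mvI`), so the ridge of `a 0` is congruent to a
ridge `y` of a varying facet `v` (`(a i).2 = v`). `CC95.data_of_varies`: the belt of `v` and `y` (parallelogram or
hexagon `h 0 = v, h 1 = r, h 2 = r', h (i + 3) = - h i`); the closed cones of its flags cover the plane, so the flag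
`a 0` is a flag of the belt (`FF57.fl_cone`). Then the closing lemma (FX56/Close) with the relation
`x (h 1) = x (h 0) + x (h 2)` from `hadd` with `CC95.disp_a`, `CC95.disp_hex` (`C = ca + c`; `Ctr P T C` by `isC_of`).
-/

open Set Metric
open scoped RealInnerProductSpace

namespace Pool.FX65

open Pool.FF24 Pool.FF56 Pool.FF57

variable {E : Type*} [NormedAddCommGroup E] [InnerProductSpace ℝ E] {P : HPoly E} {T : Set (ℝ × E)}

theorem st [FiniteDimensional ℝ E] (hT : IsFF P T) {q : ℕ} {x : E → ZMod (2 * q)} (h : FX56.Phases P q x)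
    (hadd : ∀ C, Ctr P T C → ∀ b W b' W' b'' W'' : E, Dsp2 P C b W → Dsp2 P C b' W' →
      Dsp2 P C b'' W'' → W = W' + W'' → x b = x b' + x b'')
    {s : ℕ → ZMod (2 * q)} {a : ℕ → E × E}
    (hw : ∀ i, s (i + 1) = h.glue.nx (s i) (a i).2 ∧ h.glue.Cross (s i) (a i) (a (i + 1)))
    (hv : ∃ i, Varies P T (a i).2) :
    (a 3 = a 0 ∧ s 3 = s 0 ∧ Even (h.glue.nI s a 3)) ∨
      (a 4 = a 0 ∧ s 4 = s 0 ∧ Even (h.glue.nI s a 4)) :=
  st48 hT h hadd hw hv

end Pool.FX65
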