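import Pool.Agent.FX65.Defs
import Pool.Agent.FX65.Basic
import Pool.Agent.FX65.BadCov
import Pool.Agent.FF65.Cov
import Pool.Agent.FF85.TileCov

set_option autoImplicit false

/-!
# FX65/TileCov: the tiles of a gluing with states: size, ball inside, closed, convex, local finiteness, covering
-/

open Set Filter Topology Metric
open scoped RealInnerProductSpace

namespace Pool.FX65

open Pool.FF24 (HPoly)

variable {E : Type*} [NormedAddCommGroup E] [InnerProductSpace ℝ E] {S : Type*}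

section
variable {P : HPoly E} (g : SGlue P S)

theorem sign_sq (τ : g.Lab) : τ.1.1 * τ.1.1 = 1 := by
  rcases orb_sign g τ.2 with h | h <;> rw [h] <;> norm_num

theorem norm_sign_smul (τ : g.Lab) (v : E) : ‖τ.1.1 • v‖ = ‖v‖ := by
  rcases orb_sign g τ.2 with h | h <;> rw [h] <;> simp

theorem crd_sub (τ : g.Lab) (x y : E) :
    crd τ.1 x - crd τ.1 y = τ.1.1 • (x - y) := by
  unfold crd
  rw [← smul_sub]
  congr 1
  abel

theorem continuous_crd (τ : ℝ × E × S) : Continuous (crd τ) := by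
  unfold crd
  fun_prop

theorem K_closed (τ : g.Lab) : IsClosed (g.K τ) :=
  (FF85.body_closed P).preimage (continuous_crd τ.1)

theorem K_convex (τ : g.Lab) : Convex ℝ (g.K τ) := by
  intro x hx y hy a b ha hb hab
  have h : crd τ.1 (a • x + b • y) = a • crd τ.1 x + b • crd τ.1 y := by
    unfold crd
    rw [smul_comm a, smul_comm b, ← smul_add]
    congr 1
    have h1 : τ.1.2.1 = a • τ.1.2.1 + b • τ.1.2.1 := by rw [← add_smul, hab, one_smul]
    rw [smul_sub, smul_sub]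
    nth_rewrite 1 [h1]
    abel
  show crd τ.1 (a • x + b • y) ∈ P.body
  rw [h]
  exact FF85.body_convex P hx hy ha hb hab

/-- bounded size and a ball inside, uniformly -/
theorem lab_bounds : ∃ D ρ : ℝ, 0 < ρ ∧ (∀ τ : g.Lab, ∀ x ∈ g.K τ, ∀ y ∈ g.K τ, dist x y ≤ D) ∧
    ∀ τ : g.Lab, ∃ c, ball c ρ ⊆ g.K τ := by
  obtain ⟨r, hr⟩ := P.bdd
  obtain ⟨z₀, hz₀⟩ := P.int
  obtain ⟨ρ, hρ, hball⟩ := Metric.isOpen_iff.1 (FF85.strict_open P) z₀ hz₀
  refine ⟨r + r, ρ, hρ, ?_, ?_⟩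
  · intro τ x hx y hy
    have h1 := hr _ hx
    have h2 := hr _ hy
    rw [dist_eq_norm, ← norm_sign_smul g τ, ← crd_sub g τ]
    exact (norm_sub_le _ _).trans (add_le_add h1 h2)
  · intro τ
    refine ⟨X τ.1 z₀, fun p hp => ?_⟩
    have h3 : crd τ.1 p ∈ ball z₀ ρ := by
      rw [mem_ball, dist_eq_norm]
      have h4 : crd τ.1 p - z₀ = τ.1.1 • (p - X τ.1 z₀) := by
        rw [← crd_sub g τ, crd_X (sign g τ)]
      rw [h4, norm_sign_smul]
      rw [mem_ball, dist_eq_norm] at hp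
      exact hp
    intro u hu
    exact (hball h3 u hu).le

end

variable [FiniteDimensional ℝ E] {P : HPoly E} (g : SGlue P S)

/-- LOCAL FINITENESS -/
theorem lab_locally_finite
    (hdisj : ∀ τ σ : g.Lab, τ ≠ σ → Disjoint (interior (g.K τ)) (interior (g.K σ))) (x : E)
    (r : ℝ) : {τ : g.Lab | (g.K τ ∩ closedBall x r).Nonempty}.Finite := by
  obtain ⟨D, ρ, hρ, h1, h2⟩ := lab_bounds g
  exact FF65.tiles_locally_finite g.K hρ h1 h2 hdisj x r

/-- COVERING, from a dense set -/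
theorem lab_cover
    (hdisj : ∀ τ σ : g.Lab, τ ≠ σ → Disjoint (interior (g.K τ)) (interior (g.K σ)))
    (hdense : Dense (⋃ τ : g.Lab, g.K τ)) : ⋃ τ : g.Lab, g.K τ = univ := by
  obtain ⟨D, ρ, hρ, h1, h2⟩ := lab_bounds g
  exact FF65.tiles_cover g.K hρ h1 h2 hdisj (K_closed g) hdense

/-- COVERING, from generic points -/
theorem lab_cover_generic
    (hdisj : ∀ τ σ : g.Lab, τ ≠ σ → Disjoint (interior (g.K τ)) (interior (g.K σ)))
    (hgen : ∀ᶠ w in residual E, ∃ τ : g.Lab, w ∈ g.K τ) : ∀ x : E, ∃ τ : g.Lab, x ∈ g.K τ := by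
  have : CompleteSpace E := FiniteDimensional.complete ℝ E
  have h1 : Dense {w : E | ∃ τ : g.Lab, w ∈ g.K τ} := dense_of_mem_residual hgen
  have h2 : Dense (⋃ τ : g.Lab, g.K τ) := by
    refine h1.mono ?_
    rintro w ⟨τ, hτ⟩
    exact mem_iUnion.2 ⟨τ, hτ⟩
  have h3 := lab_cover g hdisj h2
  intro x
  have h4 : x ∈ ⋃ τ : g.Lab, g.K τ := h3 ▸ mem_univ x
  exact mem_iUnion.1 h4

end Pool.FX65
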