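import Pool.Agent.FX65.Cone2

set_option autoImplicit false

/-!
# FX65/Two: points with exactly two facets: `FX65.cone_two` is proved in FX65/Cone2
-/
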