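import Pool.Agent.FX65.One
import Pool.Agent.FX65.Two
import Pool.Agent.FX65.Lim
import Pool.Agent.FX65.Loc
import Pool.Agent.FX65.TileCov
import Pool.Agent.FF65.Abs
import Pool.Agent.FF38.Act3

set_option autoImplicit false

/-!
# FX65/Stars: the tiles of a polytope glued with states satisfy the axioms `FF65.Stars`
-/

open Set Metric
open scoped RealInnerProductSpace

namespace Pool.FX65

open Pool.FF24 (HPoly)

variable {E : Type*} [NormedAddCommGroup E] [InnerProductSpace ℝ E] {S : Type*} {P : HPoly E}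
  (g : SGlue P S)

/-- a point which is not bad lies on at most two facets of a tile -/
theorem good_act {p : E} (hp : p ∉ g.Bad) (τ : g.Lab) :
    P.act (crd τ.1 p) = ∅ ∨ (∃ u, P.act (crd τ.1 p) = {u}) ∨
      ∃ u v, u ≠ v ∧ P.act (crd τ.1 p) = {u, v} := by
  by_cases h0 : P.act (crd τ.1 p) = ∅
  · exact Or.inl h0
  right
  obtain ⟨u, hu⟩ := Set.nonempty_iff_ne_empty.2 h0
  by_cases h1 : ∃ v ∈ P.act (crd τ.1 p), v ≠ u
  · right
    obtain ⟨v, hv, hvu⟩ := h1
    refine ⟨u, v, Ne.symm hvu, ?_⟩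
    refine Set.Subset.antisymm ?_ ?_
    · intro w hw
      by_contra hcon
      rw [mem_insert_iff, mem_singleton_iff, not_or] at hcon
      refine hp ⟨τ, u, hu.1, v, hv.1, w, hw.1, ?_, hu.2, hv.2, hw.2⟩
      exact FF38.li_three hu hv hw (Ne.symm hvu) (Ne.symm hcon.1) (Ne.symm hcon.2)
    · intro w hw
      rcases hw with rfl | hw
      · exact hu
      · rw [mem_singleton_iff.1 hw]
        exact hv
  · left
    push Not at h1
    refine ⟨u, Set.Subset.antisymm (fun w hw => mem_singleton_iff.2 (h1 w hw)) ?_⟩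
    intro w hw
    rw [mem_singleton_iff.1 hw]
    exact hu

theorem stars [Finite S] [FiniteDimensional ℝ E] (hC : g.Cyc) :
    FF65.Stars g.K g.Bad g.R where
  closed := K_closed g
  convex := K_convex g
  refl := fun _ _ h => R_refl g h
  mem := fun _ _ _ h => R_mem g h
  symm := fun _ _ _ h => R_symm g h
  trans := fun _ _ _ _ h h' => R_trans g h h'
  fin := fun p τ _ _ => star_finite g p τ
  loc := by
    intro p τ hp hτ
    have h1 : (∀ x, ∃ σ, g.R p τ σ ∧ x ∈ cone g p σ) ∧
        ∀ x σ σ', g.R p τ σ → g.R p τ σ' → x ∈ cone g p σ → x ∈ cone g p σ' →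
          Relation.ReflTransGen (StC g p x) σ σ' := by
      rcases good_act g hp τ with h | ⟨u, h⟩ | ⟨u, v, huv, h⟩
      · exact cone_zero g hτ h
      · exact cone_one g hτ h
      · exact cone_two g hC hτ huv h
    obtain ⟨ρ, hρ, h2, h3⟩ := loc_of_cone g hτ h1.1 h1.2
    exact ⟨ρ, hρ, h2, fun q _ hq => h3 q hq⟩
  lim := lim_field g

end Pool.FX65
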