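import Pool.Agent.FX65.Dsp
import Pool.Agent.FX65.Ext
import Pool.Agent.FF28.NotVar
import Pool.Agent.FF57.UniqS

set_option autoImplicit false

/-!
# FX65/Tile28: displacements of the centres of tiles, types of facets, the sign character

`crs_zeta`: crossing the facet `b` of `τ` moves `zeta C` by `τ.1 • W` if `Dsp P C b W`.
`zeta_inj`: tiles with the same `zeta C` are equal.
`no_sign`: a displacement zero does not change the sign.
-/

open Set Metric
open scoped RealInnerProductSpace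

namespace Pool.FX65

open Pool.FF24 Pool.FF56 Pool.FF57

variable {E : Type*} [NormedAddCommGroup E] [InnerProductSpace ℝ E] {P : HPoly E} {T : Set (ℝ × E)}
  {τ σ : ℝ × E} {a b C C' W W' : E}

/-- the crossing in detail -/
theorem crs_full (hT : IsFF P T) (h : Crs P T τ b σ) :
    (σ.1 = -τ.1 ∧ ∀ z ∈ P.fc b, τ.1 • (σ.2 - τ.2) - z ∈ P.fc b) ∨
    (σ.1 = τ.1 ∧ -b ∈ P.N ∧ ∀ z : E, z ∈ P.fc b ↔ z + τ.1 • (τ.2 - σ.2) ∈ P.fc (-b)) := by
  obtain ⟨hτ, hσ, hne, hu, v, hv, hF⟩ := h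
  have hn := Pool.FF79.facet_normal P (hT.sign τ hτ) (hT.sign σ hσ) hu hv (hT.disj τ hτ σ hσ hne.symm) hF
  have hsq : τ.1 * τ.1 = 1 := by
    rcases hT.sign τ hτ with h | h <;> rw [h] <;> norm_num
  have hcases : σ.1 = -τ.1 ∨ σ.1 = τ.1 := by
    rcases hT.sign τ hτ with h | h <;> rcases hT.sign σ hσ with h' | h' <;> rw [h, h'] <;> norm_num
  rcases hcases with hs | hs
  · left
    refine ⟨hs, ?_⟩
    have hvu : v = b := by
      rw [hs, neg_smul, neg_inj] at hn
      have := congrArg (fun w => τ.1 • w) hn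
      simpa [smul_smul, hsq] using this
    rw [hvu] at hF
    intro z hz
    have h1 : X τ z ∈ X σ '' P.fc b := by
      rw [hF]
      exact ⟨z, hz, rfl⟩
    obtain ⟨z', hz', h2⟩ := h1
    have h3 : τ.1 • (σ.2 - τ.2) - z = z' := by
      unfold X at h2
      rw [hs] at h2
      have h4 : τ.1 • z' = σ.2 - τ.2 - τ.1 • z := by
        have : -τ.1 • z' + σ.2 = τ.1 • z + τ.2 := h2
        rw [neg_smul] at this
        have h5 : τ.1 • z' = σ.2 - (τ.1 • z + τ.2) := by
          rw [← this]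
          abel
        rw [h5]
        abel
      have h5 := congrArg (fun w => τ.1 • w) h4
      simp only [smul_smul, hsq, one_smul, smul_sub] at h5
      rw [h5, smul_sub]
    rw [h3]
    exact hz'
  · right
    have hvu : v = -b := by
      rw [hs, ← smul_neg] at hn
      have := congrArg (fun w => τ.1 • w) hn
      simpa [smul_smul, hsq] using this
    rw [hvu] at hF hv
    refine ⟨hs, hv, fun z => ?_⟩
    have key : X τ z = X σ (z + τ.1 • (τ.2 - σ.2)) := by
      unfold X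
      rw [hs, smul_add, smul_smul, hsq, one_smul]
      abel
    have hinj : ∀ ρ : ℝ × E, (ρ.1 = 1 ∨ ρ.1 = -1) → ∀ (A : Set E) (w : E),
        X ρ w ∈ X ρ '' A ↔ w ∈ A := by
      intro ρ hρ A w
      constructor
      · rintro ⟨w', hw', h⟩
        have := congrArg (crd ρ) h
        rw [crd_X hρ, crd_X hρ] at this
        rw [← this]
        exact hw'
      · intro h
        exact ⟨w, h, rfl⟩
    rw [← hinj τ (hT.sign τ hτ) (P.fc b) z, ← hF, key, hinj σ (hT.sign σ hσ)]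

/-- crossing a facet moves the centre -/
theorem crs_zeta (hT : IsFF P T) (h : Crs P T τ b σ) (hd : Dsp P C b W) :
    zeta C σ = zeta C τ + τ.1 • W := by
  have hsq : τ.1 * τ.1 = 1 := by
    rcases hT.sign τ h.1 with h | h <;> rw [h] <;> norm_num
  rcases crs_full hT h with ⟨hs, hz⟩ | ⟨hs, -, hz⟩
  · have hW := hd.1 _ hz
    rw [← hW]
    unfold zeta
    rw [hs, smul_sub, smul_smul, hsq]
    module
  · have hW := hd.2 _ hz
    rw [← hW]
    unfold zeta
    rw [hs, smul_neg, smul_smul, hsq]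
    module

theorem shift_zero {A : Set E} (hA : Bornology.IsBounded A) (hne : A.Nonempty) {v : E}
    (h : ∀ z ∈ A, z + v ∈ A) : v = 0 := by
  obtain ⟨z, hz⟩ := hne
  obtain ⟨r, hr⟩ := hA.exists_norm_le
  have h1 : ∀ n : ℕ, z + (n : ℝ) • v ∈ A := by
    intro n
    induction n with
    | zero => simpa using hz
    | succ n ih =>
      have := h _ ih
      have e : z + ((n + 1 : ℕ) : ℝ) • v = z + (n : ℝ) • v + v := by
        push_cast
        module
      rw [e]
      exact this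
  by_contra hv
  have hv' : 0 < ‖v‖ := norm_pos_iff.2 hv
  obtain ⟨n, hn⟩ := exists_nat_gt ((r + ‖z‖) / ‖v‖)
  rw [div_lt_iff₀ hv'] at hn
  have h2 := hr _ (h1 n)
  have h3 : ‖(n : ℝ) • v‖ ≤ ‖z + (n : ℝ) • v‖ + ‖z‖ := by
    have := norm_sub_le (z + (n : ℝ) • v) z
    rwa [add_sub_cancel_left] at this
  rw [norm_smul, Real.norm_eq_abs, abs_of_nonneg (Nat.cast_nonneg n)] at h3
  linarith

theorem fc_bdd (P : HPoly E) (u : E) : Bornology.IsBounded (P.fc u) := by
  obtain ⟨r, hr⟩ := P.bdd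
  refine isBounded_iff_forall_norm_le.2 ⟨r, fun z hz => hr z hz.1⟩

theorem fc_ne (P : HPoly E) {u : E} (hu : u ∈ P.N) : (P.fc u).Nonempty := by
  obtain ⟨z, hz, hz'⟩ := P.real u hu
  exact ⟨z, hz, (hz' u hu).2 rfl⟩

theorem IsC.unique (h : IsC P a C) (h' : IsC P a C') : C = C' := by
  have h1 : C - C' = 0 := by
    refine shift_zero (fc_bdd P a) (fc_ne P h.1) fun z hz => ?_
    have h2 := h.2.2.2 _ (h'.2.2.1 z hz)
    have e : C - (C' - z) = z + (C - C') := by abel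
    rwa [e] at h2
  exact sub_eq_zero.1 h1

theorem IsC.neg (h : IsC P a C) : IsC P (-a) C :=
  ⟨h.2.1, by rw [neg_neg]; exact h.1, by rw [neg_neg]; exact h.2.2.2, by rw [neg_neg]; exact h.2.2.1⟩

theorem isC_of {ca t : E} (ha : a ∈ P.N) (ha' : -a ∈ P.N) (hc : ∀ z ∈ P.fc a, ca - z ∈ P.fc a)
    (ht : ∀ z : E, z ∈ P.fc a ↔ z + t ∈ P.fc (-a)) : IsC P a (ca + t) := by
  refine ⟨ha, ha', fun z hz => ?_, fun z hz => ?_⟩
  · have h1 := (ht _).1 (hc z hz)
    have e : ca - z + t = ca + t - z := by abel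
    rwa [e] at h1
  · have e : z = (z - t) + t := by abel
    rw [e] at hz
    have h1 := hc _ ((ht _).2 hz)
    have e2 : ca - (z - t) = ca + t - z := by abel
    rwa [e2] at h1

theorem exists_isC (hT : IsFF P T) (hv : Varies P T a) : ∃ C, IsC P a C := by
  obtain ⟨h1, ⟨h2, t, ht⟩, ca, hca⟩ := FF28.varies_data hT hv
  exact ⟨_, isC_of h1 h2 hca ht⟩

/-- the centre is the same for all facets of a belt which vary -/
theorem isC_eq (hc : Csym P b) (ht : Tra P b) (hd : Dsp P C b W) (h' : IsC P b C') : C' = C := by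
  obtain ⟨cb, hcb⟩ := hc
  obtain ⟨h2, t, ht⟩ := ht
  have e1 := hd.1 cb hcb
  have e2 := hd.2 t ht
  have e3 := IsC.unique h' (isC_of h'.1 h2 hcb ht)
  rw [e3]
  rw [← e2] at e1
  have : cb + t = C + (cb - C) + t := by abel
  rw [this, e1]
  abel

theorem Dsp.unique (hb : Csym P b ∨ Tra P b) (h : Dsp P C b W) (h' : Dsp P C b W') : W = W' := by
  rcases hb with ⟨cb, hcb⟩ | ⟨-, t, ht⟩
  · rw [← h.1 cb hcb, ← h'.1 cb hcb]
  · rw [← h.2 t ht, ← h'.2 t ht]

/-- a tile which shares the facets `a`, `-a` with the reflected tile is the same tile -/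
theorem zeta_inj (hT : IsFF P T) (hC : IsC P a C) (hτ : τ ∈ T) (hσ : σ ∈ T)
    (h : zeta C τ = zeta C σ) : τ = σ := by
  have hcases : σ.1 = -τ.1 ∨ σ.1 = τ.1 := by
    rcases hT.sign τ hτ with h | h <;> rcases hT.sign σ hσ with h' | h' <;> rw [h, h'] <;> norm_num
  rcases hcases with hs | hs
  · exfalso
    have hne : τ ≠ σ := by
      intro h0
      rw [h0] at hs
      rcases hT.sign σ hσ with h | h <;> rw [h] at hs <;> norm_num at hs
    have h1 : σ.2 = τ.2 + τ.1 • C := by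
      unfold zeta at h
      rw [hs] at h
      have : σ.2 = (σ.2 + (-τ.1 / 2) • C) + (τ.1 / 2) • C := by module
      rw [this, ← h]
      module
    -- the centre is an interior point
    obtain ⟨ha, ha', hf, hf'⟩ := hC
    obtain ⟨z, hz, hz'⟩ := P.real a ha
    have hza : z ∈ P.fc a := ⟨hz, (hz' a ha).2 rfl⟩
    have hz2 := hf z hza
    have hint : ∀ u ∈ P.N, ⟪u, (1 / 2 : ℝ) • C⟫ < P.h u := by
      intro u hu
      have e : (1 / 2 : ℝ) • C = (1 / 2 : ℝ) • z + (1 / 2 : ℝ) • (C - z) := by module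
      have h2 := hz u hu
      have h3 := hz2.1 u hu
      rw [e, inner_add_right, real_inner_smul_right, real_inner_smul_right]
      by_cases hua : u = a
      · subst hua
        have h4 : ⟪-u, C - z⟫ = P.h (-u) := hz2.2
        obtain ⟨w, hw⟩ := P.int
        have h5 := hw u hu
        have h6 := hw (-u) ha'
        rw [inner_neg_left] at h4 h6
        have h7 := hza.2
        linarith
      · have h4 : ⟪u, z⟫ ≠ P.h u := fun h => hua ((hz' u hu).1 h)
        have h5 : ⟪u, z⟫ < P.h u := lt_of_le_of_ne h2 h4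
        linarith
    have hmem : (1 / 2 : ℝ) • C ∈ interior P.body := by
      refine mem_interior.2 ⟨⋂ u ∈ P.N, {z : E | ⟪u, z⟫ < P.h u}, ?_, ?_, ?_⟩
      · intro y hy u hu
        rw [mem_iInter₂] at hy
        exact (hy u hu).le
      · refine isOpen_biInter_finset fun u _ => isOpen_lt ?_ continuous_const
        fun_prop
      · rw [mem_iInter₂]
        exact fun u hu => hint u hu
    have m1 : X τ ((1 / 2 : ℝ) • C) ∈ interior (X τ '' P.body) := by
      rw [← X_interior (hT.sign τ hτ)]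
      exact ⟨_, hmem, rfl⟩
    have m2 : X σ ((1 / 2 : ℝ) • C) ∈ interior (X σ '' P.body) := by
      rw [← X_interior (hT.sign σ hσ)]
      exact ⟨_, hmem, rfl⟩
    have e : X σ ((1 / 2 : ℝ) • C) = X τ ((1 / 2 : ℝ) • C) := by
      unfold X
      rw [h1, hs]
      module
    rw [e] at m2
    exact (Set.disjoint_left.1 (hT.disj τ hτ σ hσ hne)) m1 m2
  · refine Prod.ext hs.symm ?_
    unfold zeta at h
    rw [hs] at h
    exact add_right_cancel h

/-- the sign of an element of `ZMod 2` -/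
noncomputable def sg (s : ZMod 2) : ℝ := if s = 0 then 1 else -1

theorem sg_add (s t : ZMod 2) : sg (s + t) = sg s * sg t := by
  unfold sg
  have hs : s = 0 ∨ s = 1 := by revert s; decide
  have ht : t = 0 ∨ t = 1 := by revert t; decide
  have h11 : (1 : ZMod 2) + 1 = 0 := by decide
  have h10 : (1 : ZMod 2) ≠ 0 := by decide
  rcases hs with rfl | rfl <;> rcases ht with rfl | rfl <;> simp [h11]

/-- the facets `b`, `-b` have the type `s` (`0`: all crossings are translations) -/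
def Typ (P : HPoly E) (T : Set (ℝ × E)) (b : E) (s : ZMod 2) : Prop :=
  ∀ τ σ u, (u = b ∨ u = -b) → Crs P T τ u σ → σ.1 = sg s * τ.1

theorem exists_typ (hT : IsFF P T) (h : ¬ Varies P T b) : ∃ s, Typ P T b s := by
  by_contra hc
  push Not at hc
  apply h
  have h0 := hc 0
  have h1 := hc 1
  unfold Typ sg at h0 h1
  push Not at h0 h1
  obtain ⟨τ, σ, u, hu, hcr, hne⟩ := h0
  obtain ⟨τ', σ', u', hu', hcr', hne'⟩ := h1
  rw [if_pos rfl, one_mul] at hne
  rw [if_neg (by decide)] at hne'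
  refine ⟨⟨τ', σ', u', hu', hcr', ?_⟩, τ, σ, u, hu, hcr, ?_⟩
  · rcases FF28.crs_cases hT hcr' with ⟨e, -⟩ | ⟨e, -⟩
    · exact absurd (by rw [e]; ring) hne'
    · exact e
  · rcases FF28.crs_cases hT hcr with ⟨e, -⟩ | ⟨e, -⟩
    · exact e
    · exact absurd e hne

/-- the generators of the group of displacements of the facets with a fixed type -/
def Gen (P : HPoly E) (T : Set (ℝ × E)) (C : E) : Set (E × ZMod 2) :=
  {p | ∃ b : E, b ∈ P.N ∧ -b ∈ P.N ∧ Dsp P C b p.1 ∧ Dsp P C (-b) (-p.1) ∧ Typ P T b p.2}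

theorem exists_crs (hT : IsFF P T) (hτ : τ ∈ T) (hb : b ∈ P.N) : ∃ σ, Crs P T τ b σ := by
  obtain ⟨σ, h1, h2, h3⟩ := hT.facet τ hτ b hb
  exact ⟨σ, hτ, h1, h2, hb, h3⟩

theorem act_group (hT : IsFF P T) {p : E × ZMod 2} (hp : p ∈ AddSubgroup.closure (Gen P T C)) :
    (∀ τ ∈ T, ∃ σ ∈ T, zeta C σ = zeta C τ + p.1 ∧ σ.1 = sg p.2 * τ.1) ∧
      ∀ τ ∈ T, ∃ σ ∈ T, zeta C σ = zeta C τ - p.1 ∧ σ.1 = sg p.2 * τ.1 := by
  induction hp using AddSubgroup.closure_induction with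
  | mem p hp =>
    obtain ⟨b, hb, hb', hd, hd', ht⟩ := hp
    refine ⟨fun τ hτ => ?_, fun τ hτ => ?_⟩
    · rcases hT.sign τ hτ with hs | hs
      · obtain ⟨σ, hσ⟩ := exists_crs hT hτ hb
        refine ⟨σ, hσ.2.1, ?_, ht τ σ b (Or.inl rfl) hσ⟩
        rw [crs_zeta hT hσ hd, hs, one_smul]
      · obtain ⟨σ, hσ⟩ := exists_crs hT hτ hb'
        refine ⟨σ, hσ.2.1, ?_, ht τ σ (-b) (Or.inr rfl) hσ⟩
        rw [crs_zeta hT hσ hd', hs]
        module
    · rcases hT.sign τ hτ with hs | hs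
      · obtain ⟨σ, hσ⟩ := exists_crs hT hτ hb'
        refine ⟨σ, hσ.2.1, ?_, ht τ σ (-b) (Or.inr rfl) hσ⟩
        rw [crs_zeta hT hσ hd', hs]
        module
      · obtain ⟨σ, hσ⟩ := exists_crs hT hτ hb
        refine ⟨σ, hσ.2.1, ?_, ht τ σ b (Or.inl rfl) hσ⟩
        rw [crs_zeta hT hσ hd, hs]
        module
  | zero =>
    refine ⟨fun τ hτ => ⟨τ, hτ, by simp, by simp [sg]⟩, fun τ hτ => ⟨τ, hτ, by simp, by simp [sg]⟩⟩
  | add p p' _ _ h h' =>
    refine ⟨fun τ hτ => ?_, fun τ hτ => ?_⟩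
    · obtain ⟨σ, hσ, e1, e2⟩ := h.1 τ hτ
      obtain ⟨ρ, hρ, e3, e4⟩ := h'.1 σ hσ
      refine ⟨ρ, hρ, ?_, ?_⟩
      · rw [e3, e1, Prod.fst_add]; abel
      · rw [e4, e2, Prod.snd_add, sg_add]; ring
    · obtain ⟨σ, hσ, e1, e2⟩ := h.2 τ hτ
      obtain ⟨ρ, hρ, e3, e4⟩ := h'.2 σ hσ
      refine ⟨ρ, hρ, ?_, ?_⟩
      · rw [e3, e1, Prod.fst_add]; abel
      · rw [e4, e2, Prod.snd_add, sg_add]; ring
  | neg p _ h =>
    have e : ∀ s : ZMod 2, -s = s := by decide
    refine ⟨fun τ hτ => ?_, fun τ hτ => ?_⟩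
    · obtain ⟨σ, hσ, e1, e2⟩ := h.2 τ hτ
      refine ⟨σ, hσ, ?_, ?_⟩
      · rw [e1, Prod.fst_neg]; abel
      · rw [e2, Prod.snd_neg, e]
    · obtain ⟨σ, hσ, e1, e2⟩ := h.1 τ hτ
      refine ⟨σ, hσ, ?_, ?_⟩
      · rw [e1, Prod.fst_neg]; abel
      · rw [e2, Prod.snd_neg, e]

/-- a displacement zero does not change the sign -/
theorem no_sign (hT : IsFF P T) (hC : IsC P a C) (s : ZMod 2)
    (hs : ((0 : E), s) ∈ AddSubgroup.closure (Gen P T C)) : s = 0 := by
  obtain ⟨τ, hτ, -⟩ := hT.cover 0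
  obtain ⟨σ, hσ, e1, e2⟩ := (act_group hT hs).1 τ hτ
  simp only [add_zero] at e1
  have h1 := zeta_inj hT hC hσ hτ e1
  rw [h1] at e2
  by_contra h0
  unfold sg at e2
  simp only at e2
  rw [if_neg h0] at e2
  rcases hT.sign τ hτ with h | h <;> rw [h] at e2 <;> norm_num at e2

end Pool.FX65
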